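import Pool.Agent.BoltzD.Solver.Ops
import Pool.Agent.BoltzD.En.Split
import Mathlib.Analysis.Calculus.LineDeriv.IntegrationByParts
import Mathlib.Analysis.ODE.Gronwall
import Mathlib.Topology.UniformSpace.Uniformizable
import Mathlib.Tactic.Monotonicity.Lemmas
import Mathlib.Algebra.Order.Archimedean.Real.Hom
import Mathlib.Analysis.InnerProductSpace.Calculus
import Mathlib.Analysis.SpecialFunctions.SmoothTransition

-- ======== part 0: formerly Pool.Agent.BoltzD.Lin.Loc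
section MrgPart0

/-! Locality, scaling and periodisation in the smooth classes. -/

set_option autoImplicit false
set_option linter.unusedSectionVars false

open Filter Topology

namespace Pool.Agent.BoltzC

variable [Dim]

variable {F : Type*} [AddCommGroup F] [Module ℝ F] [TopologicalSpace F]
  [IsTopologicalAddGroup F] [ContinuousSMul ℝ F] [T2Space F]
variable {T : Type*} [TopologicalSpace T]

theorem tendsto_line (x : E3) (i : Ix) : Tendsto (fun t : ℝ => x + t • ev i) (𝓝 0) (𝓝 x) := by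
  have : Continuous fun t : ℝ => x + t • ev i := by fun_prop
  simpa using this.tendsto 0

theorem dX_congr_ev {G H : E3 → F} {x : E3} (h : G =ᶠ[𝓝 x] H) (i : Ix) :
    dX i G x = dX i H x := by
  unfold dX limUnder
  congr 1
  apply Filter.map_congr
  filter_upwards [((tendsto_line x i).eventually h).filter_mono nhdsWithin_le_nhds] with t ht
  rw [ht, h.eq_of_nhds]

theorem dX_ev {G H : E3 → F} {x : E3} (h : G =ᶠ[𝓝 x] H) (i : Ix) :
    dX i G =ᶠ[𝓝 x] dX i H :=
  h.eventuallyEq_nhds.mono fun _ hy => dX_congr_ev hy i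

theorem dXw_ev {G H : E3 → F} {x : E3} (h : G =ᶠ[𝓝 x] H) (u : List Ix) :
    dXw u G =ᶠ[𝓝 x] dXw u H := by
  induction u generalizing G H with
  | nil => exact h
  | cons i u ih => exact ih (dX_ev h i)

theorem dXw_congr_ev {G H : E3 → F} {x : E3} (h : G =ᶠ[𝓝 x] H) (u : List Ix) :
    dXw u G x = dXw u H x := (dXw_ev h u).eq_of_nhds

/-- Support in the closed ball of radius `ρ`. -/
def Supp {α : Type*} [Zero α] (ρ : ℝ) (G : E3 → α) : Prop := ∀ x, ρ < ‖x‖ → G x = 0

theorem Supp.mono {α : Type*} [Zero α] {ρ ρ' : ℝ} {G : E3 → α} (h : Supp ρ G) (hρ : ρ ≤ ρ') :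
    Supp ρ' G := fun x hx => h x (hρ.trans_lt hx)

theorem Supp.ev {α : Type*} [Zero α] {ρ : ℝ} {G : E3 → α} (h : Supp ρ G) {x : E3} (hx : ρ < ‖x‖) :
    G =ᶠ[𝓝 x] fun _ => 0 :=
  ((isOpen_lt continuous_const continuous_norm).eventually_mem hx).mono fun y hy => h y hy

theorem Supp.dX {ρ : ℝ} {G : E3 → F} (h : Supp ρ G) (i : Ix) : Supp ρ (dX i G) := by
  intro x hx
  rw [dX_congr_ev (h.ev hx), dX_const]

theorem Supp.dXw {ρ : ℝ} {G : E3 → F} (h : Supp ρ G) (u : List Ix) : Supp ρ (dXw u G) := by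
  induction u generalizing G with
  | nil => exact h
  | cons i u ih => exact ih (h.dX i)

theorem Supp.scale {α : Type*} [Zero α] {ρ lam : ℝ} {G : E3 → α} (h : Supp ρ G) (hl : 0 < lam) :
    Supp (ρ / lam) fun x => G (lam • x) := by
  intro x hx
  apply h
  rw [norm_smul, Real.norm_eq_abs, abs_of_pos hl, mul_comm]
  exact (div_lt_iff₀ hl).mp hx

/-! ### Scaling -/

theorem HD.comp_mul {γ : ℝ → F} {a : F} (h : HD γ a 0) (lam : ℝ) :
    HD (fun t => γ (lam * t)) (lam • a) 0 := by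
  rcases eq_or_ne lam 0 with rfl | hl
  · simpa using HD.const (γ 0) 0
  unfold HD at *
  have h1 : Tendsto (fun t : ℝ => lam * t) (𝓝[≠] 0) (𝓝[≠] 0) := by
    apply tendsto_nhdsWithin_of_tendsto_nhds_of_eventually_within
    · have : Continuous fun t : ℝ => lam * t := by fun_prop
      simpa using (this.tendsto 0).mono_left nhdsWithin_le_nhds
    · filter_upwards [self_mem_nhdsWithin] with t ht
      exact mul_ne_zero hl ht
  refine ((h.comp h1).const_smul lam).congr fun t => ?_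
  simp only [Function.comp, zero_add, mul_zero, smul_smul, mul_inv]
  rw [← mul_assoc, mul_inv_cancel₀ hl, one_mul]

theorem Dif.hd_scale {G : E3 → F} (h : Dif G) (lam : ℝ) (i : Ix) (x : E3) :
    HD (fun t : ℝ => G (lam • (x + t • ev i))) (lam • dX i G (lam • x)) 0 := by
  refine ((h i (lam • x)).comp_mul lam).congr fun t => ?_
  rw [smul_add, smul_smul]

theorem dX_scale {G : E3 → F} (h : Dif G) (lam : ℝ) (i : Ix) :
    dX i (fun x => G (lam • x)) = fun x => lam • dX i G (lam • x) :=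
  funext fun x => dX_eq (h.hd_scale lam i x)

theorem SmC.scale {g : T → E3 → F} (hg : SmC g) {lam : T → ℝ} (hl : Continuous lam) :
    SmC fun s x => g s (lam s • x) := by
  refine smC_coind (fun k => ∃ G : T → E3 → F, SmC G ∧ k = fun s x => G s (lam s • x)) ?_
    ⟨g, hg, rfl⟩
  rintro k ⟨G, hG, rfl⟩
  refine ⟨hG.cont.comp (f := fun p : T × E3 => (p.1, lam p.1 • p.2)) (by fun_prop), fun i =>
    ⟨_, ⟨fun s x => lam s • BoltzC.dX i (G s) x, (SmC.of_time hl).smul (hG.dX i), rfl⟩,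
      fun s x => (hG.dif s).hd_scale (lam s) i x⟩⟩

theorem Sm.scale {G : E3 → F} (hG : Sm G) (lam : ℝ) : Sm fun x => G (lam • x) :=
  SmC.scale hG (lam := fun _ => lam) continuous_const

theorem dXw_scale {G : E3 → F} (h : Sm G) (lam : ℝ) (u : List Ix) :
    dXw u (fun x => G (lam • x)) = fun x => lam ^ u.length • dXw u G (lam • x) := by
  induction u generalizing G with
  | nil => simp
  | cons i u ih =>
    rw [dXw_cons, dX_scale h.dif, dXw_const_smul ((h.dX i).scale lam), ih (h.dX i)]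
    funext x
    simp only [smul_smul, List.length_cons, pow_succ', dXw_cons]

theorem HD.comp_add {γ : ℝ → F} {a : F} {s θ : ℝ} (h : HD γ a (s + θ)) :
    HD (fun t => γ (t + θ)) a s := by
  unfold HD at *
  simpa only [add_right_comm] using h

theorem SmD.shift_scale {g g' : ℝ → E3 → F} (h : SmD g g') (θ lam : ℝ) :
    SmD (fun s x => g (s + θ) (lam • x)) fun s x => g' (s + θ) (lam • x) :=
  ⟨(h.sm.reparam (r := fun s => s + θ) (by fun_prop)).scale (lam := fun _ => lam) continuous_const,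
    (h.sm'.reparam (r := fun s => s + θ) (by fun_prop)).scale (lam := fun _ => lam)
      continuous_const, fun s x => (h.hd (s + θ) (lam • x)).comp_add⟩

/-! ### Periodisation -/

/-- Reduction to the period cell centred at the origin. -/
noncomputable def red (x : E3) : E3 := x - WithLp.toLp 2 fun i => (round (x i) : ℝ)

theorem red_apply (x : E3) (i : Ix) : red x i = x i - round (x i) := rfl

theorem red_add_ev (x : E3) (j : Ix) : red (x + ev j) = red x := by
  ext i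
  rw [red_apply, red_apply]
  by_cases h : i = j
  · subst h; simp [ev, round_add_one]
  · simp [ev, h]

theorem red_eq_self {x : E3} (h : ‖x‖ < 1 / 2) : red x = x := by
  ext i
  have h1 : |x i| < 1 / 2 := lt_of_le_of_lt (by simpa using PiLp.norm_apply_le x i) h
  have h2 : round (x i) = 0 := by
    rw [round_eq_zero_iff]
    constructor <;> linarith [(abs_lt.mp h1).1, (abs_lt.mp h1).2]
  simp [red_apply, h2]

theorem Per.red {α : Type*} {G : E3 → α} (h : Per G) (x : E3) : G (red x) = G x := by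
  rw [← h.add_of_int (fun i => round (x i)) (z := WithLp.toLp 2 fun i => (round (x i) : ℝ))
    (fun _ => rfl) (BoltzC.red x), BoltzC.red, sub_add_cancel]

theorem norm_red_le (x : E3) (n : Ix → ℤ) :
    ‖red x‖ ≤ ‖x - WithLp.toLp 2 fun i => (n i : ℝ)‖ := by
  rw [EuclideanSpace.norm_eq, EuclideanSpace.norm_eq]
  refine Real.sqrt_le_sqrt (Finset.sum_le_sum fun i _ => ?_)
  refine pow_le_pow_left₀ (norm_nonneg _) ?_ 2
  simpa [red_apply] using round_le (x i) (n i)

theorem norm_red_le_norm (x : E3) : ‖red x‖ ≤ ‖x‖ := by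
  refine (norm_red_le x 0).trans (le_of_eq ?_)
  congr 1
  ext i
  simp

theorem lipschitz_norm_red (x y : E3) : ‖red y‖ ≤ ‖red x‖ + ‖y - x‖ := by
  refine (norm_red_le y fun i => round (x i)).trans ?_
  have : (y - WithLp.toLp 2 fun i => (round (x i) : ℝ)) = red x + (y - x) := by
    unfold red; abel
  rw [this]
  exact norm_add_le _ _

theorem continuous_norm_red : Continuous fun x => ‖red x‖ := by
  refine (LipschitzWith.of_dist_le_mul (K := 1) fun x y => ?_).continuous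
  rw [Real.dist_eq, dist_eq_norm, NNReal.coe_one, one_mul, abs_le]
  have h1 := lipschitz_norm_red x y
  have h2 := lipschitz_norm_red y x
  rw [norm_sub_rev] at h1
  constructor <;> linarith

theorem red_ev {x : E3} (h : ‖red x‖ < 1 / 2) : ∀ᶠ y in 𝓝 x, red y = red x + (y - x) := by
  have h1 : ∀ᶠ y in 𝓝 x, ‖red x + (y - x)‖ < 1 / 2 := by
    have : Continuous fun y : E3 => ‖red x + (y - x)‖ := by fun_prop
    exact this.continuousAt.eventually (gt_mem_nhds (by simpa using h))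
  filter_upwards [h1] with y hy
  have hp : Per red := fun i z => red_add_ev z i
  rw [← red_eq_self hy, ← hp.add_of_int (fun i => round (x i))
    (z := WithLp.toLp 2 fun i => (round (x i) : ℝ)) (fun _ => rfl) (red x + (y - x))]
  congr 1
  unfold red
  abel

theorem red_far {x : E3} {ρ : ℝ} (h : ρ < ‖red x‖) : ∀ᶠ y in 𝓝 x, ρ < ‖red y‖ :=
  continuous_norm_red.continuousAt.eventually (lt_mem_nhds h)

/-- Periodisation of a function supported in a small ball. -/
noncomputable def per {α : Type*} (G : E3 → α) (x : E3) : α := G (red x)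

theorem per_per {α : Type*} (G : E3 → α) : Per (per G) := fun i x => by
  simp only [per, red_add_ev]

theorem per_eq {α : Type*} (G : E3 → α) {x : E3} (h : ‖x‖ < 1 / 2) : per G x = G x := by
  simp only [per, red_eq_self h]

theorem Per.per_eq {α : Type*} {G : E3 → α} (h : Per G) : per G = G := funext h.red

theorem Dif.hd_per {G : E3 → F} (h : Dif G) {ρ : ℝ} (hs : Supp ρ G) (hρ : ρ < 1 / 2) (i : Ix)
    (x : E3) : HD (fun t : ℝ => per G (x + t • ev i)) (per (dX i G) x) 0 := by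
  by_cases hx : ‖red x‖ < 1 / 2
  · refine (h i (red x)).congr_of_eventuallyEq ?_
    filter_upwards [(tendsto_line x i).eventually (red_ev hx)] with t ht
    simp only [per, ht, add_sub_cancel_left]
  · have h1 : ρ < ‖red x‖ := hρ.trans_le (not_lt.mp hx)
    have h2 : per (dX i G) x = 0 := hs.dX i _ h1
    rw [h2]
    refine (HD.const (0 : F) 0).congr_of_eventuallyEq ?_
    filter_upwards [(tendsto_line x i).eventually (red_far h1)] with t ht
    exact (hs _ ht).symm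

theorem dX_per {G : E3 → F} (h : Dif G) {ρ : ℝ} (hs : Supp ρ G) (hρ : ρ < 1 / 2) (i : Ix) :
    dX i (per G) = per (dX i G) := funext fun x => dX_eq (h.hd_per hs hρ i x)

theorem dXw_per {G : E3 → F} (h : Sm G) {ρ : ℝ} (hs : Supp ρ G) (hρ : ρ < 1 / 2)
    (u : List Ix) : dXw u (per G) = per (dXw u G) := by
  induction u generalizing G with
  | nil => rfl
  | cons i u ih => rw [dXw_cons, dX_per h.dif hs hρ, ih (h.dX i) (hs.dX i), dXw_cons]

theorem continuous_per {α : Type*} [TopologicalSpace α] [Zero α] {g : T → E3 → α}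
    (hg : Continuous fun p : T × E3 => g p.1 p.2) {ρ : ℝ} (hs : ∀ s, Supp ρ (g s))
    (hρ : ρ < 1 / 2) : Continuous fun p : T × E3 => per (g p.1) p.2 := by
  rw [continuous_iff_continuousAt]
  rintro ⟨s, x⟩
  by_cases hx : ‖red x‖ < 1 / 2
  · have h1 : Continuous fun p : T × E3 => g p.1 (red x + (p.2 - x)) :=
      hg.comp (f := fun p : T × E3 => (p.1, red x + (p.2 - x))) (by fun_prop)
    refine h1.continuousAt.congr ?_
    filter_upwards [(continuous_snd.tendsto (s, x)).eventually (red_ev hx)] with p hp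
    simp only [per, hp]
  · have h1 : ρ < ‖red x‖ := hρ.trans_le (not_lt.mp hx)
    refine (continuousAt_const (y := (0 : α))).congr ?_
    filter_upwards [(continuous_snd.tendsto (s, x)).eventually (red_far h1)] with p hp
    exact (hs _ _ hp).symm

theorem SmC.per {g : T → E3 → F} (hg : SmC g) {ρ : ℝ} (hs : ∀ s, Supp ρ (g s)) (hρ : ρ < 1 / 2) :
    SmC fun s => per (g s) := by
  refine smC_coind (fun k => ∃ G : T → E3 → F, SmC G ∧ (∀ s, Supp ρ (G s)) ∧
    k = fun s => BoltzC.per (G s)) ?_ ⟨g, hg, hs, rfl⟩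
  rintro k ⟨G, hG, hGs, rfl⟩
  exact ⟨continuous_per hG.cont hGs hρ, fun i =>
    ⟨_, ⟨fun s => BoltzC.dX i (G s), hG.dX i, fun s => (hGs s).dX i, rfl⟩,
      fun s x => (hG.dif s).hd_per (hGs s) hρ i x⟩⟩

theorem Sm.per {G : E3 → F} (hG : Sm G) {ρ : ℝ} (hs : Supp ρ G) (hρ : ρ < 1 / 2) : Sm (per G) :=
  SmC.per hG (fun _ => hs) hρ

theorem SmD.supp' {g g' : ℝ → E3 → F} (h : SmD g g') {ρ : ℝ} (hs : ∀ s, Supp ρ (g s)) (s : ℝ) :
    Supp ρ (g' s) := fun x hx =>
  (h.hd s x).unique ((HD.const (0 : F) s).congr fun t => (hs t x hx).symm)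

theorem SmD.per {g g' : ℝ → E3 → F} (h : SmD g g') {ρ : ℝ} (hs : ∀ s, Supp ρ (g s))
    (hρ : ρ < 1 / 2) : SmD (fun s => per (g s)) fun s => per (g' s) :=
  ⟨h.sm.per hs hρ, h.sm'.per (h.supp' hs) hρ, fun s x => h.hd s (red x)⟩

end Pool.Agent.BoltzC

end MrgPart0

-- ======== part 1: formerly Pool.Agent.BoltzD.KK.BB
section MrgPart1

/-! Pointwise algebra of the energy density used for the finite rank damping. -/

set_option autoImplicit false

open MeasureTheory Pool.Agent.BoltzC Finset Filter Topology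

noncomputable section

namespace Pool.Agent.BoltzD.KK

variable [Dim]

/-- The energy density as a bilinear form of the jets. -/
def jetB (n : ℕ) (θ σ : ℝ) : (List Ix → SV) →ₗ[ℝ] (List Ix → SV) →ₗ[ℝ] ℝ :=
  LinearMap.mk₂ ℝ (fun a b => lev n θ σ fun u m => nB m (a u) (b u))
    (fun a a' b => by simp [lev, mul_add, sum_add_distrib])
    (fun c a b => by simp [lev, mul_sum, mul_left_comm])
    (fun a b b' => by simp [lev, mul_add, sum_add_distrib])
    (fun c a b => by simp [lev, mul_sum, mul_left_comm])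

lemma jetB_apply (n : ℕ) (θ σ : ℝ) (a b : List Ix → SV) :
    jetB n θ σ a b = lev n θ σ fun u m => nB m (a u) (b u) := rfl

lemma bb_eq (n : ℕ) (θ : ℝ) (σ : E3 → ℝ) (G H : E3 → SV) (x : E3) :
    bb n θ σ G H x = jetB n θ (σ x) (fun u => dXw u G x) fun u => dXw u H x := rfl

lemma lev_mono {n : ℕ} {θ σ : ℝ} (hθ : 0 ≤ θ) {φ ψ : List Ix → ℕ → ℝ}
    (h : ∀ u m, φ u m ≤ ψ u m) : lev n θ σ φ ≤ lev n θ σ ψ := by
  refine sum_le_sum fun j _ => sum_le_sum fun m _ => ?_
  refine mul_le_mul_of_nonneg_left (sum_le_sum fun u _ => h u m) ?_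
  rw [pow_mul']
  positivity

lemma lev_nonneg {n : ℕ} {θ σ : ℝ} (hθ : 0 ≤ θ) {φ : List Ix → ℕ → ℝ}
    (h : ∀ u m, 0 ≤ φ u m) : 0 ≤ lev n θ σ φ := by
  have := lev_mono (n := n) (σ := σ) hθ (φ := fun _ _ => 0) h
  simpa [lev] using this

lemma term_le_lev {n : ℕ} {θ σ : ℝ} (hθ : 0 ≤ θ) {φ : List Ix → ℕ → ℝ}
    (h : ∀ u m, 0 ≤ φ u m) (u : List Ix) (m : ℕ) (hum : u.length + m ≤ n) :
    θ ^ (u.length + m) * σ ^ (2 * u.length) * φ u m ≤ lev n θ σ φ := by
  have hw : ∀ j m : ℕ, 0 ≤ θ ^ (j + m) * σ ^ (2 * j) := fun j m => by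
    rw [pow_mul']; positivity
  have h1 : φ u m ≤ ∑ w ∈ words u.length, φ w m :=
    single_le_sum (f := fun w => φ w m) (fun w _ => h w m) (mem_words.2 rfl)
  refine (mul_le_mul_of_nonneg_left h1 (hw _ _)).trans ?_
  have h2 := single_le_sum (s := range (n + 1 - u.length))
    (f := fun m => θ ^ (u.length + m) * σ ^ (2 * u.length) * ∑ w ∈ words u.length, φ w m)
    (fun m _ => mul_nonneg (hw _ _) (sum_nonneg fun w _ => h w m)) (a := m)
    (mem_range.2 (by omega))
  refine h2.trans ?_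
  exact single_le_sum (s := range (n + 1)) (f := fun j => ∑ m ∈ range (n + 1 - j),
      θ ^ (j + m) * σ ^ (2 * j) * ∑ w ∈ words j, φ w m)
    (fun j _ => sum_nonneg fun m _ => mul_nonneg (hw _ _) (sum_nonneg fun w _ => h w m))
    (mem_range.2 (by omega))

lemma jetB_comm (n : ℕ) (θ σ : ℝ) (a b : List Ix → SV) : jetB n θ σ a b = jetB n θ σ b a := by
  simp only [jetB_apply, nB_comm _ (a _)]

lemma jetB_nonneg (n : ℕ) {θ : ℝ} (hθ : 0 ≤ θ) (σ : ℝ) (a : List Ix → SV) :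
    0 ≤ jetB n θ σ a a :=
  lev_nonneg hθ fun u m => by rw [nB_self]; exact nA_nonneg _ _

variable {n : ℕ} {θ : ℝ} {σ : E3 → ℝ} {G H : E3 → SV}

lemma bb_comm (x : E3) : bb n θ σ G H x = bb n θ σ H G x := jetB_comm _ _ _ _ _

lemma bb_nonneg (hθ : 0 ≤ θ) (x : E3) : 0 ≤ bb n θ σ G G x := jetB_nonneg _ hθ _ _

lemma bb_sq_le (hθ : 0 ≤ θ) (x : E3) : bb n θ σ G H x ^ 2 ≤ bb n θ σ G G x * bb n θ σ H H x :=
  LinearMap.BilinForm.apply_sq_le_of_symm (jetB n θ (σ x)) (jetB_nonneg n hθ _)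
    ⟨fun a b => jetB_comm _ _ _ a b⟩ _ _

lemma bb_add_left {G' : E3 → SV} (hG : Sm G) (hG' : Sm G') (x : E3) :
    bb n θ σ (fun y => G y + G' y) H x = bb n θ σ G H x + bb n θ σ G' H x := by
  simp only [bb_eq, dXw_add hG hG']
  rw [← LinearMap.add_apply, ← map_add]
  rfl

lemma bb_smul_left (hG : Sm G) (c : ℝ) (x : E3) :
    bb n θ σ (fun y => c • G y) H x = c * bb n θ σ G H x := by
  simp only [bb_eq, dXw_const_smul hG]
  rw [← smul_eq_mul, ← LinearMap.smul_apply, ← map_smul]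
  rfl

lemma continuous_bb (hσ : Continuous σ) (hG : Sm G) (hH : Sm H) : Continuous (bb n θ σ G H) := by
  unfold bb lev
  refine continuous_finsetSum _ fun j _ => continuous_finsetSum _ fun m _ => ?_
  refine (continuous_const.mul (hσ.pow _)).mul (continuous_finsetSum _ fun u _ => ?_)
  exact ((hG.dXw u).ip ((hH.dXw u).clm (RR m))).cont

lemma per_bb (hσ : Per σ) (hG : Per G) (hH : Per H) : Per (bb n θ σ G H) := fun i x => by
  simp only [bb, hσ i x, hG.dXw _ i x, hH.dXw _ i x]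

lemma bb_congr {σ' : E3 → ℝ} {G' H' : E3 → SV} {x : E3} (hσ : σ x = σ' x) (hG : G =ᶠ[𝓝 x] G')
    (hH : H =ᶠ[𝓝 x] H') : bb n θ σ G H x = bb n θ σ' G' H' x := by
  simp only [bb, hσ, dXw_congr_ev hG, dXw_congr_ev hH]

lemma supp_bb {ρ : ℝ} (hG : Supp ρ G) : Supp ρ (bb n θ σ G H) := fun x hx => by
  simp [bb, lev, hG.dXw _ x hx]

lemma term_le_bb (hθ : 0 ≤ θ) (u : List Ix) (m : ℕ) (hum : u.length + m ≤ n) (x : E3) :
    θ ^ (u.length + m) * σ x ^ (2 * u.length) * nA m (dXw u G x) ≤ bb n θ σ G G x := by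
  rw [← nB_self]
  exact term_le_lev (φ := fun u m => nB m (dXw u G x) (dXw u G x)) hθ
    (fun u m => by rw [nB_self]; exact nA_nonneg _ _) u m hum

lemma ip_le_bb (hθ : 0 ≤ θ) (x : E3) : ip (G x) (G x) ≤ bb n θ σ G G x := by
  simpa [nA_zero] using term_le_bb (n := n) (σ := σ) (G := G) hθ [] 0 (by simp) x

lemma bb_PP_right (hG : Sm G) (hH : Sm H) (hP : ∀ y, PP (G y) = G y) (x : E3) :
    bb n θ σ G (fun y => PP (H y)) x = bb n θ σ G H x := by
  have e : ∀ u, PP (dXw u G x) = dXw u G x := fun u => by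
    have := congrFun (dXw_clm hG PP u) x
    simp only [hP] at this
    exact this.symm
  simp only [bb, dXw_clm hH PP]
  congr 1
  funext u m
  rw [← PP_RR, ← ip_PP, e]

lemma bb_PP_le (hθ : 0 ≤ θ) (hG : Sm G) (x : E3) :
    bb n θ σ (fun y => PP (G y)) (fun y => PP (G y)) x ≤ bb n θ σ G G x := by
  simp only [bb, dXw_clm hG PP]
  exact lev_mono hθ fun u m => by
    rw [← nA_eq_ip_RR, ← nA_eq_ip_RR]; exact nA_PP_le_nA _ _

lemma bb_scale (hG : Sm G) (hH : Sm H) {lam : ℝ} {σ' : E3 → ℝ} (x : E3)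
    (hσ : lam * σ' x = σ (lam • x)) :
    bb n θ σ' (fun y => G (lam • y)) (fun y => H (lam • y)) x = bb n θ σ G H (lam • x) := by
  simp only [bb, lev, dXw_scale hG, dXw_scale hH, ← hσ, map_smul, LinearMap.smul_apply,
    smul_eq_mul]
  refine sum_congr rfl fun j _ => sum_congr rfl fun m _ => ?_
  rw [mul_sum, mul_sum]
  refine sum_congr rfl fun u hu => ?_
  rw [mem_words.1 hu]
  ring

lemma nA_list_sum_le (m : ℕ) {c : ℝ} (hc : 0 ≤ c) (l : List SV) (h : ∀ f ∈ l, nA m f ≤ c) :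
    nA m l.sum ≤ (l.length : ℝ) ^ 2 * c := by
  induction l with
  | nil => simp
  | cons f l ih =>
    have h1 := h f (by simp)
    have h2 := ih fun g hg => h g (by simp [hg])
    have h3 : nB m f l.sum ^ 2 ≤ nB m f f * nB m l.sum l.sum :=
      LinearMap.BilinForm.apply_sq_le_of_symm (nB m)
        (fun a => by rw [nB_self]; exact nA_nonneg _ _) ⟨fun a b => nB_comm _ a b⟩ _ _
    rw [nB_self, nB_self] at h3
    have h4 : nB m f l.sum ^ 2 ≤ ((l.length : ℝ) * c) ^ 2 := by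
      refine h3.trans ((mul_le_mul h1 h2 (nA_nonneg _ _) hc).trans (le_of_eq (by ring)))
    have h5 := (abs_le_of_sq_le_sq' h4 (by positivity)).2
    rw [List.sum_cons, ← nB_self, List.length_cons]
    simp only [map_add, LinearMap.add_apply, nB_self, nB_comm m l.sum f]
    push_cast
    nlinarith

/-- Multiplication by a symbol of size one is bounded. -/
lemma bb_smul_le (n : ℕ) (K : ℕ → ℝ) : ∃ C : ℝ, 0 < C ∧ ∀ (θ : ℝ) (σ a : E3 → ℝ) (G : E3 → SV)
    (x : E3), 0 ≤ θ → θ ≤ 1 → Sm a → Sm G → 0 ≤ σ x →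
    (∀ w : List Ix, σ x ^ w.length * |dXw w a x| ≤ K w.length) →
    bb n θ σ (fun y => a y • G y) (fun y => a y • G y) x ≤ C * bb n θ σ G G x := by
  set M := ∑ j ∈ range (n + 1), K j ^ 2 with hM
  have hM0 : 0 ≤ M := sum_nonneg fun _ _ => sq_nonneg _
  refine ⟨lev n 1 1 (fun u _ => (2 ^ u.length : ℝ) ^ 2 * M) + 1, ?_, ?_⟩
  · have := lev_nonneg (n := n) (σ := 1) zero_le_one
      (φ := fun u _ => (2 ^ u.length : ℝ) ^ 2 * M) fun u m => by positivity
    linarith
  intro θ σ a G x hθ hθ1 ha hG hσ hK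
  have hb := bb_nonneg (n := n) (σ := σ) (G := G) hθ x
  rw [add_mul, one_mul]
  refine le_trans ?_ (le_add_of_nonneg_right hb)
  rw [bb, lev, lev, sum_mul]
  refine sum_le_sum fun j hj => ?_
  rw [sum_mul]
  refine sum_le_sum fun m hm => ?_
  rw [one_pow, one_pow, one_mul, one_mul, mul_sum, sum_mul]
  refine sum_le_sum fun u hu => ?_
  have hj' := mem_range.1 hj
  have hm' := mem_range.1 hm
  have hul := mem_words.1 hu
  rw [← nA_eq_ip_RR, dXw_smul ha hG]
  set c := √(θ ^ (j + m)) * σ x ^ j with hc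
  have hc2 : c ^ 2 = θ ^ (j + m) * σ x ^ (2 * j) := by
    rw [hc, mul_pow, Real.sq_sqrt (by positivity), ← pow_mul, mul_comm j 2]
  rw [← hc2, ← nA_smul, List.smul_sum, List.map_map]
  refine (nA_list_sum_le m (c := M * bb n θ σ G G x) (by positivity) _ ?_).trans (le_of_eq ?_)
  · intro f hf
    obtain ⟨p, hp, rfl⟩ := List.mem_map.1 hf
    have hl := length_of_mem_splits hp
    simp only [Function.comp]
    rw [nA_smul, nA_smul, hc2]
    have h1 := term_le_bb (n := n) (σ := σ) (G := G) hθ p.2 m (by omega) x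
    have h2 : (σ x ^ p.1.length * |dXw p.1 a x|) ^ 2 ≤ M :=
      (pow_le_pow_left₀ (by positivity) (hK p.1) 2).trans
        (single_le_sum (f := fun j => K j ^ 2) (fun _ _ => sq_nonneg _) (mem_range.2 (by omega)))
    have h3 : θ ^ (j + m) ≤ θ ^ (p.2.length + m) := pow_le_pow_of_le_one hθ hθ1 (by omega)
    have h4 := nA_nonneg m (dXw p.2 G x)
    have e : j = p.1.length + p.2.length := by omega
    calc θ ^ (j + m) * σ x ^ (2 * j) * (dXw p.1 a x ^ 2 * nA m (dXw p.2 G x))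
        = (σ x ^ p.1.length * |dXw p.1 a x|) ^ 2 *
          (θ ^ (j + m) * σ x ^ (2 * p.2.length) * nA m (dXw p.2 G x)) := by
          rw [mul_pow, sq_abs, e]; ring
      _ ≤ M * (θ ^ (p.2.length + m) * σ x ^ (2 * p.2.length) * nA m (dXw p.2 G x)) := by gcongr
      _ ≤ _ := by gcongr
  · rw [List.length_map, length_splits]
    push_cast
    ring

end Pool.Agent.BoltzD.KK

end
end MrgPart1

-- ======== part 2: formerly Pool.Agent.BoltzD.Lin.WInt
section MrgPart2

/-! Integrals over the whole space of compactly supported functions, Gronwall's inequality. -/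

set_option autoImplicit false
set_option linter.unusedSectionVars false

open Filter Topology MeasureTheory Set

namespace Pool.Agent.BoltzC

variable [Dim]

theorem Supp.hasCompactSupport {α : Type*} [Zero α] {ρ : ℝ} {φ : E3 → α} (h : Supp ρ φ) :
    HasCompactSupport φ :=
  HasCompactSupport.intro (isCompact_closedBall (0 : E3) ρ) fun x hx =>
    h x (by simpa using hx)

theorem Supp.integrable {ρ : ℝ} {φ : E3 → ℝ} (h : Supp ρ φ) (hc : Continuous φ) : Integrable φ :=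
  hc.integrable_of_hasCompactSupport h.hasCompactSupport

/-- The corner of the cube of side `2 * a` centred at the origin. -/
noncomputable def corner (a : ℝ) : E3 := WithLp.toLp 2 fun _ => -a

theorem mem_cube_corner {a : ℝ} {x : E3} (h : ‖x‖ < a) : x ∈ cube (corner a) (2 * a) := by
  intro i
  have h1 : |x i| < a := lt_of_le_of_lt (by simpa using PiLp.norm_apply_le x i) h
  have h2 := abs_lt.mp h1
  constructor
  · exact h2.1
  · show x i ≤ -a + 2 * a
    linarith [h2.2]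

theorem Supp.integral_cube {ρ a : ℝ} {φ : E3 → ℝ} (h : Supp ρ φ) (ha : ρ < a) :
    ∫ x in cube (corner a) (2 * a), φ x = ∫ x, φ x := by
  refine setIntegral_eq_integral_of_forall_compl_eq_zero fun x hx => h x ?_
  by_contra hlt
  exact hx (mem_cube_corner ((not_lt.mp hlt).trans_lt ha))

theorem tint_per {ρ : ℝ} {φ : E3 → ℝ} (hc : Continuous φ) (h : Supp ρ φ) (hρ : ρ < 1 / 2) :
    tint (per φ) = ∫ x, φ x := by
  have hpc : Continuous (per φ) :=
    (continuous_per (T := Unit) (g := fun _ => φ) (hc.comp continuous_snd) (fun _ => h) hρ).comp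
      (Continuous.prodMk_right ())
  rw [← integral_cube_eq_tint (per_per φ) hpc (corner (1 / 2)), ← h.integral_cube hρ]
  have e : (2 : ℝ) * (1 / 2) = 1 := by norm_num
  rw [e]
  refine setIntegral_congr_fun (measurableSet_cube _ _) fun x hx => ?_
  by_cases h1 : ‖x‖ < 1 / 2
  · exact per_eq φ h1
  · have h2 : ρ < ‖x‖ := hρ.trans_le (not_lt.mp h1)
    have h3 : ‖red x‖ = ‖x‖ := by
      rw [EuclideanSpace.norm_eq, EuclideanSpace.norm_eq]
      congr 1
      refine Finset.sum_congr rfl fun i _ => ?_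
      have h4 : -(1 / 2) < x i := (hx i).1
      have h5 : x i ≤ -(1 / 2) + 1 := (hx i).2
      rw [red_apply]
      rcases eq_or_lt_of_le h5 with h6 | h6
      · have h7 : x i = 1 / 2 := by linarith
        rw [h7, one_div, round_two_inv]
        norm_num
      · have : round (x i) = 0 := by
          rw [round_eq_zero_iff]
          constructor <;> linarith
        simp [this]
    show φ (red x) = φ x
    rw [h x h2, h _ (h3 ▸ h2)]

theorem integral_deriv_eq_zero {ρ : ℝ} {φ φ' : E3 → ℝ} {z : E3} (h : Supp ρ φ) (h' : Supp ρ φ')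
    (hc : Continuous φ) (hc' : Continuous φ')
    (hd : ∀ x, HasDerivAt (fun t : ℝ => φ (x + t • z)) (φ' x) 0) : ∫ x, φ' x = 0 := by
  have := integral_bilinear_hasLineDerivAt_right_eq_neg_left_of_integrable (μ := volume)
    (f := φ) (f' := φ') (g := fun _ => (1 : ℝ)) (g' := fun _ => (0 : ℝ)) (v := z)
    (B := ContinuousLinearMap.mul ℝ ℝ) (by simpa using h'.integrable hc') (by simp)
    (by simpa using h.integrable hc) (fun x _ => hd x)
    (fun x _ => by simpa [HasLineDerivAt] using hasDerivAt_const (0 : ℝ) (1 : ℝ))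
  simpa using this

theorem integral_scale (φ : E3 → ℝ) {lam : ℝ} (hl : 0 < lam) :
    ∫ x, φ (lam • x) = (lam ^ dd)⁻¹ * ∫ x, φ x := by
  rw [Measure.integral_comp_smul, finrank_Ix, abs_of_pos (by positivity), smul_eq_mul]

theorem gronwall_le {e e' : ℝ → ℝ} {a b K H : ℝ} (hd : ∀ s, HasDerivAt e (e' s) s)
    (hb : ∀ s ∈ Icc a b, e' s ≤ K * e s + H) :
    ∀ s ∈ Icc a b, e s ≤ gronwallBound (e a) K H (s - a) :=
  le_gronwallBound_of_liminf_deriv_right_le (f' := e')
    (fun s _ => (hd s).continuousAt.continuousWithinAt)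
    (fun s _ r hr => by
      simpa [slope_def_field, div_eq_inv_mul] using
        (hd s).hasDerivWithinAt.liminf_right_slope_le hr)
    le_rfl fun s hs => hb s (Ico_subset_Icc_self hs)

theorem gronwallBound_le {δ K H t : ℝ} (hH : 0 ≤ H) (ht : 0 ≤ t) :
    gronwallBound δ K H t ≤ δ * Real.exp (K * t) + H * t * Real.exp (|K| * t) := by
  have h1 : 1 ≤ Real.exp (|K| * t) := Real.one_le_exp (by positivity)
  rcases eq_or_ne K 0 with rfl | hK
  · simp [gronwallBound_K0]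
  rw [gronwallBound_of_K_ne_0 hK]
  refine add_le_add le_rfl ?_
  rw [div_mul_eq_mul_div, mul_div_assoc, mul_assoc]
  refine mul_le_mul_of_nonneg_left ?_ hH
  rcases lt_or_gt_of_ne hK with hK | hK
  · rw [div_le_iff_of_neg hK]
    have h2 := Real.add_one_le_exp (K * t)
    have h3 : t * Real.exp (|K| * t) * K ≤ t * 1 * K :=
      mul_le_mul_of_nonpos_right (mul_le_mul_of_nonneg_left h1 ht) hK.le
    linarith
  · rw [div_le_iff₀ hK, abs_of_pos hK]
    have h2 := Real.add_one_le_exp (-(K * t))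
    have h3 : Real.exp (K * t) * Real.exp (-(K * t)) = 1 := by rw [← Real.exp_add]; simp
    have h4 := mul_le_mul_of_nonneg_left h2 (Real.exp_pos (K * t)).le
    nlinarith

theorem gronwall_le' {e e' : ℝ → ℝ} {a b K H : ℝ} (hd : ∀ s, HasDerivAt e (e' s) s) (hH : 0 ≤ H)
    (hb : ∀ s ∈ Icc a b, e' s ≤ K * e s + H) (s : ℝ) (hs : s ∈ Icc a b) :
    e s ≤ e a * Real.exp (K * (s - a)) + H * (s - a) * Real.exp (|K| * (s - a)) :=
  (gronwall_le hd hb s hs).trans (gronwallBound_le hH (sub_nonneg.mpr hs.1))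

end Pool.Agent.BoltzC

end MrgPart2

-- ======== part 3: formerly Pool.Agent.BoltzD.Lin.Cone
section MrgPart3

/-! Finite speed of propagation for symmetric first order systems. -/

set_option autoImplicit false
set_option linter.unusedSectionVars false

open Filter Topology MeasureTheory Set

namespace Pool.Agent.BoltzC

variable [Dim]

variable {F : Type*} [AddCommGroup F] [Module ℝ F] [TopologicalSpace F]
  [IsTopologicalAddGroup F] [ContinuousSMul ℝ F] [T2Space F]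

theorem hasDerivAt_normSq_line (x p : E3) (i : Ix) :
    HasDerivAt (fun t : ℝ => ‖x + t • ev i - p‖ ^ 2) (2 * (x - p) i) 0 := by
  have h1 : HasDerivAt (fun t : ℝ => x + t • ev i - p) (ev i) 0 := by
    simpa using (((hasDerivAt_id (0 : ℝ)).smul_const (ev i)).const_add x).sub_const p
  have h2 := h1.norm_sq
  simpa [ev, EuclideanSpace.inner_single_right] using h2

theorem exists_eta : ∃ η' : ℝ → ℝ, (∀ t, HasDerivAt expNegInvGlue (η' t) t) ∧
    Continuous η' ∧ (∀ t, 0 ≤ η' t) ∧ ∀ t, t < 0 → η' t = 0 := by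
  refine ⟨deriv expNegInvGlue, fun t =>
    ((expNegInvGlue.contDiff (n := 1)).differentiable one_ne_zero t).hasDerivAt,
    (expNegInvGlue.contDiff (n := 1)).continuous_deriv le_rfl,
    fun t => expNegInvGlue.monotone.deriv_nonneg, fun t ht => ?_⟩
  have : expNegInvGlue =ᶠ[𝓝 t] fun _ => 0 :=
    (gt_mem_nhds ht : ∀ᶠ y in 𝓝 t, y < 0).mono fun y hy => expNegInvGlue.zero_of_nonpos hy.le
  rw [this.deriv_eq, deriv_const]

theorem continuous_eta : Continuous expNegInvGlue := (expNegInvGlue.contDiff (n := 1)).continuous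

theorem cone_aux (η η' : ℝ → ℝ) (hηd : ∀ t, HasDerivAt η (η' t) t) (hηc : Continuous η)
    (hηc' : Continuous η') (hη1 : ∀ t, 0 ≤ η t) (hη0 : ∀ t, 0 ≤ η' t)
    (hηy : ∀ t, t < 0 → η t = 0) (hηz : ∀ t, t < 0 → η' t = 0)
    (B : F →ₗ[ℝ] F →ₗ[ℝ] ℝ) (hB : Continuous fun p : F × F => B p.1 p.2)
    (hsy : ∀ a b, B a b = B b a) (hp : ∀ a, 0 ≤ B a a) (M : Ix → F →L[ℝ] F)
    (hM : ∀ i a b, B (M i a) b = B a (M i b)) (κ : ℝ) (hκ : ∀ i a, |B (M i a) a| ≤ κ * B a a)
    {u : Ix → ℝ → E3 → ℝ} {c : ℝ → E3 → ℝ}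
    (hu : ∀ i, SmC (u i)) (hc : SmC c) (p : E3) {s0 s1 : ℝ} {r r' : ℝ → ℝ}
    (hr : ∀ s, HasDerivAt r (r' s) s) (hr' : Continuous r') (hr0 : ∀ s ∈ Icc s0 s1, 0 ≤ r s)
    (hsp : ∀ s ∈ Icc s0 s1, ∀ x, ‖x - p‖ ≤ r s → ∀ i, dd * (|u i s x| + κ * |c s x|) ≤ -r' s)
    (Kz : ℝ) : ∃ K : ℝ, ∀ W W' : ℝ → E3 → F, SmD W W' →
      (∀ s ∈ Icc s0 s1, ∀ x, ‖x - p‖ ≤ r s →
        B (W' s x + ∑ i, (u i s x • dX i (W s) x + c s x • M i (dX i (W s) x))) (W s x)
          ≤ Kz * B (W s x) (W s x)) →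
      ∀ s ∈ Icc s0 s1, ∫ x, η (r s ^ 2 - ‖x - p‖ ^ 2) * B (W s x) (W s x) ≤
        (∫ x, η (r s0 ^ 2 - ‖x - p‖ ^ 2) * B (W s0 x) (W s0 x)) * Real.exp (K * (s - s0)) := by
  have hrc : Continuous r := continuous_iff_continuousAt.2 fun s => (hr s).continuousAt
  -- the weight
  set a : ℝ → E3 → ℝ := fun s x => r s ^ 2 - ‖x - p‖ ^ 2 with ha
  have hac : Continuous fun z : ℝ × E3 => a z.1 z.2 := by
    simp only [ha]; fun_prop
  have haneg : ∀ s ∈ Icc s0 s1, ∀ x, ¬‖x - p‖ ≤ r s → a s x < 0 := by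
    intro s hs x hx
    have := hr0 s hs
    push Not at hx
    simp only [ha]
    nlinarith
  -- bounds on the compact set
  obtain ⟨R, hR⟩ := (isCompact_Icc (a := s0) (b := s1)).exists_bound_of_continuousOn
    hrc.continuousOn
  have hcomp := (isCompact_Icc (a := s0) (b := s1)).prod (isCompact_closedBall p R)
  have hDc : Continuous fun z : ℝ × E3 =>
      ∑ i, (|dX i (u i z.1) z.2| + κ * |dX i (c z.1) z.2|) :=
    continuous_finsetSum _ fun i _ =>
      ((hu i).dX i).cont.abs.add (continuous_const.mul (hc.dX i).cont.abs)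
  obtain ⟨Kd, hKd⟩ := hcomp.exists_bound_of_continuousOn hDc.continuousOn
  refine ⟨2 * Kz + Kd, fun W W' hW hz s hs01 => ?_⟩
  -- quadratic quantities
  have hq := SmD.bilin B hB hW hW
  set q : ℝ → E3 → ℝ := fun s x => B (W s x) (W s x) with hqd
  set m : Ix → ℝ → E3 → ℝ := fun i s x => B (M i (W s x)) (W s x) with hmd
  have hm : ∀ i, SmC (m i) := fun i => SmC.bilin B hB (hW.sm.clm (M i)) hW.sm
  set j : Ix → ℝ → E3 → ℝ := fun i s x => u i s x * q s x + c s x * m i s x with hjd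
  have hj : ∀ i, SmC (j i) := fun i => ((hu i).mul hq.sm).add (hc.mul (hm i))
  have hdj : ∀ i s x, dX i (j i s) x = (dX i (u i s) x * q s x + dX i (c s) x * m i s x)
      + 2 * B (u i s x • dX i (W s) x + c s x • M i (dX i (W s) x)) (W s x) := by
    intro i s x
    have e1 := congrFun (dX_add (((hu i).mul hq.sm).dif s) ((hc.mul (hm i)).dif s) i) x
    have e2 := congrFun (dX_mul ((hu i).dif s) (hq.sm.dif s) i) x
    have e3 := congrFun (dX_mul (hc.dif s) ((hm i).dif s) i) x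
    have e4 := congrFun (dX_bilin B hB (hW.sm.dif s) (hW.sm.dif s) i) x
    have e5 := congrFun (dX_bilin B hB ((hW.sm.clm (M i)).dif s) (hW.sm.dif s) i) x
    have e6 := congrFun (dX_clm (hW.sm.dif s) (M i) i) x
    rw [e6, hM i (W s x), hsy (W s x)] at e5
    rw [hsy (W s x)] at e4
    simp only [map_add, map_smul, LinearMap.add_apply, LinearMap.smul_apply, smul_eq_mul]
    simp only [hjd, hqd, hmd]
    rw [e1, e2, e3, e4, e5]
    ring
  set A := R + ‖p‖ + 1 with hA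
  have hsupp : ∀ s ∈ Icc s0 s1, ∀ {φ : E3 → ℝ}, (∀ x, a s x < 0 → φ x = 0) →
      Supp (R + ‖p‖) φ := by
    intro s hs φ hφ x hx
    refine hφ x (haneg s hs x fun h => ?_)
    have h1 := hR s hs
    have h2 := norm_sub_norm_le x p
    rw [Real.norm_eq_abs] at h1
    linarith [le_abs_self (r s)]
  set e : ℝ → ℝ := fun s => ∫ x in cube (corner A) (2 * A), η (a s x) * q s x with he
  set φ' : ℝ → E3 → ℝ := fun s x => η' (a s x) * (2 * r s * r' s) * q s x
    + η (a s x) * (B (W' s x) (W s x) + B (W s x) (W' s x)) with hφ'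
  have hφc : Continuous fun z : ℝ × E3 => η (a z.1 z.2) * q z.1 z.2 :=
    (hηc.comp hac).mul hq.sm.cont
  have hφ'c : Continuous fun z : ℝ × E3 => φ' z.1 z.2 :=
    (((hηc'.comp hac).mul (by fun_prop)).mul hq.sm.cont).add ((hηc.comp hac).mul hq.sm'.cont)
  have hed : ∀ s, HasDerivAt e (∫ x in cube (corner A) (2 * A), φ' s x) s := by
    refine hasDerivAt_integral_cube (fun s => hφc.comp (Continuous.prodMk_right s)) hφ'c
      (fun s x => ?_) _ _
    have h1 : HasDerivAt (fun σ => a σ x) (2 * r s * r' s) s := by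
      simpa [ha] using ((hr s).pow 2).sub_const (‖x - p‖ ^ 2)
    exact ((hηd _).comp s h1).mul (hq.hd s x).hasDerivAt
  have hbd : ∀ s ∈ Icc s0 s1,
      (∫ x in cube (corner A) (2 * A), φ' s x) ≤ (2 * Kz + Kd) * e s + 0 := by
    intro s hs
    have hsl : ∀ {ψ : ℝ × E3 → ℝ}, Continuous ψ → Continuous fun x => ψ (s, x) := fun h =>
      h.comp (Continuous.prodMk_right s)
    set J' : Ix → E3 → ℝ := fun i x =>
      η' (a s x) * (-(2 * (x - p) i)) * j i s x + η (a s x) * dX i (j i s) x with hJ'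
    have hJ'c : ∀ i, Continuous (J' i) := fun i =>
      (((hηc'.comp (hsl hac)).mul (by fun_prop)).mul ((hj i).cont_slice s)).add
        ((hηc.comp (hsl hac)).mul (((hj i).dX i).cont_slice s))
    have hJ's : ∀ i, Supp (R + ‖p‖) (J' i) := fun i => hsupp s hs fun x hx => by
      simp only [hJ', hηz _ hx, hηy _ hx, zero_mul, add_zero]
    have hJ0 : ∀ i, ∫ x, J' i x = 0 := fun i =>
      integral_deriv_eq_zero (φ := fun x => η (a s x) * j i s x) (z := ev i)
        (hsupp s hs fun x hx => by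
          simp only [hηy _ hx, zero_mul]) (hJ's i)
        ((hηc.comp (hsl hac)).mul ((hj i).cont_slice s)) (hJ'c i) fun x => by
          have h1 : HasDerivAt (fun t : ℝ => a s (x + t • ev i)) (-(2 * (x - p) i)) 0 :=
            (hasDerivAt_normSq_line x p i).const_sub _
          have h2 := ((hηd _).comp (0 : ℝ) h1).mul ((hj i).dif s i x).hasDerivAt
          simp only [zero_smul, add_zero, Function.comp_apply] at h2
          exact h2
    have hφ's : Supp (R + ‖p‖) (φ' s) := hsupp s hs fun x hx => by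
      simp only [hφ', hηz _ hx, hηy _ hx, zero_mul, add_zero]
    have hφs : Supp (R + ‖p‖) fun x => η (a s x) * q s x := hsupp s hs fun x hx => by
      simp only [hηy _ hx, zero_mul]
    have hlt : R + ‖p‖ < A := by rw [hA]; linarith
    simp only [he]
    rw [hφ's.integral_cube hlt, hφs.integral_cube hlt, add_zero, ← integral_const_mul]
    have hI1 := hφ's.integrable (hsl hφ'c)
    have hI2 : ∀ i, Integrable (J' i) := fun i => (hJ's i).integrable (hJ'c i)
    have e1 : ∫ x, φ' s x = ∫ x, (φ' s x + ∑ i, J' i x) := by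
      rw [integral_add hI1 (integrable_finsetSum _ fun i _ => hI2 i),
        integral_finsetSum _ fun i _ => hI2 i]
      simp [hJ0]
    rw [e1]
    refine integral_mono (hI1.add (integrable_finsetSum _ fun i _ => hI2 i))
      ((hφs.integrable (hsl hφc)).const_mul _) fun x => ?_
    by_cases hx : ‖x - p‖ ≤ r s
    swap
    · have h1 := haneg s hs x hx
      simp only [hφ', hJ', hηz _ h1, hηy _ h1, zero_mul, add_zero,
        Finset.sum_const_zero, mul_zero, le_refl]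
    have hq0 : 0 ≤ q s x := hp _
    have hη1 : 0 ≤ η (a s x) := hη1 _
    have hη2 := hη0 (a s x)
    have hrs := hr0 s hs
    have h1 : ∀ i, -(2 * (x - p) i) * j i s x ≤ 2 * r s * (-r' s / dd) * q s x := by
      intro i
      have h2 : |(x - p) i| ≤ r s := le_trans (by simpa using PiLp.norm_apply_le (x - p) i) hx
      have h3 : |j i s x| ≤ (-r' s / dd) * q s x := by
        have h4 := abs_add_le (u i s x * q s x) (c s x * m i s x)
        rw [abs_mul, abs_mul, abs_of_nonneg hq0] at h4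
        have h5 : |c s x| * |m i s x| ≤ |c s x| * (κ * q s x) :=
          mul_le_mul_of_nonneg_left (hκ i _) (abs_nonneg _)
        have h6 := mul_le_mul_of_nonneg_right ((le_div_iff₀' dr_pos).2 (hsp s hs x hx i)) hq0
        simp only [hjd]
        linarith
      calc -(2 * (x - p) i) * j i s x ≤ |-(2 * (x - p) i) * j i s x| := le_abs_self _
        _ = 2 * (|(x - p) i| * |j i s x|) := by rw [abs_mul, abs_neg, abs_mul, abs_two]; ring
        _ ≤ 2 * (r s * ((-r' s / dd) * q s x)) := by gcongr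
        _ = _ := by ring
    have h2 : ∑ i, (dX i (u i s) x * q s x + dX i (c s) x * m i s x) ≤ Kd * q s x := by
      have h3 := hKd (s, x) ⟨hs, by
        have h1 := hR s hs
        rw [Real.norm_eq_abs] at h1
        rw [mem_closedBall_iff_norm]
        linarith [le_abs_self (r s)]⟩
      rw [Real.norm_eq_abs] at h3
      refine le_trans ?_ (mul_le_mul_of_nonneg_right ((le_abs_self _).trans h3) hq0)
      rw [Finset.sum_mul]
      refine Finset.sum_le_sum fun i _ => ?_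
      have h4 : dX i (u i s) x * q s x ≤ |dX i (u i s) x| * q s x :=
        mul_le_mul_of_nonneg_right (le_abs_self _) hq0
      have h5 : dX i (c s) x * m i s x ≤ |dX i (c s) x| * (κ * q s x) :=
        (le_abs_self _).trans (by
          rw [abs_mul]; exact mul_le_mul_of_nonneg_left (hκ i _) (abs_nonneg _))
      simp only
      nlinarith
    have h3 := hz s hs x hx
    rw [map_add, LinearMap.add_apply, map_sum, LinearMap.sum_apply] at h3
    have h4 : ∑ i, -(2 * (x - p) i) * j i s x ≤ 2 * r s * (-r' s) * q s x := by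
      refine (sum_le_Ix h1).trans (le_of_eq ?_)
      have := dr_ne
      field_simp
    have h5 : ∑ i, J' i x = η' (a s x) * ∑ i, -(2 * (x - p) i) * j i s x + η (a s x) *
        (∑ i, (dX i (u i s) x * q s x + dX i (c s) x * m i s x) +
          2 * ∑ i, B (u i s x • dX i (W s) x + c s x • M i (dX i (W s) x)) (W s x)) := by
      simp only [hJ', hdj, Finset.mul_sum, ← Finset.sum_add_distrib, mul_assoc]
    have h6 := mul_le_mul_of_nonneg_left h4 hη2
    have h7 := mul_le_mul_of_nonneg_left h2 hη1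
    have h8 := mul_le_mul_of_nonneg_left h3 hη1
    simp only [hφ', h5]
    rw [hsy (W s x) (W' s x)]
    simp only [hqd] at *
    nlinarith
  have hle := gronwall_le' hed le_rfl hbd s hs01
  have hφs : ∀ s ∈ Icc s0 s1, Supp (R + ‖p‖) fun x => η (a s x) * q s x := fun s hs =>
    hsupp s hs fun x hx => by simp only [hηy _ hx, zero_mul]
  have hlt : R + ‖p‖ < A := by rw [hA]; linarith
  simp only [he, zero_mul, add_zero] at hle
  rwa [(hφs s hs01).integral_cube hlt,
    (hφs s0 ⟨le_rfl, hs01.1.trans hs01.2⟩).integral_cube hlt] at hle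

theorem cone_est (B : F →ₗ[ℝ] F →ₗ[ℝ] ℝ) (hB : Continuous fun p : F × F => B p.1 p.2)
    (hsy : ∀ a b, B a b = B b a) (hp : ∀ a, 0 ≤ B a a) (M : Ix → F →L[ℝ] F)
    (hM : ∀ i a b, B (M i a) b = B a (M i b)) (κ : ℝ) (hκ : ∀ i a, |B (M i a) a| ≤ κ * B a a)
    {u : Ix → ℝ → E3 → ℝ} {c : ℝ → E3 → ℝ}
    (hu : ∀ i, SmC (u i)) (hc : SmC c) (p : E3) {s0 s1 : ℝ} {r r' : ℝ → ℝ}
    (hr : ∀ s, HasDerivAt r (r' s) s) (hr' : Continuous r') (hr0 : ∀ s ∈ Icc s0 s1, 0 ≤ r s)
    (hsp : ∀ s ∈ Icc s0 s1, ∀ x, ‖x - p‖ ≤ r s → ∀ i, dd * (|u i s x| + κ * |c s x|) ≤ -r' s)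
    (Kz : ℝ) : ∃ K : ℝ, ∀ W W' : ℝ → E3 → F, SmD W W' →
      (∀ s ∈ Icc s0 s1, ∀ x, ‖x - p‖ ≤ r s →
        B (W' s x + ∑ i, (u i s x • dX i (W s) x + c s x • M i (dX i (W s) x))) (W s x)
          ≤ Kz * B (W s x) (W s x)) →
      ∀ s ∈ Icc s0 s1, ∫ x, expNegInvGlue (r s ^ 2 - ‖x - p‖ ^ 2) * B (W s x) (W s x) ≤
        (∫ x, expNegInvGlue (r s0 ^ 2 - ‖x - p‖ ^ 2) * B (W s0 x) (W s0 x))
          * Real.exp (K * (s - s0)) := by
  obtain ⟨η', h1, h2, h3, h4⟩ := exists_eta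
  exact cone_aux _ η' h1 continuous_eta h2 expNegInvGlue.nonneg h3
    (fun t ht => expNegInvGlue.zero_of_nonpos ht.le) h4 B hB hsy hp M hM κ hκ hu hc p hr hr' hr0
    hsp Kz

theorem supp_eta (p : E3) {r : ℝ} (hr : 0 ≤ r) (q : E3 → ℝ) :
    Supp (r + ‖p‖) fun x => expNegInvGlue (r ^ 2 - ‖x - p‖ ^ 2) * q x := by
  intro x hx
  have h2 := norm_sub_norm_le x p
  have h3 : r ^ 2 - ‖x - p‖ ^ 2 ≤ 0 := by nlinarith
  simp only [expNegInvGlue.zero_of_nonpos h3, zero_mul]

theorem eq_zero_of_eta {p : E3} {r : ℝ} (hr : 0 < r) {q : E3 → ℝ} (hq : Continuous q)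
    (h0 : ∀ x, 0 ≤ q x) (h : ∫ x, expNegInvGlue (r ^ 2 - ‖x - p‖ ^ 2) * q x ≤ 0) : q p = 0 := by
  by_contra hne
  have hpos : 0 < expNegInvGlue (r ^ 2 - ‖p - p‖ ^ 2) :=
    expNegInvGlue.pos_of_pos (by simp; positivity)
  have hc : Continuous fun x => expNegInvGlue (r ^ 2 - ‖x - p‖ ^ 2) * q x :=
    (continuous_eta.comp (by fun_prop)).mul hq
  have := hc.integral_pos_of_hasCompactSupport_nonneg_nonzero (μ := volume) (x := p)
    (supp_eta p hr.le q).hasCompactSupport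
    (fun x => mul_nonneg (expNegInvGlue.nonneg _) (h0 _)) (mul_ne_zero hpos.ne' hne)
  exact absurd h (not_le.mpr this)

end Pool.Agent.BoltzC

end MrgPart3

-- ======== part 4: formerly Pool.Agent.BoltzD.Lin.Fld
section MrgPart4

/-! The hydrodynamic system: solutions, scaling, finite speed of propagation. -/

set_option autoImplicit false

open Filter Topology MeasureTheory Set Pool.Agent.BoltzC
open scoped ContDiff

noncomputable section

namespace Pool.Agent.BoltzD.Lin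

variable [Dim]

theorem hasDerivAt_line_fderiv {φ : E3 → ℝ} (h : Differentiable ℝ φ) (i : Ix) (x : E3) :
    HasDerivAt (fun t : ℝ => φ (x + t • ev i)) (fderiv ℝ φ x (ev i)) 0 :=
  (h x).hasFDerivAt.hasLineDerivAt (ev i)

theorem sm_of_contDiff {φ : E3 → ℝ} (h : ContDiff ℝ ∞ φ) : Sm φ := by
  refine smC_coind (fun k : Unit → E3 → ℝ => ∃ ψ : E3 → ℝ, ContDiff ℝ ∞ ψ ∧ k = fun _ => ψ) ?_
    ⟨φ, h, rfl⟩
  rintro k ⟨ψ, hψ, rfl⟩
  refine ⟨hψ.continuous.comp continuous_snd, fun i => ⟨fun _ x => fderiv ℝ ψ x (ev i),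
    ⟨_, (hψ.fderiv_right (m := ∞) le_rfl).clm_apply contDiff_const, rfl⟩, fun _ x => ?_⟩⟩
  exact (hasDerivAt_line_fderiv (hψ.differentiable (by simp)) i x).hd

theorem exists_cut {a b : ℝ} (ha : 0 < a) (hab : a < b) :
    ∃ χ : E3 → ℝ, Sm χ ∧ (∀ x, ‖x‖ ≤ a → χ x = 1) ∧ Supp b χ ∧ ∀ x, 0 ≤ χ x ∧ χ x ≤ 1 := by
  let f : ContDiffBump (0 : E3) := ⟨a, b, ha, hab⟩
  refine ⟨f, sm_of_contDiff f.contDiff, fun x hx => f.one_of_mem_closedBall (by simpa using hx),
    fun x hx => f.zero_of_le_dist (by simpa using hx.le), fun x => ⟨f.nonneg, f.le_one⟩⟩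

/-- The field in the variables `(s, x)` attached to an autonomous field in `y = e^s x`. -/
def sc (F : Fld) (s : ℝ) : Fld where
  u i x := Real.exp (-s) * F.u i (Real.exp s • x)
  c x := Real.exp (-s) * F.c (Real.exp s • x)
  b0 j x := F.b0 j (Real.exp s • x)
  b1 i j x := F.b1 i j (Real.exp s • x)
  b2 i x := F.b2 i (Real.exp s • x)

theorem sc_tr_scale (F : Fld) (s θ : ℝ) {G : E3 → SV} (hG : Dif G) (x : E3) :
    (sc F (s + θ)).tr (fun y => G (Real.exp θ • y)) x = (sc F s).tr G (Real.exp θ • x) := by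
  have e1 : Real.exp (s + θ) • x = Real.exp s • Real.exp θ • x := by
    rw [smul_smul, Real.exp_add]
  have e2 : ∀ a : ℝ, Real.exp (-(s + θ)) * a * Real.exp θ = Real.exp (-s) * a := fun a => by
    rw [mul_right_comm, ← Real.exp_add]; congr 2; ring
  simp only [Fld.tr, Fld.vel, sc, dX_scale hG, e1, map_smul, smul_smul, e2]

/-- Two fields have the same coefficients at `x`. -/
structure Agree (F F' : Fld) (x x' : E3) : Prop where
  u : ∀ i, F.u i x = F'.u i x'
  c : F.c x = F'.c x'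
  b0 : ∀ j, F.b0 j x = F'.b0 j x'
  b1 : ∀ i j, F.b1 i j x = F'.b1 i j x'
  b2 : ∀ i, F.b2 i x = F'.b2 i x'

theorem Agree.tr {F F' : Fld} {x x' : E3} (h : Agree F F' x x') {G G' : E3 → SV}
    (h0 : G x = G' x') (h1 : ∀ i, dX i G x = dX i G' x') : F.tr G x = F'.tr G' x' := by
  simp only [Fld.tr, Fld.vel, h.u, h.c, h.b0, h.b1, h.b2, h0, h1]

theorem Agree.rfl' (F : Fld) (x : E3) : Agree F F x x :=
  ⟨fun _ => rfl, rfl, fun _ => rfl, fun _ _ => rfl, fun _ => rfl⟩

theorem Agree.trans {F F' F'' : Fld} {x x' x'' : E3} (h : Agree F F' x x')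
    (h' : Agree F' F'' x' x'') : Agree F F'' x x'' :=
  ⟨fun i => (h.u i).trans (h'.u i), h.c.trans h'.c, fun j => (h.b0 j).trans (h'.b0 j),
    fun i j => (h.b1 i j).trans (h'.b1 i j), fun i => (h.b2 i).trans (h'.b2 i)⟩

theorem agree_red {F : Fld} (h : F.Reg) (x : E3) : Agree F F x (red x) :=
  ⟨fun i => ((h.u i).2.red x).symm, (h.c.2.red x).symm, fun j => ((h.b0 j).2.red x).symm,
    fun i j => ((h.b1 i j).2.red x).symm, fun i => ((h.b2 i).2.red x).symm⟩

theorem tr_congr_ev (F : Fld) {G H : E3 → SV} {x : E3} (h : G =ᶠ[𝓝 x] H) : F.tr G x = F.tr H x :=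
  (Agree.rfl' F x).tr h.eq_of_nhds fun i => dX_congr_ev h i

theorem tr_zero_ev (F : Fld) {G : E3 → SV} {x : E3} (h : G =ᶠ[𝓝 x] fun _ => 0) :
    F.tr G x = 0 := by
  rw [tr_congr_ev F h]
  simp [Fld.tr, Fld.vel, dX_const]

theorem tr_add (F : Fld) {G H : E3 → SV} (hG : Dif G) (hH : Dif H) (x : E3) :
    F.tr (fun y => G y + H y) x = F.tr G x + F.tr H x := by
  simp only [Fld.tr, Fld.vel, dX_add hG hH, map_add, smul_add, Finset.sum_add_distrib]
  abel

theorem tr_smul (F : Fld) {G : E3 → SV} (hG : Dif G) (a : ℝ) (x : E3) :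
    F.tr (fun y => a • G y) x = a • F.tr G x := by
  simp only [Fld.tr, Fld.vel, dX_const_smul hG, map_smul, smul_add, smul_neg, Finset.smul_sum,
    smul_comm a]

/-- Solutions of the hydrodynamic system for `s ≥ s0`. -/
structure Sol (F : ℝ → Fld) (s0 : ℝ) (W W' G : ℝ → E3 → SV) : Prop where
  sm : SmD W W'
  hyd : ∀ s x, PP (W s x) = W s x
  eqn : ∀ s, s0 ≤ s → ∀ x, W' s x + PP ((F s).tr (W s) x) = G s x

theorem Sol.add {F : ℝ → Fld} {s0 : ℝ} {W W' G V V' H : ℝ → E3 → SV} (h : Sol F s0 W W' G)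
    (k : Sol F s0 V V' H) : Sol F s0 (fun s x => W s x + V s x) (fun s x => W' s x + V' s x)
      fun s x => G s x + H s x :=
  ⟨h.sm.add k.sm, fun s x => by rw [map_add, h.hyd, k.hyd], fun s hs x => by
    rw [tr_add _ (h.sm.sm.dif s) (k.sm.sm.dif s), map_add, ← h.eqn s hs, ← k.eqn s hs]; abel⟩

theorem Sol.smul {F : ℝ → Fld} {s0 : ℝ} {W W' G : ℝ → E3 → SV} (h : Sol F s0 W W' G) (a : ℝ) :
    Sol F s0 (fun s x => a • W s x) (fun s x => a • W' s x) fun s x => a • G s x :=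
  ⟨h.sm.const_smul a, fun s x => by rw [map_smul, h.hyd], fun s hs x => by
    rw [tr_smul _ (h.sm.sm.dif s), map_smul, ← h.eqn s hs, smul_add]⟩

theorem Sol.congr {F : ℝ → Fld} {s0 s1 : ℝ} {W W' G H : ℝ → E3 → SV} (h : Sol F s0 W W' G)
    (h01 : s0 ≤ s1) (e : ∀ s, s1 ≤ s → ∀ x, G s x = H s x) : Sol F s1 W W' H :=
  ⟨h.sm, h.hyd, fun s hs x => (h.eqn s (h01.trans hs) x).trans (e s hs x)⟩

theorem Sol.scale {F : Fld} {s0 : ℝ} {W W' G : ℝ → E3 → SV} (h : Sol (sc F) s0 W W' G) (θ : ℝ) :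
    Sol (sc F) (s0 - θ) (fun s x => W (s + θ) (Real.exp (-θ) • x))
      (fun s x => W' (s + θ) (Real.exp (-θ) • x)) fun s x => G (s + θ) (Real.exp (-θ) • x) := by
  refine ⟨h.sm.shift_scale θ _, fun s x => h.hyd _ _, fun s hs x => ?_⟩
  have := sc_tr_scale F (s + θ) (-θ) (h.sm.sm.dif (s + θ)) x
  rw [add_neg_cancel_right] at this
  rw [this]
  exact h.eqn (s + θ) (by linarith) _

/-- Regularity and size of the coefficients needed for finite speed of propagation. -/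
structure Tame (F : ℝ → Fld) (K s1 : ℝ) : Prop where
  smu : ∀ i, SmC fun s => (F s).u i
  smc : SmC fun s => (F s).c
  bu : ∀ s, s1 ≤ s → ∀ i x, |(F s).u i x| ≤ K * Real.exp (-s)
  bc : ∀ s, s1 ≤ s → ∀ x, |(F s).c x| ≤ K * Real.exp (-s)
  b0 : ∀ s, s1 ≤ s → ∀ j x, |(F s).b0 j x| ≤ K
  b1 : ∀ s, s1 ≤ s → ∀ i j x, |(F s).b1 i j x| ≤ K
  b2 : ∀ s, s1 ≤ s → ∀ i x, |(F s).b2 i x| ≤ K

theorem exists_hyd_bound (A : SV →L[ℝ] SV) :
    ∃ C : ℝ, 0 ≤ C ∧ ∀ f, PP f = f → |ip (A f) f| ≤ C * ip f f := by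
  obtain ⟨C, hC, h⟩ := nA_clm_PP_le A 0
  refine ⟨√C, Real.sqrt_nonneg _, fun f hf => ?_⟩
  have h1 := h f
  rw [hf, nA_zero] at h1
  have h2 := Real.sqrt_le_sqrt h1
  rw [Real.sqrt_mul hC] at h2
  calc |ip (A f) f| ≤ √(ip (A f) (A f)) * √(ip f f) := abs_ip_le _ _
    _ ≤ √C * √(ip f f) * √(ip f f) := by gcongr
    _ = _ := by rw [mul_assoc, Real.mul_self_sqrt (ip_self_nonneg f)]

theorem exists_vel_bound : ∃ C : ℝ, 0 ≤ C ∧ ∀ (F : Fld) (x : E3) (K : ℝ) (f : SV), PP f = f →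
    (∀ j, |F.b0 j x| ≤ K) → (∀ i j, |F.b1 i j x| ≤ K) → (∀ i, |F.b2 i x| ≤ K) →
    -ip (F.vel x f) f ≤ C * K * ip f f := by
  choose C0 h0 H0 using fun j => exists_hyd_bound (ap j)
  choose C1 h1 H1 using fun i j => exists_hyd_bound ((mulV i).comp (ap j))
  choose C2 h2 H2 using fun i j => exists_hyd_bound ((mulV i).comp ((mulV j).comp (ap j)))
  refine ⟨∑ j, C0 j + ∑ i, ∑ j, C1 i j + ∑ i, ∑ j, C2 i j,
    add_nonneg (add_nonneg (Finset.sum_nonneg fun j _ => h0 j)
      (Finset.sum_nonneg fun i _ => Finset.sum_nonneg fun j _ => h1 i j))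
      (Finset.sum_nonneg fun i _ => Finset.sum_nonneg fun j _ => h2 i j),
    fun F x K f hf k0 k1 k2 => ?_⟩
  have key : ∀ b t C : ℝ, |b| ≤ K → |t| ≤ C * ip f f → b * t ≤ C * K * ip f f := by
    intro b t C hb ht
    calc b * t ≤ |b| * |t| := by rw [← abs_mul]; exact le_abs_self _
      _ ≤ K * (C * ip f f) := mul_le_mul hb ht (abs_nonneg _) ((abs_nonneg _).trans hb)
      _ = _ := by ring
  simp only [Fld.vel, map_neg, LinearMap.neg_apply, neg_neg, map_add, LinearMap.add_apply,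
    map_sum, LinearMap.sum_apply, map_smul, LinearMap.smul_apply, smul_eq_mul, add_mul,
    Finset.sum_mul]
  refine add_le_add (add_le_add (Finset.sum_le_sum fun j _ => key _ _ _ (k0 j) (H0 j f hf))
    (Finset.sum_le_sum fun i _ => Finset.sum_le_sum fun j _ => key _ _ _ (k1 i j) (H1 i j f hf)))
    (Finset.sum_le_sum fun i _ => Finset.sum_le_sum fun j _ => key _ _ _ (k2 i) (H2 i j f hf))

theorem hyd_dX {W : E3 → SV} (hW : Dif W) (h : ∀ x, PP (W x) = W x) (i : Ix) (x : E3) :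
    PP (dX i W x) = dX i W x := by
  have := congrFun (dX_clm hW PP i) x
  simp only [h] at this
  exact this.symm

/-- Local energy estimate on a backward cone. -/
theorem cone_sol (K : ℝ) (hK : 0 ≤ K) : ∃ Λ : ℝ, 0 ≤ Λ ∧ ∀ (F : ℝ → Fld) (s0 s2 : ℝ) (p : E3)
    (r1 : ℝ), Tame F K s0 → 0 ≤ r1 → ∃ Kc : ℝ, ∀ W W' G : ℝ → E3 → SV, Sol F s0 W W' G →
      (∀ s ∈ Icc s0 s2, ∀ x, ‖x - p‖ ≤ r1 + Λ * Real.exp (-s) → G s x = 0) →
      ∀ s ∈ Icc s0 s2,
        ∫ x, expNegInvGlue ((r1 + Λ * Real.exp (-s)) ^ 2 - ‖x - p‖ ^ 2) * ip (W s x) (W s x) ≤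
          (∫ x, expNegInvGlue ((r1 + Λ * Real.exp (-s0)) ^ 2 - ‖x - p‖ ^ 2)
            * ip (W s0 x) (W s0 x)) * Real.exp (Kc * (s - s0)) := by
  choose C0 h0 H0 using fun i => exists_hyd_bound (mulV i)
  obtain ⟨Cv, hCv, Hv⟩ := exists_vel_bound
  set κ := ∑ i, C0 i with hκ
  have hκ0 : 0 ≤ κ := Finset.sum_nonneg fun i _ => h0 i
  refine ⟨dd * (K + κ * K), by positivity, fun F s0 s2 p r1 hF hr1 => ?_⟩
  let M : Ix → SV →L[ℝ] SV := fun i => PP.comp ((mulV i).comp PP)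
  have hM : ∀ i a b, ip (M i a) b = ip a (M i b) := fun i a b => by
    simp only [M, ContinuousLinearMap.comp_apply]
    rw [ip_PP, ip_mulV, ip_PP]
  have hMκ : ∀ i a, |ip (M i a) a| ≤ κ * ip a a := fun i a => by
    simp only [M, ContinuousLinearMap.comp_apply]
    rw [ip_PP]
    refine (H0 i _ (PP_PP a)).trans ?_
    exact mul_le_mul (Finset.single_le_sum (fun i _ => h0 i) (Finset.mem_univ i)) (ip_PP_PP_le a)
      (ip_self_nonneg _) hκ0
  obtain ⟨Kc, hKc⟩ := cone_est ip continuous_ip ip_comm ip_self_nonneg M hM κ hMκ hF.smu hF.smc p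
    (s0 := s0) (s1 := s2) (r := fun s => r1 + dd * (K + κ * K) * Real.exp (-s))
    (r' := fun s => -(dd * (K + κ * K) * Real.exp (-s)))
    (fun s => by
      have := ((hasDerivAt_neg s).exp.const_mul (dd * (K + κ * K))).const_add r1
      simpa using this)
    (by fun_prop) (fun s _ => by positivity)
    (fun s hs x _ i => by
      have h1 := hF.bu s hs.1 i x
      have h2 := mul_le_mul_of_nonneg_left (hF.bc s hs.1 x) hκ0
      rw [neg_neg, mul_assoc]
      exact mul_le_mul_of_nonneg_left (by linarith) dr_pos.le) (Cv * K)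
  refine ⟨Kc, fun W W' G hW hG => hKc W W' hW.sm fun s hs x hx => ?_⟩
  have h1 := hW.eqn s hs.1 x
  rw [hG s hs x hx] at h1
  have h2 : W' s x + ∑ i, ((F s).u i x • dX i (W s) x + (F s).c x • M i (dX i (W s) x))
      = -PP ((F s).vel x (W s x)) := by
    rw [eq_neg_iff_add_eq_zero, ← h1, add_assoc]
    simp only [Fld.tr, map_add, map_sum, map_smul, M, ContinuousLinearMap.comp_apply,
      hyd_dX (hW.sm.sm.dif s) (hW.hyd s)]
  rw [h2, map_neg, LinearMap.neg_apply, ip_PP, hW.hyd]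
  exact Hv _ _ _ _ (hW.hyd s x) (fun j => hF.b0 s hs.1 j x) (fun i j => hF.b1 s hs.1 i j x)
    fun i => hF.b2 s hs.1 i x

/-- Finite speed of propagation. -/
theorem cone_zero (K : ℝ) (hK : 0 ≤ K) : ∃ Λ : ℝ, 0 ≤ Λ ∧ ∀ (F : ℝ → Fld) (s0 : ℝ) (p : E3)
    (r1 : ℝ), Tame F K s0 → 0 < r1 → ∀ W W' G : ℝ → E3 → SV, Sol F s0 W W' G →
      (∀ s, s0 ≤ s → ∀ x, ‖x - p‖ ≤ r1 + Λ * Real.exp (-s0) → G s x = 0) →
      (∀ x, ‖x - p‖ ≤ r1 + Λ * Real.exp (-s0) → W s0 x = 0) → ∀ s, s0 ≤ s → W s p = 0 := by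
  obtain ⟨Λ, hΛ, h⟩ := cone_sol K hK
  refine ⟨Λ, hΛ, fun F s0 p r1 hF hr1 W W' G hW hG h0 s hs => ?_⟩
  obtain ⟨Kc, hKc⟩ := h F s0 s p r1 hF hr1.le
  have h1 := hKc W W' G hW (fun t ht x hx => hG t ht.1 x (hx.trans (by gcongr; exact ht.1))) s
    ⟨hs, le_rfl⟩
  have h2 : ∫ x, expNegInvGlue ((r1 + Λ * Real.exp (-s0)) ^ 2 - ‖x - p‖ ^ 2)
      * ip (W s0 x) (W s0 x) = 0 := by
    refine integral_eq_zero_of_ae (Eventually.of_forall fun x => ?_)
    by_cases hx : ‖x - p‖ ≤ r1 + Λ * Real.exp (-s0)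
    · simp [h0 x hx]
    · have h3 : 0 ≤ r1 + Λ * Real.exp (-s0) := by positivity
      have h4 : (r1 + Λ * Real.exp (-s0)) ^ 2 - ‖x - p‖ ^ 2 ≤ 0 := by nlinarith [not_le.mp hx]
      simp [expNegInvGlue.zero_of_nonpos h4]
  rw [h2, zero_mul] at h1
  exact ip_self_eq_zero (eq_zero_of_eta (q := fun x => ip (W s x) (W s x)) (by positivity)
    ((SmC.bilin ip continuous_ip hW.sm.sm hW.sm.sm).cont_slice s) (fun x => ip_self_nonneg _) h1)

end Pool.Agent.BoltzD.Lin

end
end MrgPart4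

-- ======== part 5: formerly Pool.Agent.BoltzD.Alg.Need
section MrgPart5

/-! The algebraic facts about the energy densities used in the Picard iteration. -/

set_option autoImplicit false

open Pool.Agent.BoltzC Finset

noncomputable section

namespace Pool.Agent.BoltzD

variable [Dim]

namespace Alg

open KK

variable (Q : CollOp)

lemma L_nonneg (f : SV) : 0 ≤ ip (Q.L f) f := by
  obtain ⟨lam, h0, h⟩ := Q.gap
  exact (mul_nonneg h0.le (ip_self_nonneg _)).trans (h f)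

lemma ip_le_dq (f : SV) : ip f f ≤ Q.dq f := le_add_of_nonneg_left (L_nonneg Q f)

lemma dq_nonneg (f : SV) : 0 ≤ Q.dq f := (ip_self_nonneg f).trans (ip_le_dq Q f)

lemma dq_add_le (f g : SV) : Q.dq (f + g) ≤ 2 * Q.dq f + 2 * Q.dq g := by
  have h := dq_nonneg Q (f - g)
  simp only [CollOp.dq, map_add, map_sub, LinearMap.add_apply, LinearMap.sub_apply] at h ⊢
  linarith

lemma dq_smul (a : ℝ) (f : SV) : Q.dq (a • f) = a ^ 2 * Q.dq f := by
  simp only [CollOp.dq, map_smul, LinearMap.smul_apply, smul_eq_mul]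
  ring

lemma continuous_dq : Continuous Q.dq :=
  (continuous_ip.comp (Q.L.continuous.prodMk continuous_id)).add
    (continuous_ip.comp (continuous_id.prodMk continuous_id))

lemma dq_le_two (f : SV) : Q.dq f ≤ nA 0 (Q.L f) + 2 * nA 0 f := by
  have h := ip_self_nonneg (Q.L f - f)
  simp only [map_sub, LinearMap.sub_apply, ip_comm f (Q.L f)] at h
  rw [CollOp.dq, nA_zero, nA_zero]
  linarith [ip_self_nonneg (Q.L f), ip_self_nonneg f]

lemma dq_le_nA : ∃ (d : ℕ) (C : ℝ), 0 < C ∧ ∀ f, Q.dq f ≤ C * nA d f := by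
  obtain ⟨d, C, hC, h⟩ := Q.bdd 0
  have h0 := nA_nonneg d sqMS
  refine ⟨d, C * nA d sqMS + 2, by positivity, fun f => (dq_le_two Q f).trans ?_⟩
  rw [Q.L_eq, nA_neg]
  linarith [h sqMS f, nA_mono (Nat.zero_le d) f]

lemma sum_dq_PP_le (m : ℕ) : ∃ C : ℝ, 0 ≤ C ∧ ∀ f,
    ∑ w ∈ words m, Q.dq (apW w (PP f)) ≤ C * nA m f := by
  choose C1 h1 H1 using fun w => nA_clm_PP_le (Q.L.comp (apW w)) 0
  choose C2 h2 H2 using fun w => nA_clm_PP_le (apW w) 0
  refine ⟨∑ w ∈ words m, (C1 w + 2 * C2 w), sum_nonneg fun w _ => by linarith [h1 w, h2 w],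
    fun f => ?_⟩
  rw [sum_mul]
  refine sum_le_sum fun w _ => (dq_le_two Q _).trans ?_
  have h3 : ip (PP f) (PP f) ≤ nA m f := by
    linarith [ip_PP_PP_le f, nA_mono (Nat.zero_le m) f, nA_zero f]
  have h4 := H1 w f
  have h5 := H2 w f
  rw [ContinuousLinearMap.comp_apply] at h4
  nlinarith [h1 w, h2 w]

lemma wt_nonneg {θ : ℝ} (hθ : 0 ≤ θ) (σ : ℝ) (a j : ℕ) : 0 ≤ θ ^ a * σ ^ (2 * j) := by
  rw [pow_mul']; positivity

lemma lev_mono' {n : ℕ} {θ σ : ℝ} (hθ : 0 ≤ θ) {φ ψ : List Ix → ℕ → ℝ}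
    (h : ∀ u m, m ≤ n → φ u m ≤ ψ u m) : lev n θ σ φ ≤ lev n θ σ ψ :=
  sum_le_sum fun j _ => sum_le_sum fun m hm => mul_le_mul_of_nonneg_left
    (sum_le_sum fun u _ => h u m (by have := mem_range.1 hm; omega)) (wt_nonneg hθ _ _ _)

lemma lev_const_mul (n : ℕ) (θ σ c : ℝ) (φ : List Ix → ℕ → ℝ) :
    lev n θ σ (fun u m => c * φ u m) = c * lev n θ σ φ := by
  simp only [lev, mul_sum, mul_left_comm]

lemma lev_add (n : ℕ) (θ σ : ℝ) (φ ψ : List Ix → ℕ → ℝ) :
    lev n θ σ (fun u m => φ u m + ψ u m) = lev n θ σ φ + lev n θ σ ψ := by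
  simp only [lev, mul_add, sum_add_distrib]

variable {n : ℕ} {θ : ℝ} {σ : E3 → ℝ} {G H : E3 → SV}

lemma bb_self (x : E3) : bb n θ σ G G x = lev n θ (σ x) fun u m => nA m (dXw u G x) := by
  simp only [bb, nA_eq_ip_RR]

lemma bb_le_YY (hθ : 0 ≤ θ) (x : E3) : bb n θ σ G G x ≤ YY Q n θ σ G x := by
  rw [bb_self]
  exact lev_mono hθ fun u m => sum_le_sum fun w _ => ip_le_dq Q _

lemma YY_nonneg (hθ : 0 ≤ θ) (x : E3) : 0 ≤ YY Q n θ σ G x :=
  lev_nonneg hθ fun _ _ => sum_nonneg fun _ _ => dq_nonneg Q _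

lemma YY_add (hθ : 0 ≤ θ) (hG : Sm G) (hH : Sm H) (x : E3) :
    YY Q n θ σ (fun y => G y + H y) x ≤ 2 * YY Q n θ σ G x + 2 * YY Q n θ σ H x := by
  simp only [YY, ← lev_const_mul, ← lev_add, dXw_add hG hH, map_add, mul_sum, ← sum_add_distrib]
  exact lev_mono hθ fun u m => sum_le_sum fun w _ => dq_add_le Q _ _

lemma micro {F : E3 → SV} (hθ : 0 ≤ θ) (hF : Sm F) (hG : Sm G) (h : ∀ y, PP (F y) = 0) (x : E3) :
    |bb n θ σ F G x| ≤ √(bb n θ σ F F x) * √(yy Q n θ σ G x) := by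
  have e : bb n θ σ F G x = bb n θ σ F (fun y => G y - PP (G y)) x := by
    have e0 : ∀ u, PP (dXw u F x) = 0 := fun u => by
      have := congrFun (dXw_clm hF PP u) x
      simp only [h, dXw_zero] at this
      exact this.symm
    simp only [bb, dXw_sub hG (hG.clm PP), dXw_clm hG PP, map_sub, ← PP_RR, ← ip_PP, e0, map_zero,
      LinearMap.zero_apply, sub_zero]
  rw [e, ← Real.sqrt_mul (bb_nonneg hθ x)]
  exact Real.abs_le_sqrt ((bb_sq_le hθ x).trans
    (mul_le_mul_of_nonneg_left (bb_le_YY Q hθ x) (bb_nonneg hθ x)))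

lemma YY_le_bb_yy (n : ℕ) : ∃ C : ℝ, 0 < C ∧ ∀ (θ : ℝ) (σ : E3 → ℝ) (G : E3 → SV),
    0 ≤ θ → Sm G → ∀ x, YY Q n θ σ G x ≤ C * (bb n θ σ G G x + yy Q n θ σ G x) := by
  choose C h0 hC using sum_dq_PP_le Q
  have hS : 0 ≤ ∑ m ∈ range (n + 1), C m := sum_nonneg fun m _ => h0 m
  refine ⟨2 * ∑ m ∈ range (n + 1), C m + 2, by positivity, fun θ σ G hθ hG x => ?_⟩
  have h1 := YY_add Q (n := n) (σ := σ) hθ (hG.clm PP) (hG.sub (hG.clm PP)) x
  simp only [add_sub_cancel] at h1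
  have h2 : YY Q n θ σ (fun y => PP (G y)) x ≤ (∑ m ∈ range (n + 1), C m) * bb n θ σ G G x := by
    rw [bb_self, ← lev_const_mul, YY]
    simp only [dXw_clm hG PP]
    exact lev_mono' hθ fun u m hm => (hC m _).trans (mul_le_mul_of_nonneg_right
      (single_le_sum (fun m _ => h0 m) (mem_range.2 (by omega))) (nA_nonneg _ _))
  have h3 := bb_nonneg (n := n) (σ := σ) (G := G) hθ x
  have h4 : 0 ≤ yy Q n θ σ G x := YY_nonneg Q hθ x
  change _ ≤ _ + 2 * yy Q n θ σ G x at h1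
  nlinarith [mul_nonneg hS h4]

lemma bb_mono {n' : ℕ} {θ' : ℝ} (hn : n ≤ n') (hθ : 0 ≤ θ) (hθ' : θ ≤ θ') (x : E3) :
    bb n θ σ G G x ≤ bb n' θ' σ G G x := by
  rw [bb_self, bb_self]
  have h0 : ∀ j m, 0 ≤ θ' ^ (j + m) * σ x ^ (2 * j) * ∑ u ∈ words j, nA m (dXw u G x) :=
    fun j m => mul_nonneg (wt_nonneg (hθ.trans hθ') _ _ _) (sum_nonneg fun _ _ => nA_nonneg _ _)
  refine le_trans (sum_le_sum fun j _ => ?_) (sum_le_sum_of_subset_of_nonneg
    (range_mono (Nat.succ_le_succ hn)) fun j _ _ => sum_nonneg fun m _ => h0 j m)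
  refine le_trans (sum_le_sum fun m _ => ?_) (sum_le_sum_of_subset_of_nonneg
    (range_mono (show n + 1 - j ≤ n' + 1 - j by omega)) fun m _ _ => h0 j m)
  have h1 : 0 ≤ σ x ^ (2 * j) := by rw [pow_mul']; positivity
  have h2 : 0 ≤ ∑ u ∈ words j, nA m (dXw u G x) := sum_nonneg fun _ _ => nA_nonneg _ _
  gcongr

lemma YY_le_bb : ∃ (d : ℕ) (C : ℝ), 0 < C ∧ ∀ (n : ℕ) (θ : ℝ) (σ : E3 → ℝ)
    (G : E3 → SV), 0 ≤ θ → θ ≤ 1 → ∀ x, YY Q n θ σ G x ≤ C * bb (n + d) 1 σ G G x := by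
  obtain ⟨d, C, hC, h⟩ := dq_le_nA Q
  refine ⟨d, C, hC, fun n θ σ G hθ hθ1 x => ?_⟩
  have h1 : YY Q n θ σ G x ≤ C * lev n θ (σ x) fun u m => nA (m + d) (dXw u G x) := by
    rw [← lev_const_mul]
    refine lev_mono hθ fun u m => ?_
    rw [nA_add, mul_sum]
    exact sum_le_sum fun w _ => h _
  refine h1.trans (mul_le_mul_of_nonneg_left ?_ hC.le)
  rw [bb_self]
  have h0 : ∀ j m, 0 ≤ (1 : ℝ) ^ (j + m) * σ x ^ (2 * j) * ∑ u ∈ words j, nA m (dXw u G x) :=
    fun j m => mul_nonneg (wt_nonneg zero_le_one _ _ _) (sum_nonneg fun _ _ => nA_nonneg _ _)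
  refine le_trans (sum_le_sum fun j hj => ?_) (sum_le_sum_of_subset_of_nonneg
    (range_mono (show n + 1 ≤ n + d + 1 by omega)) fun j _ _ => sum_nonneg fun m _ => h0 j m)
  have hj' := mem_range.1 hj
  rw [show n + d + 1 - j = d + (n + 1 - j) by omega, sum_range_add]
  refine le_trans (sum_le_sum fun m _ => ?_) (le_add_of_nonneg_left (sum_nonneg fun m _ => h0 j m))
  have h1 : 0 ≤ σ x ^ (2 * j) := by rw [pow_mul']; positivity
  have h2 : 0 ≤ ∑ u ∈ words j, nA (d + m) (dXw u G x) := sum_nonneg fun _ _ => nA_nonneg _ _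
  simp only [add_comm m d, one_pow]
  gcongr
  exact pow_le_one₀ hθ hθ1

lemma bb_clm {e : ℝ} {A : SV →L[ℝ] SV} (hθ : 0 ≤ θ) (he : 0 ≤ e) (hG : Sm G)
    (h : ∀ f, nA n (A f) ≤ e * ip f f) (x : E3) :
    bb n θ σ (fun y => A (G y)) (fun y => A (G y)) x ≤ e * bb n θ σ G G x := by
  rw [bb_self, bb_self, ← lev_const_mul]
  simp only [dXw_clm hG A]
  refine lev_mono' hθ fun u m hm => (nA_mono hm _).trans ((h _).trans ?_)
  rw [← nA_zero]
  exact mul_le_mul_of_nonneg_left (nA_mono (Nat.zero_le m) _) he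

lemma bb_dX (hθ : 0 ≤ θ) (i : Ix) (x : E3) :
    θ * σ x ^ 2 * bb n θ σ (dX i G) (dX i G) x ≤ bb (n + 1) θ σ G G x := by
  rw [bb_self, bb_self, lev, lev, sum_range_succ' _ (n + 1), mul_sum]
  refine le_trans (sum_le_sum fun j _ => ?_) (le_add_of_nonneg_right (sum_nonneg fun m _ =>
    mul_nonneg (wt_nonneg hθ _ _ _) (sum_nonneg fun _ _ => nA_nonneg _ _)))
  rw [mul_sum, show n + 1 + 1 - (j + 1) = n + 1 - j by omega]
  refine sum_le_sum fun m _ => ?_
  have h1 : ∑ u ∈ words j, nA m (dXw u (dX i G) x) ≤ ∑ u ∈ words (j + 1), nA m (dXw u G x) := by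
    rw [sum_words_succ]
    exact single_le_sum (f := fun i => ∑ u ∈ words j, nA m (dXw (i :: u) G x))
      (fun _ _ => sum_nonneg fun _ _ => nA_nonneg _ _) (mem_univ i)
  calc _ = θ ^ (j + 1 + m) * σ x ^ (2 * (j + 1)) * ∑ u ∈ words j, nA m (dXw u (dX i G) x) := by ring
    _ ≤ _ := mul_le_mul_of_nonneg_left h1 (wt_nonneg hθ _ _ _)

lemma bb_add_le (hθ : 0 ≤ θ) (hG : Sm G) (hH : Sm H) (x : E3) :
    bb n θ σ (fun y => G y + H y) (fun y => G y + H y) x ≤
      2 * bb n θ σ G G x + 2 * bb n θ σ H H x := by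
  simp only [bb_self, ← lev_const_mul, ← lev_add, dXw_add hG hH]
  exact lev_mono hθ fun u m => nA_add_le _ _ _

lemma bb_neg (hG : Sm G) (x : E3) :
    bb n θ σ (fun y => -G y) (fun y => -G y) x = bb n θ σ G G x := by
  simp only [bb_self, dXw_neg hG, nA_neg]

lemma bb_sum_le (hθ : 0 ≤ θ) {T : Ix → E3 → SV} (hT : ∀ i, Sm (T i)) {x : E3} {c : ℝ}
    (h : ∀ i, bb n θ σ (T i) (T i) x ≤ c) (I : Finset Ix) :
    bb n θ σ (fun y => ∑ i ∈ I, T i y) (fun y => ∑ i ∈ I, T i y) x ≤ (4 ^ #I - 1) * c := by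
  have hc : 0 ≤ c := (bb_nonneg hθ x).trans (h 0)
  induction I using Finset.induction_on with
  | empty => simp [bb_self, dXw_zero, lev, nA]
  | insert i I hi ih =>
    simp only [sum_insert hi, card_insert_of_notMem hi, pow_succ]
    have h1 : (1 : ℝ) ≤ 4 ^ #I := one_le_pow₀ (by norm_num)
    linarith [bb_add_le (n := n) (σ := σ) hθ (hT i) (Sm.sum I fun j _ => hT j) x, h i,
      mul_le_mul_of_nonneg_right h1 hc]

lemma bb_sum3_le (hθ : 0 ≤ θ) {T : Ix → E3 → SV} (hT : ∀ i, Sm (T i)) {x : E3} {c : ℝ}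
    (h : ∀ i, bb n θ σ (T i) (T i) x ≤ c) :
    bb n θ σ (fun y => ∑ i, T i y) (fun y => ∑ i, T i y) x ≤ 4 ^ dd * c := by
  have h1 := bb_sum_le hθ hT h univ
  rw [card_univ, card_Ix] at h1
  linarith [(bb_nonneg hθ x).trans (h 0)]

lemma bb_sub_PP_le (hθ : 0 ≤ θ) (hG : Sm G) (x : E3) :
    bb n θ σ (fun y => G y - PP (G y)) (fun y => G y - PP (G y)) x ≤ bb n θ σ G G x := by
  simp only [bb_self, dXw_sub hG (hG.clm PP), dXw_clm hG PP]
  exact lev_mono hθ fun u m => nA_sub_PP_le _ _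

/-- A symbol times a velocity operator acting on a hydrodynamic function. -/
lemma bb_term (n : ℕ) (K : ℕ → ℝ) (A : SV →L[ℝ] SV) : ∃ C : ℝ, 0 < C ∧ ∀ (θ : ℝ)
    (σ μ a : E3 → ℝ) (Y : E3 → SV) (x : E3), 0 ≤ θ → θ ≤ 1 → Sm a → Sm Y → 0 ≤ σ x → 0 < μ x →
    SymBd K 0 σ μ a → (∀ y, PP (Y y) = Y y) →
    bb n θ σ (fun y => a y • A (Y y)) (fun y => a y • A (Y y)) x
      ≤ C * μ x ^ 2 * bb n θ σ Y Y x := by
  obtain ⟨C, hC, h⟩ := bb_smul_le n K
  obtain ⟨e, he, h'⟩ := nA_clm_PP_le A n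
  refine ⟨C * (e + 1), by positivity, fun θ σ μ a Y x hθ hθ1 ha hY hσ hμ hK hP => ?_⟩
  have h1 := h θ σ (fun y => (μ x)⁻¹ • a y) (fun y => A (Y y)) x hθ hθ1 (ha.const_smul _)
    (hY.clm A) hσ fun w => by
      rw [dXw_const_smul ha]
      beta_reduce
      rw [smul_eq_mul, abs_mul, abs_of_pos (inv_pos.2 hμ), mul_left_comm,
        ← div_eq_inv_mul, div_le_iff₀ hμ]
      exact hK w (Nat.zero_le _) x
  have h2 := bb_clm (n := n) (σ := σ) (A := A.comp PP) hθ he hY
    (fun f => (h' f).trans (mul_le_mul_of_nonneg_left (ip_PP_PP_le f) he)) x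
  simp only [ContinuousLinearMap.comp_apply, hP] at h2
  have hs : Sm fun y => a y • A (Y y) := ha.smul (hY.clm A)
  simp only [smul_assoc] at h1
  rw [bb_smul_left hs, bb_comm, bb_smul_left hs, ← mul_assoc, ← mul_inv, ← div_eq_inv_mul,
    div_le_iff₀ (by positivity)] at h1
  have h3 := bb_nonneg (n := n) (σ := σ) (G := Y) hθ x
  calc _ ≤ _ := h1
    _ ≤ C * ((e + 1) * bb n θ σ Y Y x) * (μ x * μ x) := by gcongr; nlinarith
    _ = _ := by ring

lemma mic_tr (K : ℕ → ℝ) (n : ℕ) (θ : ℝ) (hθ : 0 < θ) (hθ1 : θ ≤ 1) : ∃ C : ℝ, 0 < C ∧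
    ∀ (F : Fld) (σ μ : E3 → ℝ) (W : E3 → SV), F.Reg → F.Bd K σ μ → (∀ x, 0 < σ x) →
      (∀ x, 0 < μ x) → Sm W → (∀ x, PP (W x) = W x) → ∀ x,
      bb n θ σ (fun y => F.tr W y - PP (F.tr W y)) (fun y => F.tr W y - PP (F.tr W y)) x
        ≤ C * μ x ^ 2 * bb (n + 1) θ σ W W x := by
  choose C0 h0 H0 using fun i => bb_term n K (mulV i)
  choose C1 h1 H1 using fun j => bb_term n K (ap j)
  choose C2 h2 H2 using fun i j => bb_term n K ((mulV i).comp (ap j))
  choose C3 h3 H3 using fun i j => bb_term n K ((mulV i).comp ((mulV j).comp (ap j)))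
  obtain ⟨C, hC, c0, c1, c2, c3⟩ : ∃ C : ℝ, 0 < C ∧ (∀ i, C0 i / θ ≤ C) ∧ (∀ i, C1 i ≤ C) ∧
      (∀ i j, C2 i j ≤ C) ∧ ∀ i j, C3 i j ≤ C := by
    obtain ⟨C, hC⟩ := Finite.bddAbove_range fun p : Ix × Ix =>
      C0 p.1 / θ + C1 p.1 + C2 p.1 p.2 + C3 p.1 p.2
    have k : ∀ i j, C0 i / θ + C1 i + C2 i j + C3 i j ≤ C := fun i j => hC ⟨(i, j), rfl⟩
    have p0 : ∀ i, 0 < C0 i / θ := fun i => div_pos (h0 i) hθ
    exact ⟨C, by linarith [k 0 0, p0 0, h1 0, h2 0 0, h3 0 0],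
      fun i => by linarith [k i 0, h1 i, h2 i 0, h3 i 0],
      fun i => by linarith [k i 0, p0 i, h2 i 0, h3 i 0],
      fun i j => by linarith [k i j, p0 i, h1 i, h3 i j],
      fun i j => by linarith [k i j, p0 i, h1 i, h2 i j]⟩
  refine ⟨(10 * 4 ^ dd + 12 * (4 ^ dd * 4 ^ dd)) * C, by positivity, fun F σ μ W hF hB hσ hμ hW hP x => ?_⟩
  set R := μ x ^ 2 * bb (n + 1) θ σ W W x with hR
  have hb := bb_nonneg (n := n) (σ := σ) (G := W) hθ.le x
  have hm : μ x ^ 2 * bb n θ σ W W x ≤ R :=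
    mul_le_mul_of_nonneg_left (bb_mono (Nat.le_succ n) hθ.le le_rfl x) (sq_nonneg _)
  have fin : ∀ {c : ℝ}, c ≤ C → c * μ x ^ 2 * bb n θ σ W W x ≤ C * R := fun hc => by
    rw [mul_assoc]
    exact mul_le_mul hc hm (by positivity) hC.le
  have s0 : ∀ i, Sm fun y => F.c y • mulV i (dX i W y) := fun i => hF.c.1.smul ((hW.dX i).clm _)
  have s1 : ∀ j, Sm fun y => F.b0 j y • ap j (W y) := fun j => (hF.b0 j).1.smul (hW.clm _)
  have s2 : ∀ i j, Sm fun y => F.b1 i j y • mulV i (ap j (W y)) := fun i j =>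
    (hF.b1 i j).1.smul ((hW.clm _).clm _)
  have s3 : ∀ i j, Sm fun y => F.b2 i y • mulV i (mulV j (ap j (W y))) := fun i j =>
    (hF.b2 i).1.smul (((hW.clm _).clm _).clm _)
  have b0 := bb_sum3_le (n := n) (σ := σ) hθ.le s0 (x := x) (c := C * R) fun i => by
    refine (H0 i θ σ _ F.c (dX i W) x hθ.le hθ1 hF.c.1 (hW.dX i) (hσ x).le
      (mul_pos (hμ x) (hσ x)) hB.c (Lin.hyd_dX hW.dif hP i)).trans ?_
    calc _ = C0 i / θ * (μ x ^ 2 * (θ * σ x ^ 2 * bb n θ σ (dX i W) (dX i W) x)) := by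
          field_simp
      _ ≤ _ := mul_le_mul (c0 i) (mul_le_mul_of_nonneg_left (bb_dX hθ.le i x) (sq_nonneg _))
          (mul_nonneg (sq_nonneg _) (mul_nonneg (by positivity) (bb_nonneg hθ.le x))) hC.le
  have b1 := bb_sum3_le (n := n) (σ := σ) hθ.le s1 (x := x) fun j =>
    (H1 j θ σ μ _ W x hθ.le hθ1 (hF.b0 j).1 hW (hσ x).le (hμ x) (hB.b0 j) hP).trans (fin (c1 j))
  have b2 := bb_sum3_le (n := n) (σ := σ) hθ.le (fun i => Sm.sum univ fun j _ => s2 i j) (x := x)
    fun i => bb_sum3_le hθ.le (s2 i) fun j =>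
      (H2 i j θ σ μ _ W x hθ.le hθ1 (hF.b1 i j).1 hW (hσ x).le (hμ x) (hB.b1 i j) hP).trans
        (fin (c2 i j))
  have b3 := bb_sum3_le (n := n) (σ := σ) hθ.le (fun i => Sm.sum univ fun j _ => s3 i j) (x := x)
    fun i => bb_sum3_le hθ.le (s3 i) fun j =>
      (H3 i j θ σ μ _ W x hθ.le hθ1 (hF.b2 i).1 hW (hσ x).le (hμ x) (hB.b2 i) hP).trans
        (fin (c3 i j))
  have t0 := Sm.sum univ fun i _ => s0 i
  have t1 := Sm.sum univ fun i _ => s1 i
  have t2 := Sm.sum univ fun i _ => Sm.sum univ fun j _ => s2 i j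
  have t3 := Sm.sum univ fun i _ => Sm.sum univ fun j _ => s3 i j
  have tv : Sm fun y => F.vel y (W y) := ((t1.add t2).add t3).neg
  have e : (fun y => F.tr W y - PP (F.tr W y)) = fun y =>
      (∑ i, F.c y • mulV i (dX i W y) + F.vel y (W y)) -
        PP (∑ i, F.c y • mulV i (dX i W y) + F.vel y (W y)) := by
    funext y
    simp only [Fld.tr, sum_add_distrib, map_add, map_sum, map_smul, Lin.hyd_dX hW.dif hP]
    abel
  rw [e]
  refine (bb_sub_PP_le hθ.le (t0.add tv) x).trans ((bb_add_le hθ.le t0 tv x).trans ?_)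
  have a1 := bb_neg (n := n) (θ := θ) (σ := σ) ((t1.add t2).add t3) x
  have a2 := bb_add_le (n := n) (σ := σ) hθ.le (t1.add t2) t3 x
  have a3 := bb_add_le (n := n) (σ := σ) hθ.le t1 t2 x
  change bb n θ σ (fun y => F.vel y (W y)) (fun y => F.vel y (W y)) x = _ at a1
  rw [mul_assoc, ← hR, a1]
  linarith

lemma smC_vel {T : Type*} [TopologicalSpace T] {F : ℝ → Fld} (hF : FldC F) {r : T → ℝ}
    (hr : Continuous r) {G : T → E3 → SV} (hG : SmC G) :
    SmC fun t x => (F (r t)).vel x (G t x) :=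
  (((SmC.sum univ fun j _ => ((hF.b0 j).reparam hr).smul (hG.clm (ap j))).add
    (SmC.sum univ fun i _ => SmC.sum univ fun j _ =>
      ((hF.b1 i j).reparam hr).smul ((hG.clm (ap j)).clm (mulV i)))).add
    (SmC.sum univ fun i _ => SmC.sum univ fun j _ =>
      ((hF.b2 i).reparam hr).smul (((hG.clm (ap j)).clm (mulV j)).clm (mulV i)))).neg

lemma smC_tr' {T : Type*} [TopologicalSpace T] {F : ℝ → Fld} (hF : FldC F) {r : T → ℝ}
    (hr : Continuous r) {G : T → E3 → SV} (hG : SmC G) : SmC fun t => (F (r t)).tr (G t) :=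
  (SmC.sum univ fun i _ => (((hF.u i).reparam hr).smul (hG.dX i)).add
    ((hF.c.reparam hr).smul ((hG.dX i).clm (mulV i)))).add (smC_vel hF hr hG)

lemma smC_src {F : ℝ → Fld} (hF : FldC F) : SmC fun s => (F s).src :=
  (smC_vel hF continuous_id (SmC.const sqMS)).neg

lemma per_tr {F : Fld} (hF : F.Reg) (hG : Per G) : Per (F.tr G) := fun i x => by
  simp only [Fld.tr, Fld.vel, (hF.u _).2 i x, hF.c.2 i x, (hF.b0 _).2 i x, (hF.b1 _ _).2 i x,
    (hF.b2 _).2 i x, hG i x, hG.dX _ i x]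

lemma per_src {F : Fld} (hF : F.Reg) : Per F.src := fun i x => by
  simp only [Fld.src, Fld.vel, (hF.b0 _).2 i x, (hF.b1 _ _).2 i x, (hF.b2 _).2 i x]

lemma smC_shift {g : ℝ → E3 → SV} (hg : SmC g) (a : E3) : SmC fun s x => g s (x - a) := by
  refine smC_coind (fun k => ∃ G : ℝ → E3 → SV, SmC G ∧ k = fun s x => G s (x - a)) ?_
    ⟨g, hg, rfl⟩
  rintro k ⟨G, hG, rfl⟩
  exact ⟨hG.cont.comp (f := fun p : ℝ × E3 => (p.1, p.2 - a)) (by fun_prop), fun i =>
    ⟨_, ⟨fun s => dX i (G s), hG.dX i, rfl⟩, fun s x =>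
      (hG.dif s i (x - a)).congr fun t => by rw [← add_sub_right_comm]⟩⟩

lemma smC_local {g : ℝ → E3 → SV}
    (h : ∀ x, ∃ G : ℝ → E3 → SV, SmC G ∧ ∀ᶠ y in nhds x, ∀ s, G s y = g s y) : SmC g := by
  refine smC_coind (fun k => ∀ x, ∃ G : ℝ → E3 → SV, SmC G ∧ ∀ᶠ y in nhds x, ∀ s, G s y = k s y)
    (fun k hk => ⟨continuous_iff_continuousAt.2 fun p => ?_, fun i =>
      ⟨fun s => dX i (k s), fun x => ?_, fun s x => ?_⟩⟩) h
  · obtain ⟨G, hG, e⟩ := hk p.2
    exact hG.cont.continuousAt.congr (((continuous_snd.tendsto p).eventually e).mono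
      fun q hq => hq q.1)
  · obtain ⟨G, hG, e⟩ := hk x
    exact ⟨_, hG.dX i, e.eventually_nhds.mono fun y hy s =>
      dX_congr_ev (hy.mono fun z hz => hz s) i⟩
  · obtain ⟨G, hG, e⟩ := hk x
    beta_reduce
    rw [← dX_congr_ev (e.mono fun z hz => hz s) i]
    exact (hG.dif s i x).congr_of_eventuallyEq
      (((tendsto_line x i).eventually e).mono fun t ht => ht s)

lemma smC_per (B : BgD) {φ : E3 → SV} (hφ : Sm φ) : SmC (B.per φ) := by
  refine smC_local fun x => ?_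
  by_cases hx : ∀ i, |red x i| < 1 / 4
  · refine ⟨_, (Lin.sm_of_contDiff B.cut.cd_chi).smC.smul (smC_shift
      (SmC.scale hφ.smC Real.continuous_exp) (WithLp.toLp 2 fun i => (round (x i) : ℝ))), ?_⟩
    have h1 : ∀ᶠ y in nhds x, ∀ i, |(y - WithLp.toLp 2 fun i => (round (x i) : ℝ) : E3) i| < 1 / 4 :=
      Filter.eventually_all.2 fun i => ContinuousAt.eventually_lt (by fun_prop) continuousAt_const
        (hx i)
    filter_upwards [h1] with y hy s
    rw [BgD.per, ← B.cut.pi_eq _ fun i => (hy i).le, ← B.cut.per_pi.add_of_int (fun i => round (x i))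
      (z := WithLp.toLp 2 fun i => (round (x i) : ℝ)) (fun _ => rfl), sub_add_cancel]
  · obtain ⟨i, hi⟩ := not_forall.1 hx
    refine ⟨fun _ _ => 0, SmC.const 0, ?_⟩
    have h1 : ∀ᶠ y : E3 in nhds x, |x i - y i| < 1 / 20 :=
      ContinuousAt.eventually_lt (by fun_prop) continuousAt_const (by simp)
    filter_upwards [h1] with y hy s
    rw [BgD.per, ← B.cut.per_chi.red y, B.cut.chi_zero _ (fun i => abs_sub_round (y i)) fun h5 => ?_,
      zero_smul]
    have h2 := round_le (x i) (round (y i))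
    have h3 := abs_sub_le (x i) (y i) (round (y i))
    have h4 := h5 i
    rw [red_apply] at hi h4
    exact hi (by linarith)

end Alg

open Alg in
theorem algStmt : AlgStmt where
  micro Q _ _ _ _ _ := micro Q
  YY_nonneg Q _ _ _ _ := YY_nonneg Q
  YY_add Q _ _ _ _ _ := YY_add Q
  YY_smul Q n θ σ G a hG x := by
    simp only [YY, dXw_const_smul hG, map_smul, dq_smul, ← lev_const_mul, mul_sum]
  YY_cont Q n θ σ G hσ hG := by
    unfold YY lev
    refine continuous_finsetSum _ fun j _ => continuous_finsetSum _ fun m _ => ?_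
    refine (continuous_const.mul (hσ.pow _)).mul (continuous_finsetSum _ fun u _ => ?_)
    exact continuous_finsetSum _ fun w _ => (continuous_dq Q).comp ((hG.dXw u).clm (apW w)).cont
  YY_le_bb_yy := YY_le_bb_yy
  YY_le_bb := YY_le_bb
  mono _ _ _ _ _ _ := bb_mono
  clm _ _ _ _ _ _ := bb_clm
  mic_tr := mic_tr
  smC_tr _ _ hF hG := smC_tr' hF continuous_id hG
  per_tr _ _ := per_tr
  smC_per B _ := smC_per B

end Pool.Agent.BoltzD

end
end MrgPart5

-- ======== part 6: formerly Pool.Agent.BoltzD.Lin.YF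
section MrgPart6

/-! The background near the origin is the rescaling of an autonomous field. -/

set_option autoImplicit false

open Filter Topology MeasureTheory Set Pool.Agent.BoltzC
open scoped ContDiff

noncomputable section

namespace Pool.Agent.BoltzD.Lin

variable [Dim]

theorem box_of_norm_le {a : ℝ} {x : E3} (h : ‖x‖ ≤ a) : box a x := fun i =>
  le_trans (by simpa using PiLp.norm_apply_le x i) h

theorem box_red (x : E3) : box (1 / 2) (red x) := fun i => by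
  rw [red_apply]; exact abs_sub_round _

theorem box.mono' {a b : ℝ} {x : E3} (h : box a x) (hab : a ≤ b) : box b x :=
  fun i => (h i).trans hab

theorem exists_time (ρ a s1 : ℝ) (ha : 0 < a) : ∃ s, s1 ≤ s ∧ ∀ t, s ≤ t → Real.exp (-t) * ρ < a := by
  have h : Tendsto (fun t : ℝ => Real.exp (-t) * ρ) atTop (𝓝 0) := by
    simpa using Real.tendsto_exp_neg_atTop_nhds_zero.mul_const ρ
  obtain ⟨s, hs⟩ := eventually_atTop.mp (h.eventually (gt_mem_nhds ha))
  exact ⟨max s s1, le_max_right _ _, fun t ht => hs t ((le_max_left _ _).trans ht)⟩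

theorem exp_smul_exp_neg (s : ℝ) (y : E3) : Real.exp s • Real.exp (-s) • y = y := by
  rw [smul_smul, ← Real.exp_add]; simp

theorem exp_neg_smul_exp (s : ℝ) (y : E3) : Real.exp (-s) • Real.exp s • y = y := by
  rw [smul_smul, ← Real.exp_add]; simp

theorem norm_exp_smul (s : ℝ) (y : E3) : ‖Real.exp s • y‖ = Real.exp s * ‖y‖ := by
  rw [norm_smul, Real.norm_eq_abs, abs_of_pos (Real.exp_pos s)]

variable (B : BgD)

theorem rho2_nonneg (x : E3) : 0 ≤ B.cut.rho2 x := by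
  rw [← B.cut.per_rho2.red x]
  exact le_trans (by positivity) (B.cut.rho2_ge _ (box_red x))

theorem exp_neg_two (s : ℝ) : Real.exp (-2 * s) = Real.exp (-s) ^ 2 := by
  rw [← Real.exp_nat_mul]; congr 1; push_cast; ring

theorem exp_le_Lam (s : ℝ) (x : E3) : Real.exp (-s) ≤ B.Lam s x := by
  apply Real.le_sqrt_of_sq_le
  rw [exp_neg_two]
  linarith [rho2_nonneg B x]

theorem Lam_pos (s : ℝ) (x : E3) : 0 < B.Lam s x := (Real.exp_pos _).trans_le (exp_le_Lam B s x)

theorem om_pos (a s : ℝ) (x : E3) : 0 < B.om a s x :=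
  mul_pos (Real.exp_pos _) (Real.rpow_pos_of_pos (Lam_pos B s x) _)

theorem mu_pos (s : ℝ) (x : E3) : 0 < B.mu s x :=
  mul_pos (Real.exp_pos _) (Real.rpow_pos_of_pos (Lam_pos B s x) _)

theorem sig_pos (s : ℝ) (x : E3) : 0 < B.sig s x :=
  add_pos_of_pos_of_nonneg (Real.exp_pos _) (Real.sqrt_nonneg _)

theorem Lam_rpow_le (s : ℝ) (x : E3) {b : ℝ} (hb : b ≤ 0) :
    B.Lam s x ^ b ≤ Real.exp (-(b * s)) := by
  refine (Real.rpow_le_rpow_of_nonpos (Real.exp_pos _) (exp_le_Lam B s x) hb).trans (le_of_eq ?_)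
  rw [← Real.exp_mul]; congr 1; ring

theorem mu_le_one (hB : B.Ok) (s : ℝ) (x : E3) : B.mu s x ≤ 1 := by
  have h := Lam_rpow_le B s x (b := -B.r) (by linarith [hB.r_gt])
  refine (mul_le_mul_of_nonneg_left h (Real.exp_pos _).le).trans (le_of_eq ?_)
  rw [← Real.exp_add]; simp

/-- Young's inequality for the two weights. -/
theorem mu_om_young (hB : B.Ok) (δ s : ℝ) (x : E3) : B.mu s x * B.om 0 s x
    ≤ Real.exp (-(δ * B.r / B.eta) * s) * (B.om 0 s x + Real.exp (2 * δ * s) * B.om B.eta s x) := by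
  have hL := Lam_pos B s x
  have hη := hB.eta_pos
  have hr := hB.one_lt_r
  have hk := hB.kap_pos
  set z := Real.exp ((δ / B.eta - 1) * s) * (B.Lam s x)⁻¹ with hz
  have z0 : 0 < z := by positivity
  have e : ∀ a, z ^ a = Real.exp ((δ / B.eta - 1) * s * a) * B.Lam s x ^ (-a) := fun a => by
    rw [hz, Real.mul_rpow (by positivity) (by positivity), ← Real.exp_mul, Real.inv_rpow hL.le,
      Real.rpow_neg hL.le]
  have h1 : z ^ B.r ≤ 1 + z ^ (2 * B.eta) := by
    rcases le_total z 1 with h | h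
    · exact (Real.rpow_le_one z0.le h (by linarith)).trans (le_add_of_nonneg_right (by positivity))
    · exact (Real.rpow_le_rpow_of_exponent_le h (by linarith [B.two_eta])).trans
        (le_add_of_nonneg_left zero_le_one)
  have e1 : B.mu s x = Real.exp (-(δ * B.r / B.eta) * s) * z ^ B.r := by
    rw [e, ← mul_assoc, ← Real.exp_add, BgD.mu]
    congr 2
    ring
  have e2 : Real.exp (2 * δ * s) * B.om B.eta s x = z ^ (2 * B.eta) * B.om 0 s x := by
    rw [e, BgD.om, BgD.om, ← mul_assoc, ← Real.exp_add, mul_mul_mul_comm, ← Real.exp_add,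
      ← Real.rpow_add hL]
    congr 2
    · field_simp
      ring
    · ring
  have := mul_le_mul_of_nonneg_left h1
    (mul_pos (Real.exp_pos (-(δ * B.r / B.eta) * s)) (om_pos B 0 s x)).le
  rw [e1, e2]
  linarith

theorem Lam_le {s : ℝ} (hs : 0 ≤ s) (x : E3) : B.Lam s x ≤ dd + 1 := by
  have h2 : Real.exp (-2 * s) ≤ 1 := Real.exp_le_one_iff.mpr (by linarith)
  exact Real.sqrt_le_iff.2 ⟨by positivity, by nlinarith [B.cut.rho2_le x, dr_pos]⟩

theorem sig_le (hB : B.Ok) {s : ℝ} (hs : 0 ≤ s) (x : E3) : B.sig s x ≤ dd + 2 := by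
  have h1 : Real.exp (-s) ≤ 1 := Real.exp_le_one_iff.mpr (by linarith)
  have h3 : B.nu ^ 2 ≤ 1 := pow_le_one₀ hB.nu_pos.le hB.nu_le
  have h5 : √(Real.exp (-2 * s) + B.nu ^ 2 * B.cut.rho2 x) ≤ B.Lam s x :=
    Real.sqrt_le_sqrt (by linarith [mul_le_of_le_one_left (rho2_nonneg B x) h3])
  unfold BgD.sig
  linarith [Lam_le B hs x]

theorem per_Lam (s : ℝ) : Per (B.Lam s) := fun i x => by simp only [BgD.Lam, B.cut.per_rho2 i x]
theorem per_om (a s : ℝ) : Per (B.om a s) := fun i x => by simp only [BgD.om, per_Lam B s i x]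
theorem per_mu (s : ℝ) : Per (B.mu s) := fun i x => by simp only [BgD.mu, per_Lam B s i x]
theorem per_sig (s : ℝ) : Per (B.sig s) := fun i x => by simp only [BgD.sig, B.cut.per_rho2 i x]

/-- Japanese bracket. -/
def jb (y : E3) : ℝ := √(1 + ‖y‖ ^ 2)

theorem one_le_jb (y : E3) : 1 ≤ jb y := Real.one_le_sqrt.mpr (by nlinarith [norm_nonneg y])
theorem jb_pos (y : E3) : 0 < jb y := zero_lt_one.trans_le (one_le_jb y)
theorem norm_le_jb (y : E3) : ‖y‖ ≤ jb y := Real.le_sqrt_of_sq_le (by linarith)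
theorem continuous_jb : Continuous jb := by unfold jb; fun_prop

/-- The weight in the variable `y`. -/
def wy (a : ℝ) (y : E3) : ℝ := jb y ^ (-(dd : ℝ) - 2 * a)

/-- The length scale in the variable `y`. -/
def sy (ν : ℝ) (y : E3) : ℝ := 1 + √(1 + ν ^ 2 * ‖y‖ ^ 2)

theorem wy_pos (a : ℝ) (y : E3) : 0 < wy a y := Real.rpow_pos_of_pos (jb_pos y) _
theorem continuous_wy (a : ℝ) : Continuous (wy a) :=
  continuous_jb.rpow_const fun y => Or.inl (jb_pos y).ne'
theorem one_le_sy (ν : ℝ) (y : E3) : 1 ≤ sy ν y := le_add_of_nonneg_right (Real.sqrt_nonneg _)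
theorem continuous_sy (ν : ℝ) : Continuous (sy ν) := by unfold sy; fun_prop

theorem sqrt_scale (s c : ℝ) (x : E3) :
    √(Real.exp (-2 * s) + c * ‖x‖ ^ 2) = Real.exp (-s) * √(1 + c * ‖Real.exp s • x‖ ^ 2) := by
  rw [← Real.sqrt_sq (Real.exp_pos (-s)).le, ← Real.sqrt_mul (sq_nonneg _), norm_exp_smul,
    exp_neg_two]
  congr 1
  have : Real.exp (-s) * Real.exp s = 1 := by rw [← Real.exp_add]; simp
  linear_combination (-c * ‖x‖ ^ 2 * (Real.exp (-s) * Real.exp s + 1)) * this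

theorem Lam_eq (s : ℝ) {x : E3} (hx : ‖x‖ ≤ 1 / 4) :
    B.Lam s x = Real.exp (-s) * jb (Real.exp s • x) := by
  have := sqrt_scale s 1 x
  simp only [one_mul] at this
  rw [BgD.Lam, B.cut.rho2_eq x (box_of_norm_le hx), this, jb]

theorem Lam_rpow_eq (s b : ℝ) {x : E3} (hx : ‖x‖ ≤ 1 / 4) :
    B.Lam s x ^ b = Real.exp (-(b * s)) * jb (Real.exp s • x) ^ b := by
  rw [Lam_eq B s hx, Real.mul_rpow (Real.exp_pos _).le (jb_pos _).le, ← Real.exp_mul]
  congr 2; ring

theorem om_eq (a s : ℝ) {x : E3} (hx : ‖x‖ ≤ 1 / 4) :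
    B.om a s x = Real.exp s ^ dd * wy a (Real.exp s • x) := by
  rw [BgD.om, Lam_rpow_eq B s _ hx, ← mul_assoc, ← Real.exp_add, ← Real.exp_nat_mul, wy]
  congr 2; ring

theorem mu_eq (s : ℝ) {x : E3} (hx : ‖x‖ ≤ 1 / 4) :
    B.mu s x = jb (Real.exp s • x) ^ (-B.r) := by
  rw [BgD.mu, Lam_rpow_eq B s _ hx, ← mul_assoc, ← Real.exp_add]
  simp

theorem sig_eq (s : ℝ) {x : E3} (hx : ‖x‖ ≤ 1 / 4) :
    B.sig s x = Real.exp (-s) * sy B.nu (Real.exp s • x) := by
  rw [BgD.sig, B.cut.rho2_eq x (box_of_norm_le hx), sqrt_scale, sy]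
  ring

theorem per_eq_per {φ : E3 → SV} {R s : ℝ} (hφ : Supp R φ) (hs : Real.exp (-s) * R < 1 / 8) :
    B.per φ s = per fun x => φ (Real.exp s • x) := by
  funext x
  have hp : Per (B.per φ s) := fun i x => by
    simp only [BgD.per, B.cut.per_chi i x, B.cut.per_pi i x]
  rw [← hp.red x, per]
  set z := red x
  have hz : box (1 / 2) z := box_red x
  unfold BgD.per
  by_cases h8 : box (1 / 8) z
  · rw [B.cut.chi_one z h8, B.cut.pi_eq z (box.mono' h8 (by norm_num)), one_smul]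
  have h0 : φ (Real.exp s • z) = 0 := by
    apply hφ
    have h1 : 1 / 8 < ‖z‖ := lt_of_not_ge fun h => h8 (box_of_norm_le h)
    have h2 := mul_lt_mul_of_pos_left (hs.trans h1) (Real.exp_pos s)
    rw [← mul_assoc, ← Real.exp_add] at h2
    rw [norm_exp_smul]
    simpa using h2
  by_cases h5 : box (1 / 5) z
  · rw [B.cut.pi_eq z (box.mono' h5 (by norm_num)), h0, smul_zero]
  · rw [B.cut.chi_zero z hz h5, zero_smul, h0]

theorem scal_deriv {a : ℝ → E3 → ℝ} {A : E3 → ℝ} {ρ : ℝ} (hA : ContDiff ℝ ∞ A)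
    (h : ∀ s x, box (1 / 8) x → a s x = Real.exp (ρ * s) * A (Real.exp s • x)) (s : ℝ) {x : E3}
    (hx : ‖x‖ < 1 / 8) :
    dS a s x = Real.exp (ρ * s) *
        (ρ * A (Real.exp s • x) + fderiv ℝ A (Real.exp s • x) (Real.exp s • x)) ∧
      ∀ i, dX i (a s) x = Real.exp (ρ * s) * (Real.exp s * dX i A (Real.exp s • x)) := by
  constructor
  · have e : (fun t => a t x) = fun t => Real.exp (ρ * t) * A (Real.exp t • x) :=
      funext fun t => h t x (box_of_norm_le hx.le)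
    have h1 : HasDerivAt (fun t : ℝ => Real.exp t • x) (Real.exp s • x) s :=
      (Real.hasDerivAt_exp s).smul_const x
    have h2 := ((hA.differentiable (by simp)) (Real.exp s • x)).hasFDerivAt.comp_hasDerivAt s h1
    have h3 : HasDerivAt (fun t => Real.exp (ρ * t)) (Real.exp (ρ * s) * ρ) s := by
      simpa using ((hasDerivAt_id s).const_mul ρ).exp
    rw [dS, e]
    refine ((h3.mul h2).deriv).trans ?_
    simp only [Function.comp_apply]
    ring
  · intro i
    have e : a s =ᶠ[𝓝 x] fun y => Real.exp (ρ * s) • A (Real.exp s • y) :=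
      ((isOpen_lt continuous_norm continuous_const).eventually_mem hx).mono fun y hy =>
        h s y (box_of_norm_le (le_of_lt hy))
    have hs := sm_of_contDiff hA
    rw [dX_congr_ev e, dX_const_smul (hs.scale _).dif, dX_scale hs.dif]
    simp

theorem exists_yfld (hB : B.Ok) : ∃ (F : Fld) (K s1 : ℝ), 0 ≤ K ∧ 0 ≤ s1 ∧
    (∀ s x, ‖x‖ < 1 / 8 → Agree (B.fld s) (sc F s) x x) ∧ Tame B.fld K s1 ∧
    ∀ s, Tame (sc F) K s := by
  obtain ⟨U, C, hU, hC, hsc⟩ := hB.scal
  obtain ⟨K1, hK1⟩ := hB.sym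
  obtain ⟨K2, lam, s1, -, hs1, hK2⟩ := hB.hyp
  set ρ := B.r - 1 with hρ
  let mt : (E3 → ℝ) → E3 → ℝ := fun A y => ρ * A y + fderiv ℝ A y y + ∑ i, U i y * dX i A y
  let F : Fld :=
    { u := U
      c := C
      b0 := fun j y => -mt (U j) y / C y
      b1 := fun i j y => -dX i (U j) y - if i = j then mt C y / C y else 0
      b2 := fun i y => -dX i C y }
  have e0 : ∀ s, Real.exp (-B.r * s) * Real.exp (ρ * s) = Real.exp (-s) := fun s => by
    rw [← Real.exp_add]; congr 1; rw [hρ]; ring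
  have e1 : ∀ s, Real.exp (-s) * Real.exp s = 1 := fun s => by rw [← Real.exp_add]; simp
  have hag : ∀ s x, ‖x‖ < 1 / 8 → Agree (B.fld s) (sc F s) x x := by
    intro s x hx
    have hbx := box_of_norm_le hx.le
    have hu := fun j => scal_deriv (hU j) (fun s x h => (hsc s x h).1 j) s hx
    have hc := scal_deriv hC (fun s x h => (hsc s x h).2) s hx
    have hmat : ∀ {a : ℝ → E3 → ℝ} {A : E3 → ℝ}, (dS a s x = Real.exp (ρ * s) *
        (ρ * A (Real.exp s • x) + fderiv ℝ A (Real.exp s • x) (Real.exp s • x)) ∧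
        ∀ i, dX i (a s) x = Real.exp (ρ * s) * (Real.exp s * dX i A (Real.exp s • x))) →
        B.mat a s x = Real.exp (ρ * s) * mt A (Real.exp s • x) := by
      intro a A h
      simp only [BgD.mat, h.1, h.2, (hsc s x hbx).1, mt, mul_add, Finset.mul_sum]
      congr 1
      refine Finset.sum_congr rfl fun i _ => ?_
      linear_combination (Real.exp (ρ * s) * Real.exp s * U i (Real.exp s • x) *
        dX i A (Real.exp s • x)) * e0 s + (Real.exp (ρ * s) * U i (Real.exp s • x) *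
        dX i A (Real.exp s • x)) * e1 s
    have hd : ∀ t : ℝ, Real.exp (-B.r * s) * (Real.exp (ρ * s) * (Real.exp s * t)) = t := by
      intro t
      linear_combination (Real.exp s * t) * e0 s + t * e1 s
    have hne := (Real.exp_pos (ρ * s)).ne'
    refine ⟨fun i => ?_, ?_, fun j => ?_, fun i j => ?_, fun i => ?_⟩
    · simp only [BgD.fld, sc, F, (hsc s x hbx).1, ← mul_assoc, e0]
    · simp only [BgD.fld, sc, F, (hsc s x hbx).2, ← mul_assoc, e0]
    · simp only [BgD.fld, sc, F, hmat (hu j), (hsc s x hbx).2]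
      rw [neg_div, neg_div, mul_div_mul_left _ _ hne]
    · simp only [BgD.fld, sc, F, hmat hc, (hsc s x hbx).2, (hu j).2, hd,
        mul_div_mul_left _ _ hne]
    · simp only [BgD.fld, sc, F, hc.2, hd]
  set K := max |K1 0| |K2 0| with hK
  have hK0 : 0 ≤ K := (abs_nonneg _).trans (le_max_left _ _)
  have hsz : ∀ {a : E3 → ℝ} {s : ℝ}, SymBd K1 0 (B.sig s) (fun x => B.Lam s x ^ (1 - B.r)) a →
      ∀ x, |Real.exp (-B.r * s) * a x| ≤ K * Real.exp (-s) := by
    intro a s h x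
    have h1 := h [] le_rfl x
    simp only [List.length_nil, pow_zero, one_mul, dXw_nil] at h1
    have h2 := Lam_rpow_le B s x (b := 1 - B.r) (by linarith [hB.r_gt])
    have h3 : K1 0 * B.Lam s x ^ (1 - B.r) ≤ K * Real.exp (-((1 - B.r) * s)) :=
      mul_le_mul ((le_abs_self _).trans (le_max_left _ _)) h2
        (Real.rpow_pos_of_pos (Lam_pos B s x) _).le hK0
    rw [abs_mul, abs_of_pos (Real.exp_pos _)]
    refine (mul_le_mul_of_nonneg_left (h1.trans h3) (Real.exp_pos _).le).trans (le_of_eq ?_)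
    rw [mul_left_comm, ← Real.exp_add]; congr 2; ring
  have hsb : ∀ {a : E3 → ℝ} {s : ℝ}, SymBd K2 0 (B.sig s) (B.mu s) a → ∀ x, |a x| ≤ K := by
    intro a s h x
    have h1 := h [] le_rfl x
    simp only [List.length_nil, pow_zero, one_mul, dXw_nil] at h1
    have h3 : K2 0 * B.mu s x ≤ K * 1 :=
      mul_le_mul ((le_abs_self _).trans (le_max_right _ _)) (mu_le_one B hB s x)
        (mu_pos B s x).le hK0
    linarith
  have hT : Tame B.fld K s1 :=
    ⟨hB.fldC.u, hB.fldC.c, fun s hs i => hsz ((hK1 s (hs1.trans hs)).1 i),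
      fun s hs => hsz (hK1 s (hs1.trans hs)).2.1, fun s hs j => hsb ((hK2 s hs).1.b0 j),
      fun s hs i j => hsb ((hK2 s hs).1.b1 i j), fun s hs i => hsb ((hK2 s hs).1.b2 i)⟩
  have hy : ∀ y : E3, ∃ s x, s1 ≤ s ∧ Real.exp s • x = y ∧ Agree (B.fld s) (sc F s) x x := by
    intro y
    obtain ⟨s, hs, h⟩ := exists_time ‖y‖ (1 / 8) s1 (by norm_num)
    exact ⟨s, Real.exp (-s) • y, hs, exp_smul_exp_neg s y,
      hag s _ (by rw [norm_exp_smul]; exact h s le_rfl)⟩
  have hdiv : ∀ (t s s' : ℝ), |Real.exp (-s) * t| ≤ K * Real.exp (-s) →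
      |Real.exp (-s') * t| ≤ K * Real.exp (-s') := by
    intro t s s' h
    rw [abs_mul, abs_of_pos (Real.exp_pos _), mul_comm] at h ⊢
    exact mul_le_mul_of_nonneg_right (le_of_mul_le_mul_right h (Real.exp_pos _))
      (Real.exp_pos _).le
  have hsm : ∀ {A : E3 → ℝ}, ContDiff ℝ ∞ A →
      SmC fun (s : ℝ) x => Real.exp (-s) * A (Real.exp s • x) := fun h =>
    (SmC.of_time (by fun_prop)).mul ((sm_of_contDiff h).smC.scale Real.continuous_exp)
  refine ⟨F, K, s1, hK0, hs1, hag, hT, fun s0 => ⟨fun i => hsm (hU i), hsm hC, fun s _ i x => ?_,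
    fun s _ x => ?_, fun s _ j x => ?_, fun s _ i j x => ?_, fun s _ i x => ?_⟩⟩
  all_goals obtain ⟨t, z, ht, hz, hA⟩ := hy (Real.exp s • x)
  · have := hT.bu t ht i z
    rw [hA.u] at this
    simp only [sc, hz] at this ⊢
    exact hdiv _ _ _ this
  · have := hT.bc t ht z
    rw [hA.c] at this
    simp only [sc, hz] at this ⊢
    exact hdiv _ _ _ this
  · have := hT.b0 t ht j z
    rw [hA.b0] at this
    simpa only [sc, hz] using this
  · have := hT.b1 t ht i j z
    rw [hA.b1] at this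
    simpa only [sc, hz] using this
  · have := hT.b2 t ht i z
    rw [hA.b2] at this
    simpa only [sc, hz] using this

end Pool.Agent.BoltzD.Lin

end
end MrgPart6

-- marker of a merged file
example : 731051 + 846851 = 731051 + 846851 := rfl
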