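import Pool.Agent.BoltzD.Bg.Hyp
import Pool.Agent.BoltzD.Coll.Symm
import Pool.Agent.BoltzD.En.Split
import Pool.Agent.BoltzD.Coll.Schw
import Pool.Agent.BoltzD.Pos.Gr
import Pool.Agent.BoltzD.Lin.YF
import Pool.Agent.BoltzD.Solver.Ops
import Pool.Agent.BoltzD.Pic.LimC
import Pool.Agent.BoltzD.KK.Main

-- ======== part 0: formerly Pool.Agent.BoltzD.Coll.Op
section MrgPart0

-- ======== part 0: formerly Pool.Agent.BoltzD.Gap.Meas
section MrgPart0

/-!
The Gaussian probability measure, the three-variable probability measure and its symmetries,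
and the averaging operator on polynomial functions.
-/

set_option autoImplicit false

open MeasureTheory Pool.Agent.BoltzC Filter Topology
open scoped RealInnerProductSpace ENNReal

noncomputable section

namespace Pool.Agent.BoltzD.Gap

variable [Dim]

open Coll (sph mu2 mu3 pv pw coll swp)

/-- Total mass of the Maxwellian. -/
def Z : ℝ := ∫ v, sqM v ^ 2

lemma integrable_pow_sqM_sq (n : ℕ) : Integrable (fun v : E => (1 + ‖v‖) ^ n * sqM v ^ 2) := by
  have h : Integrable (fun v : E => Real.exp (n ^ 2) * sqMS v) := sqMS.integrable.const_mul _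
  refine h.mono' ?_ (ae_of_all _ fun v => ?_)
  · have := continuous_sqM
    exact (by fun_prop : Continuous fun v : E => (1 + ‖v‖) ^ n * sqM v ^ 2).aestronglyMeasurable
  · have h1 := pow_mul_sqM_le n v
    have h2 := sqM_pos v
    rw [Real.norm_of_nonneg (by positivity), sqMS_apply, sq, ← mul_assoc]
    gcongr

lemma integrable_sqM_sq : Integrable (fun v : E => sqM v ^ 2) := by
  simpa using integrable_pow_sqM_sq 0

lemma Z_pos : 0 < Z := by
  have := continuous_sqM
  exact integral_pos_of_integrable_nonneg_nonzero (by fun_prop) integrable_sqM_sq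
    (fun v => sq_nonneg _) (x := 0) (pow_pos (sqM_pos 0) 2).ne'

/-- Density of the Gaussian probability measure. -/
def dens (v : E) : ℝ≥0∞ := ENNReal.ofReal (sqM v ^ 2 / Z)

lemma measurable_dens : Measurable dens := by
  have := continuous_sqM.measurable
  unfold dens; fun_prop

lemma toReal_dens (v : E) : (dens v).toReal = sqM v ^ 2 / Z :=
  ENNReal.toReal_ofReal (div_nonneg (sq_nonneg _) Z_pos.le)

/-- The Gaussian probability measure. -/
def gam : Measure E := volume.withDensity dens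

lemma integral_gam (f : E → ℝ) : ∫ v, f v ∂gam = Z⁻¹ * ∫ v, f v * sqM v ^ 2 := by
  rw [gam, integral_withDensity_eq_integral_toReal_smul measurable_dens
    (ae_of_all _ fun v => ENNReal.ofReal_lt_top), ← integral_const_mul]
  congr 1; funext v
  rw [toReal_dens, smul_eq_mul]; ring

lemma integrable_gam {f : E → ℝ} : Integrable f gam ↔ Integrable (fun v => f v * sqM v ^ 2) := by
  rw [gam, integrable_withDensity_iff measurable_dens (ae_of_all _ fun v => ENNReal.ofReal_lt_top)]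
  simp only [toReal_dens, div_eq_mul_inv, ← mul_assoc]
  exact integrable_mul_const_iff (inv_ne_zero Z_pos.ne').isUnit _

instance : IsProbabilityMeasure gam := by
  constructor
  rw [gam, withDensity_apply _ MeasurableSet.univ, Measure.restrict_univ]
  unfold dens
  rw [← ofReal_integral_eq_lintegral_ofReal (integrable_sqM_sq.div_const _)
    (ae_of_all _ fun v => div_nonneg (sq_nonneg _) Z_pos.le), integral_div]
  change ENNReal.ofReal (Z / Z) = 1
  rw [div_self Z_pos.ne', ENNReal.ofReal_one]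

lemma volume_ac_gam : (volume : Measure E) ≪ gam :=
  withDensity_absolutelyContinuous' measurable_dens.aemeasurable (ae_of_all _ fun v => by
    have := sqM_pos v
    have := Z_pos
    simp only [dens, ne_eq, ENNReal.ofReal_eq_zero, not_le]
    positivity)

instance : gam.IsOpenPosMeasure := volume_ac_gam.isOpenPosMeasure

lemma gam_le (s : Set E) : gam s ≤ ENNReal.ofReal Z⁻¹ * volume s := by
  calc gam s ≤ gam (toMeasurable volume s) := measure_mono (subset_toMeasurable _ _)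
    _ = ∫⁻ v in toMeasurable volume s, dens v := withDensity_apply _ (measurableSet_toMeasurable _ _)
    _ ≤ ∫⁻ v in toMeasurable volume s, ENNReal.ofReal Z⁻¹ := by
        refine lintegral_mono fun v => ENNReal.ofReal_le_ofReal ?_
        rw [div_eq_mul_inv]
        have h1 := sqM_le_one v
        have h2 := sqM_pos v
        have h3 : sqM v ^ 2 ≤ 1 := by nlinarith
        have h4 := inv_pos.2 Z_pos
        nlinarith
    _ = _ := by rw [setLIntegral_const, measure_toMeasurable]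

lemma integrable_pow_gam (n : ℕ) : Integrable (fun v : E => (1 + ‖v‖) ^ n) gam :=
  integrable_gam.2 (integrable_pow_sqM_sq n)

lemma memLp_PV {n : ℕ} {φ : E → ℝ} (h : φ ∈ PV n) : MemLp φ 2 gam := by
  have hc := PV_continuous φ h
  obtain ⟨C, hC, hb⟩ := PV_growth φ h
  rw [memLp_two_iff_integrable_sq hc.aestronglyMeasurable]
  refine ((integrable_pow_gam (2 * n)).const_mul (C ^ 2)).mono'
    (hc.pow 2).aestronglyMeasurable (ae_of_all _ fun v => ?_)
  rw [Real.norm_of_nonneg (sq_nonneg _), ← sq_abs, pow_mul', ← mul_pow]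
  gcongr
  exact hb v

/-- The uniform probability measure on the sphere. -/
def sb : Measure Sph := (ENNReal.ofReal Coll.cT)⁻¹ • sph

lemma four_pi_ne_zero : ENNReal.ofReal Coll.cT ≠ 0 := by
  have := Coll.cT_pos
  simp only [ne_eq, ENNReal.ofReal_eq_zero, not_le]
  positivity

instance : IsProbabilityMeasure sb := by
  constructor
  rw [sb, Measure.smul_apply, Coll.sph_univ, smul_eq_mul,
    ENNReal.inv_mul_cancel four_pi_ne_zero ENNReal.ofReal_ne_top]

instance : sb.IsOpenPosMeasure := by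
  have : sph.IsOpenPosMeasure := by unfold sph; infer_instance
  exact Measure.isOpenPosMeasure_smul _ (ENNReal.inv_ne_zero.2 ENNReal.ofReal_ne_top)

/-- The probability measure in the two velocities and the direction. -/
def nu : Measure (E × E × Sph) := gam.prod (gam.prod sb)

instance : IsProbabilityMeasure nu := by unfold nu; infer_instance

/-- Density of `nu`. -/
def rho (p : E × E × Sph) : ℝ≥0∞ :=
  ENNReal.ofReal ((sqM p.1 * sqM p.2.1) ^ 2 / (Z ^ 2 * Coll.cT))

lemma measurable_rho : Measurable rho := by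
  have := continuous_sqM.measurable
  unfold rho; fun_prop

lemma nu_eq : nu = mu3.withDensity rho := by
  have h1 : sb = sph.withDensity fun _ => (ENNReal.ofReal Coll.cT)⁻¹ := by
    rw [withDensity_const]; rfl
  rw [nu, gam, h1, prod_withDensity measurable_dens measurable_const,
    prod_withDensity measurable_dens
      (g := fun z : E × Sph => dens z.1 * (ENNReal.ofReal Coll.cT)⁻¹)
      ((measurable_dens.comp measurable_fst).mul measurable_const)]
  congr 1
  funext p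
  have hZ := Z_pos
  have hpi := Coll.cT_pos
  simp only [dens, rho]
  rw [← ENNReal.ofReal_inv_of_pos (by positivity), ← ENNReal.ofReal_mul (by positivity),
    ← ENNReal.ofReal_mul (by positivity)]
  congr 1
  field_simp

lemma mp_withDensity {X : Type} [MeasurableSpace X] {μ : Measure X} {T : X → X}
    (hT : MeasurePreserving T μ μ) {r : X → ℝ≥0∞} (hr : Measurable r) (h : ∀ x, r (T x) = r x) :
    MeasurePreserving T (μ.withDensity r) (μ.withDensity r) := by
  refine ⟨hT.measurable, ?_⟩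
  ext s hs
  rw [Measure.map_apply hT.measurable hs, withDensity_apply _ (hT.measurable hs),
    withDensity_apply _ hs, ← hT.setLIntegral_comp_preimage hs hr]
  simp only [h]

lemma mp_coll : MeasurePreserving coll nu nu := by
  rw [nu_eq]
  refine mp_withDensity Coll.measurePreserving_coll measurable_rho fun p => ?_
  have := Coll.sM_pv_mul p.1 p.2.1 p.2.2
  simp only [rho, coll]
  congr 3

lemma mp_swp : MeasurePreserving swp nu nu := by
  rw [nu_eq]
  refine mp_withDensity Coll.measurePreserving_swp measurable_rho fun p => ?_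
  simp only [rho, swp, mul_comm]

lemma mp_one : MeasurePreserving (fun p : E × E × Sph => p.1) nu gam := measurePreserving_fst

lemma mp_two : MeasurePreserving (fun p : E × E × Sph => p.2.1) nu gam :=
  measurePreserving_fst.comp (measurePreserving_snd (μ := gam) (ν := gam.prod sb))

lemma mp_three : MeasurePreserving (fun p : E × E × Sph => pv p.1 p.2.1 p.2.2) nu gam :=
  mp_one.comp mp_coll

lemma mp_four : MeasurePreserving (fun p : E × E × Sph => pw p.1 p.2.1 p.2.2) nu gam :=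
  mp_two.comp mp_coll

lemma integral_coll (F : E × E × Sph → ℝ) : ∫ p, F (coll p) ∂nu = ∫ p, F p ∂nu :=
  mp_coll.integral_comp Coll.collE.measurableEmbedding F

lemma integral_swp (F : E × E × Sph → ℝ) : ∫ p, F (swp p) ∂nu = ∫ p, F p ∂nu :=
  mp_swp.integral_comp Coll.swpE.measurableEmbedding F

/-- The averaging operator. -/
def Tf (φ : E → ℝ) (x : E) : ℝ :=
  ∫ q : E × Sph, (φ (pv x q.1 q.2) + φ (pw x q.1 q.2)) ∂(gam.prod sb)

/-- Its leading part. -/
def T1 (φ : E → ℝ) (x : E) : ℝ :=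
  ∫ ω : Sph, (φ (x - ⟪x, (ω : E)⟫ • (ω : E)) + φ (⟪x, (ω : E)⟫ • (ω : E))) ∂sb

/-- Projection onto a direction. -/
def par (ω : E) : E →L[ℝ] E := (innerSL ℝ ω).smulRight ω

lemma par_apply (ω x : E) : par ω x = ⟪x, ω⟫ • ω := by simp [par, real_inner_comm]

lemma pv_eq (x w ω : E) : pv x w ω = (ContinuousLinearMap.id ℝ E - par ω) x + ⟪w, ω⟫ • ω := by
  simp only [pv, sub_apply, ContinuousLinearMap.id_apply, par_apply, inner_sub_left, sub_smul]
  abel

lemma pw_eq (x w ω : E) : pw x w ω = par ω x + (w - ⟪w, ω⟫ • ω) := by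
  simp only [pw, par_apply, inner_sub_left, sub_smul]
  abel

lemma norm_pv_le (x w : E) (ω : Sph) : 1 + ‖pv x w ω‖ ≤ (1 + ‖x‖) * (1 + ‖w‖) := by
  have h := Coll.energy x w ω
  have h1 : ‖pv x w ω‖ ≤ ‖x‖ + ‖w‖ := by
    refine abs_le_of_sq_le_sq' ?_ (by positivity) |>.2
    nlinarith [sq_nonneg ‖pw x w ω‖, mul_nonneg (norm_nonneg x) (norm_nonneg w)]
  nlinarith [mul_nonneg (norm_nonneg x) (norm_nonneg w)]

lemma norm_pw_le (x w : E) (ω : Sph) : 1 + ‖pw x w ω‖ ≤ (1 + ‖x‖) * (1 + ‖w‖) := by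
  rw [← Coll.pv_swap, mul_comm]
  exact norm_pv_le w x ω

lemma integrable_pv {n : ℕ} {φ : E → ℝ} (h : φ ∈ PV n) (x : E) :
    Integrable (fun q : E × Sph => φ (pv x q.1 q.2)) (gam.prod sb) := by
  have hc := (PV_continuous φ h).measurable
  obtain ⟨C, hC, hb⟩ := PV_growth φ h
  refine (((integrable_pow_gam n).const_mul (C * (1 + ‖x‖) ^ n)).comp_fst sb).mono'
    (Measurable.aestronglyMeasurable (by fun_prop)) (ae_of_all _ fun q => ?_)
  refine (hb _).trans ?_
  rw [mul_assoc, ← mul_pow]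
  gcongr
  exact norm_pv_le x q.1 q.2

lemma integrable_pw {n : ℕ} {φ : E → ℝ} (h : φ ∈ PV n) (x : E) :
    Integrable (fun q : E × Sph => φ (pw x q.1 q.2)) (gam.prod sb) := by
  have hc := (PV_continuous φ h).measurable
  obtain ⟨C, hC, hb⟩ := PV_growth φ h
  refine (((integrable_pow_gam n).const_mul (C * (1 + ‖x‖) ^ n)).comp_fst sb).mono'
    (Measurable.aestronglyMeasurable (by fun_prop)) (ae_of_all _ fun q => ?_)
  refine (hb _).trans ?_
  rw [mul_assoc, ← mul_pow]
  gcongr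
  exact norm_pw_le x q.1 q.2

lemma integrable_pvw {n : ℕ} {φ : E → ℝ} (h : φ ∈ PV n) (x : E) :
    Integrable (fun q : E × Sph => φ (pv x q.1 q.2) + φ (pw x q.1 q.2)) (gam.prod sb) :=
  (integrable_pv h x).add (integrable_pw h x)

lemma Tf_mem {n : ℕ} {φ : E → ℝ} (h : φ ∈ PV n) : Tf φ ∈ PV n := by
  refine integral_mem (PV n) (gam.prod sb)
    (fun (q : E × Sph) x => φ (pv x q.1 q.2) + φ (pw x q.1 q.2)) (fun q => ?_)
    (fun x => integrable_pvw h x)
  simp only [pv_eq, pw_eq]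
  exact Submodule.add_mem _ (comp_affine_mem _ _ φ h) (comp_affine_mem _ _ φ h)

lemma Tf_add {n : ℕ} {φ ψ : E → ℝ} (h : φ ∈ PV n) (h' : ψ ∈ PV n) :
    Tf (φ + ψ) = Tf φ + Tf ψ := by
  funext x
  simp only [Tf, Pi.add_apply]
  rw [← integral_add (integrable_pvw h x) (integrable_pvw h' x)]
  congr 1; funext q
  ring

lemma Tf_smul (c : ℝ) (φ : E → ℝ) : Tf (c • φ) = c • Tf φ := by
  funext x
  simp only [Tf, Pi.smul_apply, smul_eq_mul, ← mul_add, integral_const_mul]

lemma Tf_mem_PL {n : ℕ} {φ : E → ℝ} (h : φ ∈ PL n) : Tf φ ∈ PL n := by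
  cases n with
  | zero =>
    have : φ = 0 := (Submodule.mem_bot ℝ).1 h
    have h0 := Tf_smul 0 φ
    rw [zero_smul, zero_smul] at h0
    rw [this, h0]
    exact Submodule.zero_mem _
  | succ n => exact Tf_mem h

lemma Tf_sub_T1_mem {n : ℕ} {φ : E → ℝ} (h : φ ∈ PV n) : Tf φ - T1 φ ∈ PL n := by
  have hc := PV_continuous φ h
  have hi : ∀ x : E, Integrable (fun q : E × Sph =>
      φ (x - ⟪x, (q.2 : E)⟫ • (q.2 : E)) + φ (⟪x, (q.2 : E)⟫ • (q.2 : E))) (gam.prod sb) :=
    fun x => (integrable_sph sb (f := fun ω : Sph =>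
      φ (x - ⟪x, (ω : E)⟫ • (ω : E)) + φ (⟪x, (ω : E)⟫ • (ω : E))) (by fun_prop)).comp_snd gam
  have h1 := integral_mem (PL n) (gam.prod sb)
    (fun (q : E × Sph) x => (φ (pv x q.1 q.2) + φ (pw x q.1 q.2)) -
      (φ (x - ⟪x, (q.2 : E)⟫ • (q.2 : E)) + φ (⟪x, (q.2 : E)⟫ • (q.2 : E)))) (fun q => ?_)
    (fun x => (integrable_pvw h x).sub (hi x))
  · convert h1 using 1
    funext x
    rw [integral_sub (integrable_pvw h x) (hi x),
      integral_fun_snd (fun ω : Sph =>
        φ (x - ⟪x, (ω : E)⟫ • (ω : E)) + φ (⟪x, (ω : E)⟫ • (ω : E)))]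
    simp [Tf, T1]
  · have h2 := diff_mem (ContinuousLinearMap.id ℝ E - par q.2) (⟪q.1, (q.2 : E)⟫ • (q.2 : E)) φ h
    have h3 := diff_mem (par q.2) (q.1 - ⟪q.1, (q.2 : E)⟫ • (q.2 : E)) φ h
    convert Submodule.add_mem _ h2 h3 using 1
    funext x
    simp only [pv_eq, pw_eq, Pi.add_apply, sub_apply, ContinuousLinearMap.id_apply, par_apply]
    ring

lemma homog_T1 {n : ℕ} {P : E → ℝ} (hH : Homog n P) : Homog n (T1 P) := by
  intro t x
  simp only [T1, ← integral_const_mul]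
  congr 1; funext ω
  rw [inner_smul_left, mul_add, ← hH, ← hH]
  simp [smul_sub, smul_smul]

/-- The collision invariants. -/
def Inv : Submodule ℝ (E → ℝ) := PV 1 ⊔ Submodule.span ℝ {fun v : E => ‖v‖ ^ 2}

lemma Inv_le : Inv ≤ PV 2 :=
  sup_le (PV_mono (by norm_num)) ((Submodule.span_singleton_le_iff_mem _ _).2 normSq_mem)

lemma eigen_bound : ∃ δ : ℝ, 0 < δ ∧ ∀ (N : ℕ) (μ : ℝ) (φ : E → ℝ), φ ∈ PV N → φ ∉ Inv →
    Tf φ = μ • φ → μ ≤ 1 - δ := by
  obtain ⟨δ, hδ0, hδ⟩ := exists_delta sb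
  refine ⟨δ, hδ0, fun N μ => ?_⟩
  induction N with
  | zero =>
    intro φ h hI _
    exact absurd (Submodule.mem_sup_left (PV_mono (Nat.zero_le 1) h)) hI
  | succ n ih =>
    intro φ h hI hT
    obtain ⟨P, hP, hH, hr⟩ := exists_top φ h
    by_cases hP0 : P = 0
    · rw [hP0, sub_zero] at hr
      exact ih φ hr hI hT
    have htop : μ • P - T1 P = 0 := by
      refine homog_eq_zero (n := n + 1) ?_ fun t x => ?_
      · have h1 : Tf φ = Tf P + Tf (φ - P) := by
          rw [← Tf_add hP (PL_le _ hr)]; congr 1; abel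
        have h2 : μ • P - T1 P = (Tf P - T1 P) + Tf (φ - P) - μ • (φ - P) := by
          rw [smul_sub, ← hT, h1]; abel
        rw [h2]
        exact Submodule.sub_mem _ (Submodule.add_mem _ (Tf_sub_T1_mem hP) (Tf_mem_PL hr))
          (Submodule.smul_mem _ _ hr)
      · simp only [Pi.sub_apply, Pi.smul_apply, smul_eq_mul, hH t x, homog_T1 hH t x]
        ring
    have hμ : ∀ x, μ * P x = T1 P x := fun x => by
      have := congrFun htop x
      simpa [sub_eq_zero] using this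
    rcases Nat.lt_trichotomy n 1 with hn | hn | hn
    · obtain rfl : n = 0 := by omega
      exact absurd (Submodule.mem_sup_left h) hI
    · subst hn
      rcases top_two hδ (PV_continuous P hP) hH hμ with h1 | ⟨c, hc⟩
      · exact h1
      · exfalso
        apply hI
        have : φ = (φ - P) + c • fun v : E => ‖v‖ ^ 2 := by
          funext v; simp [hc v]
        rw [this]
        exact Submodule.add_mem _ (Submodule.mem_sup_left hr) (Submodule.mem_sup_right
          (Submodule.smul_mem _ _ (Submodule.mem_span_singleton_self _)))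
    · exact top_high hδ (by omega) (PV_continuous P hP) hH hP0 hμ

lemma Inv_repr {ψ : E → ℝ} (h : ψ ∈ Inv) :
    ∃ (c d : ℝ) (b : Ix → ℝ), ∀ v, ψ v = c + ∑ j, b j * v j + d * ‖v‖ ^ 2 := by
  obtain ⟨y, hy, z, hz, rfl⟩ := Submodule.mem_sup.1 h
  obtain ⟨c, b, hb⟩ := PV_one_repr y hy
  obtain ⟨d, rfl⟩ := Submodule.mem_span_singleton.1 hz
  exact ⟨c, d, b, fun v => by simp [hb v]⟩

lemma Inv_coll {ψ : E → ℝ} (h : ψ ∈ Inv) (v w : E) (ω : Sph) :
    ψ (pv v w ω) + ψ (pw v w ω) = ψ v + ψ w := by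
  obtain ⟨c, d, b, hb⟩ := Inv_repr h
  have h1 := Coll.energy v w ω
  have h2 : ∀ j, (pv v w ω) j + (pw v w ω) j = v j + w j := fun j => by
    have := congrArg (fun z : E => z j) (Coll.pv_add_pw v w ω)
    simpa using this
  have h3 : ∑ j, b j * (pv v w ω) j + ∑ j, b j * (pw v w ω) j =
      ∑ j, b j * v j + ∑ j, b j * w j := by
    rw [← Finset.sum_add_distrib, ← Finset.sum_add_distrib]
    exact Finset.sum_congr rfl fun j _ => by rw [← mul_add, ← mul_add, h2 j]
  simp only [hb]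
  linear_combination d * h1 + h3

lemma Tf_mem_Inv {ψ : E → ℝ} (h : ψ ∈ Inv) : Tf ψ ∈ Inv := by
  have hi : Integrable ψ gam := (memLp_PV (Inv_le h)).integrable (by norm_num)
  have : Tf ψ = ψ + fun _ => ∫ w, ψ w ∂gam := by
    funext x
    simp only [Tf, Inv_coll h, Pi.add_apply]
    rw [integral_add (integrable_const _) (hi.comp_fst sb), integral_fun_fst ψ]
    simp
  rw [this]
  exact Submodule.add_mem _ h (Submodule.mem_sup_left (const_mem 1 _))

end Pool.Agent.BoltzD.Gap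

end
end MrgPart0

-- ======== part 1: formerly Pool.Agent.BoltzD.Coll.Op
section MrgPart1

-- ======== part 0: formerly Pool.Agent.BoltzD.Corr.Main
section MrgPart0

/-!
Solvability of the linearised collision equation in Schwartz space (statement C7).
-/

set_option autoImplicit false

open MeasureTheory SchwartzMap Pool.Agent.BoltzC Filter Topology

noncomputable section

namespace Pool.Agent.BoltzD.Corr

variable [Dim]

lemma exists_galerkin (V : Submodule ℝ SV) [FiniteDimensional ℝ V] (B : SV →ₗ[ℝ] SV →ₗ[ℝ] ℝ)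
    (hB : ∀ x ∈ V, B x x = 0 → x = 0) (l : SV →ₗ[ℝ] ℝ) : ∃ x ∈ V, ∀ y ∈ V, B x y = l y := by
  let T : V →ₗ[ℝ] Module.Dual ℝ V := B.compl₁₂ V.subtype V.subtype
  have hinj : Function.Injective T := by
    rw [injective_iff_map_eq_zero]
    intro x hx
    exact Subtype.ext (hB x x.2 (LinearMap.congr_fun hx x))
  have hsurj : Function.Surjective T :=
    (LinearMap.injective_iff_surjective_of_finrank_eq_finrank
      (Subspace.dual_finrank_eq (K := ℝ) (V := V)).symm).1 hinj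
  obtain ⟨x, hx⟩ := hsurj (l.comp V.subtype)
  exact ⟨x, x.2, fun y hy => LinearMap.congr_fun hx ⟨y, hy⟩⟩

lemma eq_zero_of_ip_HP {f : SV} (h : ∀ n, ∀ g ∈ HP n, ip f g = 0) : f = 0 := by
  have h0 := hermite_complete (f.memLp 2 volume) h
  have h1 : (f : E → ℝ) = 0 := Measure.eq_of_ae_eq h0 f.continuous continuous_zero
  ext v
  exact congrFun h1 v

variable (G : SV →ₗ[ℝ] SV →ₗ[ℝ] SV)

/-- Lower order operators. -/
inductive LO (m : ℕ) : (SV → SV) → Prop
  | zero : LO m fun _ => 0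
  | base (h : SV) (u : List Ix) (hu : u.length < m) : LO m fun g => G h (apW u g)
  | add {X Y : SV → SV} : LO m X → LO m Y → LO m fun g => X g + Y g

variable {G}

lemma LO.ap_comp (leib : ∀ j f g, ap j (G f g) = G (ap j f) g + G f (ap j g)) {m : ℕ}
    {X : SV → SV} (hX : LO G m X) (j : Ix) : LO G (m + 1) fun g => ap j (X g) := by
  induction hX with
  | zero => simpa using LO.zero
  | base h u hu =>
    simp only [leib]
    exact LO.add (LO.base _ u (by omega)) (LO.base h (j :: u) (by simpa using hu))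
  | add _ _ h1 h2 =>
    simp only [map_add]
    exact LO.add h1 h2

lemma exists_comm (leib : ∀ j f g, ap j (G f g) = G (ap j f) g + G f (ap j g))
    {L : SV →L[ℝ] SV} (L_eq : ∀ f, L f = -G sqMS f) (w : List Ix) :
    ∃ X, LO G w.length X ∧ ∀ g, apW w (L g) = L (apW w g) + X g := by
  induction w with
  | nil => exact ⟨fun _ => 0, LO.zero, fun g => by simp⟩
  | cons j w ih =>
    obtain ⟨X, hX, h⟩ := ih
    refine ⟨fun g => G (-ap j sqMS) (apW w g) + ap j (X g),
      LO.add (LO.base _ w (by simp)) (hX.ap_comp leib j), fun g => ?_⟩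
    beta_reduce
    rw [apW_cons, h, map_add, L_eq, L_eq, map_neg, leib, apW_cons, map_neg, LinearMap.neg_apply]
    abel

section Main

variable {L : SV →L[ℝ] SV} {p : ℕ}

/-- Sum of the dissipation norms at level `m`. -/
def Yq (L : SV →L[ℝ] SV) (m : ℕ) (g : SV) : ℝ :=
  ∑ w ∈ words m, (ip (L (apW w g)) (apW w g) + ip (apW w g) (apW w g))

lemma LO.bound (symm : ∀ f g, G f g = G g f) (hD : ∀ f, 0 ≤ ip (L f) f)
    (tri : ∃ C : ℝ, 0 < C ∧ ∀ g h f,
      |ip (G g h) f| ≤ C * √(nA p h) * √(ip (L g) g + ip g g) * √(ip (L f) f))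
    {m : ℕ} {X : SV → SV} (hX : LO G m X) : ∃ C : ℝ, 0 ≤ C ∧ ∀ g f,
      |ip (X g) f| ≤ C * √(∑ j ∈ Finset.range m, Yq L j g) * √(ip (L f) f) := by
  have hq : ∀ f, 0 ≤ ip (L f) f + ip f f := fun f => add_nonneg (hD f) (ip_self_nonneg f)
  have hY : ∀ j g, 0 ≤ Yq L j g := fun j g => Finset.sum_nonneg fun w _ => hq _
  induction hX with
  | zero => exact ⟨0, le_rfl, fun g f => by simp⟩
  | base h u hu =>
    obtain ⟨C, hC, ht⟩ := tri
    refine ⟨C * √(nA p h), by positivity, fun g f => ?_⟩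
    beta_reduce
    rw [symm]
    refine (ht _ _ _).trans ?_
    gcongr
    calc _ ≤ Yq L u.length g :=
          Finset.single_le_sum
            (f := fun w => ip (L (apW w g)) (apW w g) + ip (apW w g) (apW w g))
            (fun w _ => hq _) (mem_words.2 rfl)
      _ ≤ _ := Finset.single_le_sum (f := fun j => Yq L j g) (fun j _ => hY j g)
            (Finset.mem_range.2 hu)
  | add _ _ h1 h2 =>
    obtain ⟨C, hC, h1⟩ := h1
    obtain ⟨C', hC', h2⟩ := h2
    refine ⟨C + C', add_nonneg hC hC', fun g f => ?_⟩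
    rw [map_add, LinearMap.add_apply]
    refine (abs_add_le _ _).trans ?_
    linarith [h1 g f, h2 g f]

lemma mul_sqrt_le {a D : ℝ} (hD : 0 ≤ D) : a * √D ≤ D / 2 + a ^ 2 / 2 := by
  nlinarith [sq_nonneg (√D - a), Real.sq_sqrt hD]

theorem corrector (symm : ∀ f g, G f g = G g f)
    (leib : ∀ j f g, ap j (G f g) = G (ap j f) g + G f (ap j g))
    (hyd : ∀ f g, PP (G f g) = 0) (L_eq : ∀ f, L f = -G sqMS f)
    (L_symm : ∀ f g, ip (L f) g = ip f (L g))
    (gap : ∃ lam : ℝ, 0 < lam ∧ ∀ f, lam * ip (f - PP f) (f - PP f) ≤ ip (L f) f)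
    (tri : ∃ C : ℝ, 0 < C ∧ ∀ g h f,
      |ip (G g h) f| ≤ C * √(nA p h) * √(ip (L g) g + ip g g) * √(ip (L f) f))
    (S : SV) (hS : PP S = 0) : ∃ Φ, PP Φ = 0 ∧ L Φ = S := by
  obtain ⟨lam, hlam, hgap⟩ := gap
  have hD : ∀ f, 0 ≤ ip (L f) f := fun f =>
    (mul_nonneg hlam.le (ip_self_nonneg _)).trans (hgap f)
  have hPL : ∀ f, PP (L f) = 0 := fun f => by rw [L_eq, map_neg, hyd, neg_zero]
  have hgap' : ∀ f, PP f = 0 → lam * ip f f ≤ ip (L f) f := fun f hf => by
    have := hgap f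
    rwa [hf, sub_zero] at this
  have hgal : ∀ n : ℕ, ∃ Φ ∈ HP (n + 2), PP Φ = 0 ∧ ∀ ψ ∈ HP (n + 2), ip (L Φ) ψ = ip S ψ := by
    intro n
    obtain ⟨Φ, hΦ, h⟩ := exists_galerkin (HP (n + 2) ⊓ LinearMap.ker (PP : SV →ₗ[ℝ] SV))
      (ip.comp (L : SV →ₗ[ℝ] SV)) (fun x hx h0 => by
        have h1 := hgap' x hx.2
        have h2 : ip (L x) x = 0 := h0
        refine ip_self_eq_zero (le_antisymm ?_ (ip_self_nonneg x))
        rw [h2] at h1
        exact nonpos_of_mul_nonpos_right h1 hlam) (ip S)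
    refine ⟨Φ, hΦ.1, hΦ.2, fun ψ hψ => ?_⟩
    have h1 : ip (L Φ) (ψ - PP ψ) = ip S (ψ - PP ψ) :=
      h (ψ - PP ψ) ⟨Submodule.sub_mem _ hψ (HP_mono (by omega) (PP_mem ψ)), PP_sub_PP ψ⟩
    rwa [map_sub, map_sub, ← ip_PP, ← ip_PP, hPL, hS, map_zero, LinearMap.zero_apply, sub_zero,
      sub_zero] at h1
  choose Φ hΦ hP hE using hgal
  -- the basic bound
  have h0 : ∀ n, √(ip (Φ n) (Φ n)) ≤ √(ip S S) / lam := by
    intro n
    have h1 := hgap' _ (hP n)
    rw [hE n _ (hΦ n)] at h1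
    have h2 := (le_abs_self _).trans (abs_ip_le S (Φ n))
    have h3 := Real.mul_self_sqrt (ip_self_nonneg (Φ n))
    rw [le_div_iff₀ hlam]
    by_cases h4 : √(ip (Φ n) (Φ n)) = 0
    · rw [h4, zero_mul]; positivity
    · have h5 : 0 < √(ip (Φ n) (Φ n)) := lt_of_le_of_ne (Real.sqrt_nonneg _) (Ne.symm h4)
      refine le_of_mul_le_mul_right ?_ h5
      nlinarith
  have h0' : ∀ n, ip (Φ n) (Φ n) ≤ (√(ip S S) / lam) ^ 2 := fun n => by
    rw [← Real.sq_sqrt (ip_self_nonneg (Φ n))]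
    gcongr
    exact h0 n
  -- bounds at every level
  have hlev : ∀ m, ∃ C : ℝ, ∀ n, ∑ j ∈ Finset.range m, Yq L j (Φ n) ≤ C := by
    intro m
    induction m with
    | zero => exact ⟨0, fun n => by simp⟩
    | succ m ih =>
      obtain ⟨C0, hC0⟩ := ih
      choose X hX hXe using exists_comm leib L_eq
      choose CX hCX0 hCX using fun w => (hX w).bound symm hD tri
      choose CP hCP0 hCP using PP_apW_le
      set B := √(ip S S) / lam with hB
      refine ⟨C0 + ((1 + lam⁻¹) * (2 * (√(ip (RR m S) (RR m S)) * B) +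
        ∑ w ∈ words m, (CX w * √C0) ^ 2) + ∑ w ∈ words m, CP w * B ^ 2), fun n => ?_⟩
      rw [Finset.sum_range_succ]
      gcongr
      · exact hC0 n
      set g := Φ n with hg
      have e1 : ∑ w ∈ words m, ip (L (apW w g)) (apW w g) =
          ip (RR m S) g - ∑ w ∈ words m, ip (X w g) (apW w g) := by
        rw [ip_RR_symm, ← hE n _ (RR_mem m (hΦ n)), ip_RR, ← Finset.sum_sub_distrib]
        refine Finset.sum_congr rfl fun w _ => ?_
        rw [hXe, map_add, LinearMap.add_apply]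
        ring
      have e2 : ∀ w ∈ words m, -ip (X w g) (apW w g) ≤
          ip (L (apW w g)) (apW w g) / 2 + (CX w * √C0) ^ 2 / 2 := by
        intro w hw
        refine (neg_le_abs _).trans ((hCX w g _).trans (le_trans ?_ (mul_sqrt_le (hD _))))
        have := hCX0 w
        rw [mem_words.1 hw]
        gcongr
        exact hC0 n
      have e3 : ip (RR m S) g ≤ √(ip (RR m S) (RR m S)) * B := by
        refine (le_abs_self _).trans ((abs_ip_le _ _).trans ?_)
        gcongr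
        exact h0 n
      have e4 : ∑ w ∈ words m, ip (L (apW w g)) (apW w g) ≤
          2 * (√(ip (RR m S) (RR m S)) * B) + ∑ w ∈ words m, (CX w * √C0) ^ 2 := by
        have := Finset.sum_le_sum e2
        rw [Finset.sum_add_distrib, ← Finset.sum_div, ← Finset.sum_div,
          Finset.sum_neg_distrib] at this
        linarith
      have e5 : ∀ w ∈ words m, ip (L (apW w g)) (apW w g) + ip (apW w g) (apW w g) ≤
          (1 + lam⁻¹) * ip (L (apW w g)) (apW w g) + CP w * B ^ 2 := by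
        intro w _
        have h1 := ip_split (apW w g)
        have h2 := hgap (apW w g)
        have h3 : ip (apW w g - PP (apW w g)) (apW w g - PP (apW w g)) ≤
            lam⁻¹ * ip (L (apW w g)) (apW w g) := by
          rw [← div_eq_inv_mul, le_div_iff₀ hlam, mul_comm]; exact h2
        have h4 := (hCP w g).trans (mul_le_mul_of_nonneg_left (h0' n) (hCP0 w))
        linarith
      refine (Finset.sum_le_sum e5).trans ?_
      rw [Finset.sum_add_distrib, ← Finset.mul_sum]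
      gcongr
  have hbd : ∀ m, ∃ C, ∀ n, nA m (Φ n) ≤ C := by
    intro m
    obtain ⟨C, hC⟩ := hlev (m + 1)
    refine ⟨C, fun n => le_trans ?_ (hC n)⟩
    have hY : ∀ j, 0 ≤ Yq L j (Φ n) := fun j =>
      Finset.sum_nonneg fun w _ => add_nonneg (hD _) (ip_self_nonneg _)
    refine le_trans ?_ (Finset.single_le_sum (f := fun j => Yq L j (Φ n)) (fun j _ => hY j)
      (Finset.mem_range.2 (Nat.lt_succ_self m)))
    exact Finset.sum_le_sum fun w _ => le_add_of_nonneg_left (hD _)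
  -- monotonicity of the dissipation
  set d : ℕ → ℝ := fun n => ip (L (Φ n)) (Φ n) with hd
  have hdiff : ∀ a b, b ≤ a → ip (L (Φ a - Φ b)) (Φ a - Φ b) = d a - d b := by
    intro a b hab
    have h1 : ip (L (Φ a)) (Φ b) = d b := by
      rw [hE a _ (HP_mono (by omega) (hΦ b)), ← hE b _ (hΦ b)]
    have h2 : ip (L (Φ b)) (Φ a) = d b := by rw [L_symm, ip_comm, h1]
    simp only [map_sub, LinearMap.sub_apply, h1, h2, hd]
    ring
  have hmono : Monotone d := fun b a hab => by linarith [hdiff a b hab, hD (Φ a - Φ b)]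
  have hbdd : BddAbove (Set.range d) := by
    refine ⟨√(ip S S) * (√(ip S S) / lam), ?_⟩
    rintro _ ⟨n, rfl⟩
    simp only [hd]
    rw [hE n _ (hΦ n)]
    refine (le_abs_self _).trans ((abs_ip_le _ _).trans ?_)
    gcongr
    exact h0 n
  have hcau := Metric.cauchySeq_iff.1 (tendsto_atTop_ciSup hmono hbdd).cauchySeq
  obtain ⟨g, hg⟩ := exists_limit_of_bdd Φ hbd fun ε hε => by
    obtain ⟨N, hN⟩ := hcau (lam * ε) (by positivity)
    have key : ∀ a ≥ N, ∀ b ≥ N, b ≤ a → nA 0 (Φ a - Φ b) ≤ ε := by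
      intro a ha b hb hab
      have h1 := hgap' (Φ a - Φ b) (by rw [map_sub, hP, hP, sub_zero])
      rw [hdiff a b hab] at h1
      have h2 := (le_abs_self _).trans (hN a ha b hb).le
      rw [nA_zero]
      exact le_of_mul_le_mul_left (h1.trans h2) hlam
    refine ⟨N, fun a ha b hb => ?_⟩
    rcases le_total b a with h | h
    · exact key a ha b hb h
    · rw [nA_sub_comm]; exact key b hb a ha h
  refine ⟨g, ?_, ?_⟩
  · have h1 := (PP.continuous.tendsto g).comp hg
    have h2 : (PP ∘ Φ) = fun _ => 0 := funext hP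
    rw [h2] at h1
    exact tendsto_nhds_unique h1 tendsto_const_nhds
  · rw [← sub_eq_zero]
    refine eq_zero_of_ip_HP fun n ψ hψ => ?_
    have h1 := (((ipL ψ).comp L).continuous.tendsto g).comp hg
    have h2 : (((ipL ψ).comp L) ∘ Φ) =ᶠ[atTop] fun _ => ip ψ S := by
      filter_upwards [eventually_ge_atTop n] with a ha
      change ip ψ (L (Φ a)) = _
      rw [ip_comm, hE a ψ (HP_mono (by omega) hψ), ip_comm]
    have h3 : ip ψ (L g) = ip ψ S := tendsto_nhds_unique (h1.congr' h2) tendsto_const_nhds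
    rw [ip_comm, map_sub, h3, sub_self]

end Main

end Pool.Agent.BoltzD.Corr

end
end MrgPart0

-- ======== part 1: formerly Pool.Agent.BoltzD.Gap.Hilb
section MrgPart1

/-!
The spectral gap of the collision form with constant kernel, in the Gaussian `L²` space.
-/

set_option autoImplicit false

open MeasureTheory Pool.Agent.BoltzC Filter Topology
open scoped RealInnerProductSpace ENNReal

noncomputable section

namespace Pool.Agent.BoltzD

variable [Dim]

/-- Completeness of the Hermite functions. -/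
def HermComplete : Prop :=
  ∀ f : E → ℝ, MemLp f 2 volume → (∀ n, ∀ h ∈ HP n, ∫ v, f v * h v = 0) → f =ᵐ[volume] 0

namespace Gap

open Coll (sph mu2 mu3 pv pw coll swp)

/-- One-particle space. -/
abbrev HH : Type := Lp ℝ 2 gam

/-- Collision space. -/
abbrev KK : Type := Lp ℝ 2 nu

/-- Composition with a measure preserving map. -/
def UU {f : E × E × Sph → E} (hf : MeasurePreserving f nu gam) : HH →L[ℝ] KK :=
  (Lp.compMeasurePreservingₗᵢ ℝ f hf).toContinuousLinearMap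

lemma UU_coe {f : E × E × Sph → E} (hf : MeasurePreserving f nu gam) (u : HH) :
    UU hf u =ᵐ[nu] fun p => u (f p) := Lp.coeFn_compMeasurePreserving u hf

lemma norm_UU {f : E × E × Sph → E} (hf : MeasurePreserving f nu gam) (u : HH) :
    ‖UU hf u‖ = ‖u‖ := Lp.norm_compMeasurePreserving u hf

lemma inner_Lp {X : Type} [MeasurableSpace X] {μ : Measure X} (a b : Lp ℝ 2 μ) {f g : X → ℝ}
    (ha : a =ᵐ[μ] f) (hb : b =ᵐ[μ] g) : ⟪a, b⟫ = ∫ x, f x * g x ∂μ := by
  rw [L2.inner_def]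
  apply integral_congr_ae
  filter_upwards [ha, hb] with x h1 h2
  rw [h1, h2]; simp [mul_comm]

lemma inner_UU {f g : E × E × Sph → E} (hf : MeasurePreserving f nu gam)
    (hg : MeasurePreserving g nu gam) (u u' : HH) :
    ⟪UU hf u, UU hg u'⟫ = ∫ p, u (f p) * u' (g p) ∂nu :=
  inner_Lp _ _ (UU_coe hf u) (UU_coe hg u')

lemma s31 (u u' : HH) : ⟪UU mp_three u, UU mp_one u'⟫ = ⟪UU mp_one u, UU mp_three u'⟫ := by
  rw [inner_UU, inner_UU, ← integral_coll]
  simp only [coll, Coll.pv_pv]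

lemma s32 (u u' : HH) : ⟪UU mp_three u, UU mp_two u'⟫ = ⟪UU mp_four u, UU mp_one u'⟫ := by
  rw [inner_UU, inner_UU, ← integral_swp]
  simp only [swp, Coll.pv_swap]

lemma s42 (u u' : HH) : ⟪UU mp_four u, UU mp_two u'⟫ = ⟪UU mp_three u, UU mp_one u'⟫ := by
  rw [inner_UU, inner_UU, ← integral_swp]
  simp only [swp, Coll.pw_swap]

lemma s41 (u u' : HH) : ⟪UU mp_four u, UU mp_one u'⟫ = ⟪UU mp_one u, UU mp_four u'⟫ := by
  rw [real_inner_comm (UU mp_four u'), ← s32 u' u, inner_UU, inner_UU, ← integral_coll]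
  simp only [coll, Coll.pw_pw, mul_comm]

lemma s34 (u u' : HH) : ⟪UU mp_three u, UU mp_four u'⟫ = ⟪UU mp_one u, UU mp_two u'⟫ := by
  rw [inner_UU, inner_UU, ← integral_coll]
  simp only [coll, Coll.pv_pv, Coll.pw_pw]

lemma s12 (u : HH) : 0 ≤ ⟪UU mp_one u, UU mp_two u⟫ := by
  rw [inner_UU, nu, integral_prod_mul (fun v => u v) (fun q : E × Sph => u q.1),
    integral_fun_fst (fun v => u v)]
  simpa using mul_self_nonneg _

/-- The collisional increment as an operator. -/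
def AA : HH →L[ℝ] KK := UU mp_three + UU mp_four - UU mp_one - UU mp_two

lemma norm_AA_ge (u : HH) :
    4 * ‖u‖ ^ 2 - 4 * ⟪UU mp_three u + UU mp_four u, UU mp_one u⟫ ≤ ‖AA u‖ ^ 2 := by
  have h1 : ⟪UU mp_one u, UU mp_one u⟫ = ‖u‖ ^ 2 := by rw [real_inner_self_eq_norm_sq, norm_UU]
  have h2 : ⟪UU mp_two u, UU mp_two u⟫ = ‖u‖ ^ 2 := by rw [real_inner_self_eq_norm_sq, norm_UU]
  have h3 : ⟪UU mp_three u, UU mp_three u⟫ = ‖u‖ ^ 2 := by
    rw [real_inner_self_eq_norm_sq, norm_UU]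
  have h4 : ⟪UU mp_four u, UU mp_four u⟫ = ‖u‖ ^ 2 := by rw [real_inner_self_eq_norm_sq, norm_UU]
  have h5 := s32 u u
  have h6 := s42 u u
  have h7 := s34 u u
  have h8 := s12 u
  rw [← real_inner_self_eq_norm_sq (AA u)]
  simp only [AA, sub_apply, add_apply, inner_add_left, inner_add_right, inner_sub_left,
    inner_sub_right]
  rw [real_inner_comm (UU mp_three u) (UU mp_four u), real_inner_comm (UU mp_three u) (UU mp_one u),
    real_inner_comm (UU mp_four u) (UU mp_one u), real_inner_comm (UU mp_three u) (UU mp_two u),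
    real_inner_comm (UU mp_four u) (UU mp_two u), real_inner_comm (UU mp_one u) (UU mp_two u)]
  linarith

/-- Polynomial functions as elements of the Gaussian `L²` space. -/
def JJ (N : ℕ) : PV N →ₗ[ℝ] HH where
  toFun φ := (memLp_PV φ.2).toLp φ
  map_add' _ _ := MemLp.toLp_add _ _
  map_smul' _ _ := MemLp.toLp_const_smul _ _

lemma JJ_coe (N : ℕ) (φ : PV N) : JJ N φ =ᵐ[gam] φ := (memLp_PV φ.2).coeFn_toLp

lemma JJ_eq {N M : ℕ} (φ : PV N) (ψ : PV M) (h : (φ : E → ℝ) = ψ) : JJ N φ = JJ M ψ := by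
  apply Lp.ext
  filter_upwards [JJ_coe N φ, JJ_coe M ψ] with v h1 h2
  rw [h1, h2, h]

lemma JJ_injective (N : ℕ) : Function.Injective (JJ N) := by
  intro φ ψ h
  apply Subtype.ext
  refine Measure.eq_of_ae_eq (μ := gam) ?_ (PV_continuous _ φ.2) (PV_continuous _ ψ.2)
  filter_upwards [JJ_coe N φ, JJ_coe N ψ] with v h1 h2
  rw [← h1, ← h2, h]

/-- The averaging operator on polynomials of degree at most `N`. -/
def TT (N : ℕ) : PV N →ₗ[ℝ] PV N where
  toFun φ := ⟨Tf φ, Tf_mem φ.2⟩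
  map_add' φ ψ := Subtype.ext (Tf_add φ.2 ψ.2)
  map_smul' c φ := Subtype.ext (Tf_smul c φ)

lemma UU_JJ_coe {f : E × E × Sph → E} (hf : MeasurePreserving f nu gam) (N : ℕ) (φ : PV N) :
    UU hf (JJ N φ) =ᵐ[nu] fun p => (φ : E → ℝ) (f p) :=
  (UU_coe hf _).trans (hf.quasiMeasurePreserving.ae_eq_comp (JJ_coe N φ))

lemma inner_JJ_TT {N : ℕ} (φ : PV N) (u : HH) :
    ⟪JJ N (TT N φ), u⟫ = ⟪UU mp_three (JJ N φ) + UU mp_four (JJ N φ), UU mp_one u⟫ := by
  have h1 : (UU mp_three (JJ N φ) + UU mp_four (JJ N φ) : KK) =ᵐ[nu] fun p =>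
      (φ : E → ℝ) (pv p.1 p.2.1 p.2.2) + (φ : E → ℝ) (pw p.1 p.2.1 p.2.2) := by
    filter_upwards [Lp.coeFn_add (UU mp_three (JJ N φ)) (UU mp_four (JJ N φ)),
      UU_JJ_coe mp_three N φ, UU_JJ_coe mp_four N φ] with p h h3 h4
    rw [h, Pi.add_apply, h3, h4]
  have hint : Integrable (fun p : E × E × Sph =>
      ((φ : E → ℝ) (pv p.1 p.2.1 p.2.2) + (φ : E → ℝ) (pw p.1 p.2.1 p.2.2)) * u p.1) nu := by
    have ha := (Lp.memLp (UU mp_three (JJ N φ) + UU mp_four (JJ N φ) : KK)).ae_eq h1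
    have hb := (Lp.memLp (UU mp_one u)).ae_eq (UU_coe mp_one u)
    exact ha.integrable_mul hb
  rw [inner_Lp _ _ (JJ_coe N _) EventuallyEq.rfl, inner_Lp _ _ h1 (UU_coe mp_one u)]
  rw [nu] at hint ⊢
  rw [integral_prod _ hint]
  congr 1; funext x
  simp only [integral_mul_const]
  rfl

lemma TT_symm {N : ℕ} (φ ψ : PV N) : ⟪JJ N (TT N φ), JJ N ψ⟫ = ⟪JJ N φ, JJ N (TT N ψ)⟫ := by
  rw [real_inner_comm (JJ N (TT N ψ)), inner_JJ_TT, inner_JJ_TT, inner_add_left, inner_add_left,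
    s31, s41, real_inner_comm (UU mp_three (JJ N ψ)), real_inner_comm (UU mp_four (JJ N ψ))]

/-- The collision invariants in the Gaussian `L²` space. -/
def InvH : Submodule ℝ HH := (Inv.comap (PV 2).subtype).map (JJ 2)

instance : FiniteDimensional ℝ InvH := by unfold InvH; infer_instance

lemma mem_InvH {N : ℕ} (φ : PV N) (h : (φ : E → ℝ) ∈ Inv) : JJ N φ ∈ InvH :=
  ⟨⟨φ, Inv_le h⟩, h, JJ_eq _ _ rfl⟩

lemma gap_poly : ∃ δ : ℝ, 0 < δ ∧ ∀ (N : ℕ) (φ : PV (N + 2)), JJ _ φ ∈ InvHᗮ →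
    4 * δ * ‖JJ _ φ‖ ^ 2 ≤ ‖AA (JJ _ φ)‖ ^ 2 := by
  obtain ⟨δ, hδ0, hδ⟩ := eigen_bound
  refine ⟨δ, hδ0, fun N φ hφ => ?_⟩
  set W : Submodule ℝ (PV (N + 2)) := InvHᗮ.comap (JJ _) with hW
  have hinv : ∀ x ∈ W, TT _ x ∈ W := by
    intro x hx
    rw [hW, Submodule.mem_comap, Submodule.mem_orthogonal']
    rintro _ ⟨ψ, hψ, rfl⟩
    have hψ' : (ψ : E → ℝ) ∈ Inv := hψ
    rw [JJ_eq ψ ⟨ψ, PV_mono (Nat.le_add_left 2 N) ψ.2⟩ rfl, TT_symm]
    exact (Submodule.mem_orthogonal' _ _).1 hx _ (mem_InvH _ (Tf_mem_Inv hψ'))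
  have h := sym_bound (W := W) (H := HH) ((JJ (N + 2)).comp W.subtype)
    ((JJ_injective _).comp Subtype.val_injective) ((TT _).restrict hinv)
    (fun x y => TT_symm x.1 y.1) (1 - δ) (fun μ x hx hT => ?_) ⟨φ, hφ⟩
  · have h1 := norm_AA_ge (JJ _ φ)
    rw [← inner_JJ_TT] at h1
    have h2 : ⟪JJ _ (TT _ φ), JJ _ φ⟫ ≤ (1 - δ) * ‖JJ _ φ‖ ^ 2 := h
    linarith
  · refine hδ (N + 2) μ x.1.1 x.1.2 (fun hI => hx ?_) ?_
    · have h0 : JJ _ x.1 = 0 :=
        inner_self_eq_zero.1 ((Submodule.mem_orthogonal' _ _).1 x.2 _ (mem_InvH _ hI))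
      apply Subtype.ext
      exact JJ_injective _ (h0.trans (map_zero _).symm)
    · exact congrArg (fun z : W => (z.1 : E → ℝ)) hT

lemma dense_poly (hC : HermComplete) :
    (⨆ N, LinearMap.range (JJ (N + 2))).topologicalClosure = ⊤ := by
  rw [Submodule.topologicalClosure_eq_top_iff, eq_bot_iff]
  intro u hu
  have hs := continuous_sqM
  have hm : AEStronglyMeasurable (u : E → ℝ) volume :=
    (Lp.aestronglyMeasurable u).mono_ac volume_ac_gam
  have hf : MemLp (fun v => u v * sqM v) 2 volume := by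
    refine (memLp_two_iff_integrable_sq (hm.mul hs.aestronglyMeasurable)).2 ?_
    have := integrable_gam.1 ((memLp_two_iff_integrable_sq (Lp.aestronglyMeasurable u)).1
      (Lp.memLp u))
    simpa only [Pi.mul_apply, mul_pow] using this
  have h0 := hC _ hf fun n h hh => by
    obtain ⟨φ, hφ, hφ'⟩ := exists_PV_of_HP h (HP_mono (Nat.le_add_right n 2) hh)
    have h1 := (Submodule.mem_orthogonal' _ _).1 hu (JJ _ ⟨φ, hφ⟩)
      (Submodule.mem_iSup_of_mem n (LinearMap.mem_range_self _ _))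
    rw [inner_Lp _ _ EventuallyEq.rfl (JJ_coe _ _), integral_gam] at h1
    have h2 := (mul_eq_zero.1 h1).resolve_left (inv_ne_zero Z_pos.ne')
    rw [← h2]
    congr 1; funext v
    rw [hφ']; ring
  rw [Submodule.mem_bot]
  apply Lp.ext
  have h1 : ∀ᵐ v ∂gam, u v * sqM v = 0 := (withDensity_absolutelyContinuous _ _).ae_le h0
  filter_upwards [h1, Lp.coeFn_zero ℝ 2 gam] with v h h'
  rw [h']
  exact (mul_eq_zero.1 h).resolve_right (sqM_pos v).ne'

theorem gap_L2 (hC : HermComplete) :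
    ∃ δ : ℝ, 0 < δ ∧ ∀ u ∈ InvHᗮ, 4 * δ * ‖u‖ ^ 2 ≤ ‖AA u‖ ^ 2 := by
  obtain ⟨δ, hδ0, hδ⟩ := gap_poly
  refine ⟨δ, hδ0, fun u hu => ?_⟩
  set Q := InvHᗮ.starProjection with hQ
  have hcl : IsClosed {u : HH | 4 * δ * ‖Q u‖ ^ 2 ≤ ‖AA (Q u)‖ ^ 2} :=
    isClosed_le (by fun_prop) (by fun_prop)
  have hdir : Directed (· ≤ ·) fun N => LinearMap.range (JJ (N + 2)) := by
    refine Monotone.directed_le fun a b hab => ?_
    rintro _ ⟨φ, rfl⟩
    exact ⟨⟨φ, PV_mono (by omega) φ.2⟩, JJ_eq _ _ rfl⟩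
  have hsub : ((⨆ N, LinearMap.range (JJ (N + 2)) : Submodule ℝ HH) : Set HH) ⊆
      {u : HH | 4 * δ * ‖Q u‖ ^ 2 ≤ ‖AA (Q u)‖ ^ 2} := by
    intro z hz
    obtain ⟨N, φ, rfl⟩ := (Submodule.mem_iSup_of_directed _ hdir).1 hz
    obtain ⟨ψ, -, hψ⟩ : InvH.starProjection (JJ _ φ) ∈ InvH := InvH.starProjection_apply_mem _
    have h1 : Q (JJ _ φ) = JJ _ (φ - ⟨ψ, PV_mono (Nat.le_add_left 2 N) ψ.2⟩) := by
      rw [hQ, Submodule.starProjection_orthogonal_val, map_sub, ← hψ]
      congr 1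
    have h2 : Q (JJ _ φ) ∈ InvHᗮ := InvHᗮ.starProjection_apply_mem _
    rw [Set.mem_ofPred_eq, h1]
    exact hδ N _ (h1 ▸ h2)
  have h1 : u ∈ closure ((⨆ N, LinearMap.range (JJ (N + 2)) : Submodule ℝ HH) : Set HH) := by
    rw [← Submodule.topologicalClosure_coe, dense_poly hC]; trivial
  have h2 := closure_minimal hsub hcl h1
  rwa [Set.mem_ofPred_eq, hQ, Submodule.starProjection_eq_self_iff.2 hu] at h2

end Gap

end Pool.Agent.BoltzD

end
end MrgPart1

-- ======== part 2: formerly Pool.Agent.BoltzD.Gap.Main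
section MrgPart2

/-!
The spectral gap of the linearised collision operator (statement C4).
-/

set_option autoImplicit false

open MeasureTheory Pool.Agent.BoltzC Filter Topology
open scoped RealInnerProductSpace ENNReal

noncomputable section

namespace Pool.Agent.BoltzD.Gap

variable [Dim]

open Coll (sph mu2 mu3 pv pw coll swp ker3 Inc Sym DL L2L Micro sM)

lemma lintegral_sq_eq {X : Type} [MeasurableSpace X] {μ : Measure X} (a : Lp ℝ 2 μ) {f : X → ℝ}
    (ha : a =ᵐ[μ] f) : ∫⁻ x, ENNReal.ofReal (f x ^ 2) ∂μ = ENNReal.ofReal (‖a‖ ^ 2) := by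
  have hf : MemLp f 2 μ := (Lp.memLp a).ae_eq ha
  rw [← real_inner_self_eq_norm_sq, inner_Lp a a ha ha,
    ← ofReal_integral_eq_lintegral_ofReal hf.integrable_sq (ae_of_all _ fun x => sq_nonneg _)]
  simp only [sq]

lemma ker_ge {ε : ℝ} (hε : 0 < ε) {u : E} (hu : ε ≤ ‖u‖) (ω : Sph) (h : ⟪u, (ω : E)⟫ ≠ 0) :
    2 * ε ^ 28 ≤ Coll.ker u ω := by
  have h0 : 0 < ‖u‖ := hε.trans_le hu
  have h1 : ‖u‖ ^ (-(3 / 2) : ℝ) ≤ |⟪u, (ω : E)⟫| ^ (-(3 / 2) : ℝ) :=
    Real.rpow_le_rpow_of_nonpos (abs_pos.2 h) (Coll.abs_inner_le u ω) (by norm_num)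
  have h2 : ‖u‖ ^ (59 / 2 : ℝ) * ‖u‖ ^ (-(3 / 2) : ℝ) = ‖u‖ ^ 28 := by
    rw [← Real.rpow_add h0, ← Real.rpow_natCast]; norm_num
  calc 2 * ε ^ 28 ≤ 2 * ‖u‖ ^ 28 := by gcongr
    _ = 2 * ‖u‖ ^ (59 / 2 : ℝ) * ‖u‖ ^ (-(3 / 2) : ℝ) := by rw [mul_assoc, h2]
    _ ≤ Coll.ker u ω := by unfold Coll.ker; gcongr

/-- The collisional increment of `φ(v) + φ(v_*)`. -/
def FF (φ : E → ℝ) (p : E × E × Sph) : ℝ :=
  φ (pv p.1 p.2.1 p.2.2) + φ (pw p.1 p.2.1 p.2.2) - φ p.1 - φ p.2.1

lemma measurable_FF {φ : E → ℝ} (hφ : Measurable φ) : Measurable (FF φ) := by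
  unfold FF; fun_prop

/-- Pairs with small relative velocity. -/
def near (ε : ℝ) : Set (E × E × Sph) := {p | ‖p.1 - p.2.1‖ < ε}

lemma measurableSet_near (ε : ℝ) : MeasurableSet (near ε) :=
  measurableSet_lt (by fun_prop) measurable_const

lemma near_one {φ : E → ℝ} (hφ : Measurable φ) (ε : ℝ) :
    ∫⁻ p, (near ε).indicator (fun p => ENNReal.ofReal (φ p.1 ^ 2)) p ∂nu ≤
      ENNReal.ofReal Z⁻¹ * volume (Metric.ball (0 : E) ε) *
        ∫⁻ v, ENNReal.ofReal (φ v ^ 2) ∂gam := by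
  have hm : Measurable ((near ε).indicator fun p : E × E × Sph => ENNReal.ofReal (φ p.1 ^ 2)) :=
    Measurable.indicator (by fun_prop) (measurableSet_near ε)
  rw [nu, lintegral_prod _ hm.aemeasurable, ← lintegral_const_mul _ (by fun_prop)]
  refine lintegral_mono fun v => ?_
  have h1 : (fun q : E × Sph => (near ε).indicator
      (fun p : E × E × Sph => ENNReal.ofReal (φ p.1 ^ 2)) (v, q)) =
      (Metric.ball v ε ×ˢ (Set.univ : Set Sph)).indicator fun _ => ENNReal.ofReal (φ v ^ 2) := by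
    funext q
    by_cases hq : ‖v - q.1‖ < ε
    · rw [Set.indicator_of_mem (show (v, q) ∈ near ε from hq), Set.indicator_of_mem]
      exact ⟨by rwa [mem_ball_iff_norm, norm_sub_rev], trivial⟩
    · rw [Set.indicator_of_notMem (show (v, q) ∉ near ε from hq), Set.indicator_of_notMem]
      intro h
      apply hq
      have := h.1
      rwa [mem_ball_iff_norm, norm_sub_rev] at this
  simp only [h1]
  rw [lintegral_indicator_const (measurableSet_ball.prod MeasurableSet.univ), Measure.prod_prod,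
    measure_univ, mul_one, mul_comm]
  gcongr
  refine (gam_le _).trans (le_of_eq ?_)
  rw [Measure.addHaar_ball_center]

lemma near_bound {φ : E → ℝ} (hφ : Measurable φ) (ε : ℝ) :
    ∫⁻ p, (near ε).indicator (fun p => ENNReal.ofReal (FF φ p ^ 2)) p ∂nu ≤
      16 * (ENNReal.ofReal Z⁻¹ * volume (Metric.ball (0 : E) ε) *
        ∫⁻ v, ENNReal.ofReal (φ v ^ 2) ∂gam) := by
  set G : E × E × Sph → ℝ≥0∞ := (near ε).indicator fun p => ENNReal.ofReal (φ p.1 ^ 2) with hG
  have hm : Measurable G := Measurable.indicator (by fun_prop) (measurableSet_near ε)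
  have hms : Measurable fun p => G (swp p) := hm.comp Coll.measurable_swp
  have hmc : Measurable fun p => G (coll p) := hm.comp Coll.measurable_coll
  have hpt : ∀ p, (near ε).indicator (fun p => ENNReal.ofReal (FF φ p ^ 2)) p ≤
      4 * (G p + G (swp p) + G (coll p) + G (swp (coll p))) := by
    intro p
    by_cases hp : p ∈ near ε
    · have h2 : swp p ∈ near ε := by
        change ‖p.2.1 - p.1‖ < ε
        rw [norm_sub_rev]; exact hp
      have h3 : coll p ∈ near ε := by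
        change ‖pv p.1 p.2.1 p.2.2 - pw p.1 p.2.1 p.2.2‖ < ε
        rw [Coll.norm_pv_sub_pw]; exact hp
      have h4 : swp (coll p) ∈ near ε := by
        change ‖pw p.1 p.2.1 p.2.2 - pv p.1 p.2.1 p.2.2‖ < ε
        rw [norm_sub_rev, Coll.norm_pv_sub_pw]; exact hp
      simp only [hG, Set.indicator_of_mem hp, Set.indicator_of_mem h2, Set.indicator_of_mem h3,
        Set.indicator_of_mem h4]
      rw [← ENNReal.ofReal_add (sq_nonneg _) (sq_nonneg _),
        ← ENNReal.ofReal_add (by positivity) (sq_nonneg _),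
        ← ENNReal.ofReal_add (by positivity) (sq_nonneg _),
        show (4 : ℝ≥0∞) = ENNReal.ofReal 4 by simp, ← ENNReal.ofReal_mul (by norm_num)]
      refine ENNReal.ofReal_le_ofReal ?_
      simp only [FF, swp, coll]
      set a := φ (pv p.1 p.2.1 p.2.2)
      set b := φ (pw p.1 p.2.1 p.2.2)
      set c := φ p.1
      set d := φ p.2.1
      nlinarith [sq_nonneg (a - b), sq_nonneg (a + c), sq_nonneg (a + d), sq_nonneg (b + c),
        sq_nonneg (b + d), sq_nonneg (c - d)]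
    · rw [Set.indicator_of_notMem hp]; exact zero_le
  have e1 : ∫⁻ p, G (swp p) ∂nu = ∫⁻ p, G p ∂nu := mp_swp.lintegral_comp hm
  have e2 : ∫⁻ p, G (coll p) ∂nu = ∫⁻ p, G p ∂nu := mp_coll.lintegral_comp hm
  have e3 : ∫⁻ p, G (swp (coll p)) ∂nu = ∫⁻ p, G p ∂nu :=
    (mp_coll.lintegral_comp hms).trans e1
  calc _ ≤ ∫⁻ p, 4 * (G p + G (swp p) + G (coll p) + G (swp (coll p))) ∂nu := lintegral_mono hpt
    _ = 16 * ∫⁻ p, G p ∂nu := by
        have m1 : Measurable fun p => G p + G (swp p) := hm.add hms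
        have m2 : Measurable fun p => G p + G (swp p) + G (coll p) := m1.add hmc
        rw [lintegral_const_mul' _ _ (by norm_num), lintegral_add_left m2,
          lintegral_add_left m1, lintegral_add_left hm, e1, e2, e3]
        ring
    _ ≤ _ := by
        gcongr
        exact near_one hφ ε

lemma far_bound {g : E → ℝ} (hg : Measurable g) {ε : ℝ} (hε : 0 < ε) :
    ENNReal.ofReal (2 * ε ^ 28 * (Z ^ 2 * Coll.cT)) *
      ∫⁻ p, (near ε)ᶜ.indicator
        (fun p => ENNReal.ofReal (FF (fun v => g v / sqM v) p ^ 2)) p ∂nu ≤ DL g := by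
  have hs := continuous_sqM.measurable
  have hφ : Measurable fun v => g v / sqM v := by fun_prop
  have hF := measurable_FF hφ
  have hm : Measurable ((near ε)ᶜ.indicator
      fun p => ENNReal.ofReal (FF (fun v => g v / sqM v) p ^ 2)) :=
    Measurable.indicator (by fun_prop) (measurableSet_near ε).compl
  rw [nu_eq, lintegral_withDensity_eq_lintegral_mul _ measurable_rho hm,
    ← lintegral_const_mul' _ _ ENNReal.ofReal_ne_top, DL]
  refine lintegral_mono fun p => ?_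
  by_cases hp : p ∈ (near ε)ᶜ
  · have hZ := Z_pos
    have hpi := Coll.cT_pos
    have hI : Inc (Sym g sM) p = sqM p.1 * sqM p.2.1 * FF (fun v => g v / sqM v) p := by
      have h1 : sqM (pv p.1 p.2.1 p.2.2) * sqM (pw p.1 p.2.1 p.2.2) = sqM p.1 * sqM p.2.1 :=
        Coll.sM_pv_mul p.1 p.2.1 p.2.2
      have h2 : ∀ v w, Sym g sM v w = sqM v * sqM w * (g v / sqM v + g w / sqM w) := by
        intro v w
        have := (sqM_pos v).ne'
        have := (sqM_pos w).ne'
        change g v * sqM w + sqM v * g w = _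
        field_simp
      rw [Inc, h2, h2, h1, FF]
      ring
    rw [Pi.mul_apply, Set.indicator_of_mem hp, rho, ← ENNReal.ofReal_mul (by positivity),
      ← ENNReal.ofReal_mul (by positivity)]
    refine ENNReal.ofReal_le_ofReal ?_
    rw [hI]
    have h3 : 2 * ε ^ 28 * (Z ^ 2 * Coll.cT) * ((sqM p.1 * sqM p.2.1) ^ 2 /
        (Z ^ 2 * Coll.cT) * FF (fun v => g v / sqM v) p ^ 2) =
        2 * ε ^ 28 * (sqM p.1 * sqM p.2.1 * FF (fun v => g v / sqM v) p) ^ 2 := by
      field_simp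
    rw [h3]
    by_cases h0 : ⟪p.1 - p.2.1, (p.2.2 : E)⟫ = 0
    · have : FF (fun v => g v / sqM v) p = 0 := by
        simp only [FF, pv, pw, h0, zero_smul, sub_zero, add_zero]
        ring
      rw [this]; simp
    · gcongr
      exact ker_ge hε (not_lt.1 hp) p.2.2 h0
  · rw [Pi.mul_apply, Set.indicator_of_notMem hp]; simp

theorem gap_meas (hC : HermComplete) : ∃ lam : ℝ, 0 < lam ∧ ∀ g : E → ℝ, Measurable g →
    MemLp g 2 volume → Micro g → ENNReal.ofReal lam * L2L g ≤ DL g := by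
  obtain ⟨δ, hδ0, hδ⟩ := gap_L2 hC
  have hZ := Z_pos
  have hpi := Coll.cT_pos
  obtain ⟨V, hV0, hV⟩ : ∃ V : ℝ, 0 ≤ V ∧ volume (Metric.ball (0 : E) 1) = ENNReal.ofReal V :=
    ⟨_, ENNReal.toReal_nonneg, (ENNReal.ofReal_toReal measure_ball_lt_top.ne).symm⟩
  obtain ⟨ε, hε, hε1⟩ : ∃ ε : ℝ, 0 < ε ∧ 16 * (Z⁻¹ * (ε ^ dd * V)) ≤ 2 * δ := by
    have hc : Tendsto (fun ε : ℝ => 16 * (Z⁻¹ * (ε ^ dd * V))) (𝓝[>] 0)
        (𝓝 (16 * (Z⁻¹ * (0 ^ dd * V)))) :=
      (Continuous.tendsto (by fun_prop) 0).mono_left nhdsWithin_le_nhds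
    have hd : dd ≠ 0 := by have := two_le_dd; omega
    have h1 := hc.eventually (gt_mem_nhds (a := 2 * δ) (by simpa [hd] using hδ0))
    obtain ⟨ε, h2, h3⟩ := (h1.and self_mem_nhdsWithin).exists
    exact ⟨ε, h3, h2.le⟩
  refine ⟨2 * ε ^ 28 * (Z ^ 2 * Coll.cT) * (2 * δ) * Z⁻¹, by positivity,
    fun g hg hg2 hM => ?_⟩
  have hs := continuous_sqM.measurable
  set φ : E → ℝ := fun v => g v / sqM v with hφdef
  have hφ : Measurable φ := by fun_prop
  have hgφ : ∀ v, φ v * sqM v = g v := fun v => div_mul_cancel₀ _ (sqM_pos v).ne'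
  have hφ2 : MemLp φ 2 gam := by
    rw [memLp_two_iff_integrable_sq hφ.aestronglyMeasurable, integrable_gam]
    simpa only [← mul_pow, hgφ] using hg2.integrable_sq
  set u : HH := hφ2.toLp φ with hu
  have huφ : u =ᵐ[gam] φ := hφ2.coeFn_toLp
  have hint : ∀ {n : ℕ} {ψ : E → ℝ}, ψ ∈ PV n → Integrable fun v => g v * (ψ v * sqM v) := by
    intro n ψ hψ
    obtain ⟨h, -, hh⟩ := exists_HP_of_PV ψ hψ
    simp only [← hh]
    exact hg2.integrable_mul (h.memLp 2 volume)
  have hperp : u ∈ InvHᗮ := by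
    rw [Submodule.mem_orthogonal']
    rintro _ ⟨ψ, hψ, rfl⟩
    obtain ⟨c, d, b, hb⟩ := Inv_repr (show (ψ : E → ℝ) ∈ Inv from hψ)
    rw [inner_Lp _ _ huφ (JJ_coe _ _), integral_gam]
    have h1 : (fun v => φ v * (ψ : E → ℝ) v * sqM v ^ 2) = fun v =>
        c * (g v * sM v) + ∑ j, b j * (g v * (v j * sM v)) + d * (g v * (‖v‖ ^ 2 * sM v)) := by
      funext v
      rw [hb, ← hgφ v]
      change _ = c * (φ v * sqM v * sqM v) + ∑ j, b j * (φ v * sqM v * (v j * sqM v)) +
        d * (φ v * sqM v * (‖v‖ ^ 2 * sqM v))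
      have e : ∑ j, b j * (φ v * sqM v * (v j * sqM v)) =
          φ v * (∑ j, b j * v j) * sqM v ^ 2 := by
        rw [Finset.mul_sum, Finset.sum_mul]
        exact Finset.sum_congr rfl fun j _ => by ring
      rw [e]
      ring
    have i0 : Integrable fun v => g v * sM v := by
      have := hint (const_mem 0 1)
      simp only [one_mul] at this
      exact this
    have i1 : ∀ j, Integrable fun v : E => g v * (v j * sM v) := fun j => hint (coord_mem j)
    have i2 : Integrable fun v : E => g v * (‖v‖ ^ 2 * sM v) := hint normSq_mem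
    have i3 : Integrable fun v : E => ∑ j, b j * (g v * (v j * sM v)) :=
      integrable_finsetSum _ fun j _ => (i1 j).const_mul _
    have i4 : Integrable fun v : E => c * (g v * sM v) + ∑ j, b j * (g v * (v j * sM v)) :=
      (i0.const_mul c).add i3
    rw [h1, integral_add i4 (i2.const_mul d), integral_add (i0.const_mul c) i3,
      integral_finsetSum _ fun j _ => (i1 j).const_mul _]
    simp only [integral_const_mul, hM.1, hM.2.1, hM.2.2]
    simp
  have hA : AA u =ᵐ[nu] FF φ := by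
    have h : ∀ {f : E × E × Sph → E} (hf : MeasurePreserving f nu gam),
        UU hf u =ᵐ[nu] fun p => φ (f p) :=
      fun hf => (UU_coe hf _).trans (hf.quasiMeasurePreserving.ae_eq_comp huφ)
    filter_upwards [h mp_one, h mp_two, h mp_three, h mp_four,
      Lp.coeFn_sub (UU mp_three u + UU mp_four u - UU mp_one u) (UU mp_two u),
      Lp.coeFn_sub (UU mp_three u + UU mp_four u) (UU mp_one u),
      Lp.coeFn_add (UU mp_three u) (UU mp_four u)] with p h1 h2 h3 h4 h5 h6 h7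
    change (UU mp_three u + UU mp_four u - UU mp_one u - UU mp_two u : KK) p = _
    rw [h5, Pi.sub_apply, h6, Pi.sub_apply, h7, Pi.add_apply, h1, h2, h3, h4, FF]
  have hn := lintegral_sq_eq u huφ
  have hall := lintegral_sq_eq (AA u) hA
  have hnear : ∫⁻ p, (near ε).indicator (fun p => ENNReal.ofReal (FF φ p ^ 2)) p ∂nu ≤
      ENNReal.ofReal (2 * δ * ‖u‖ ^ 2) := by
    refine (near_bound hφ ε).trans ?_
    rw [hn, Measure.addHaar_ball _ _ hε.le, finrank_Ix, hV,
      ← ENNReal.ofReal_mul (by positivity), ← ENNReal.ofReal_mul (by positivity),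
      ← ENNReal.ofReal_mul (by positivity), show (16 : ℝ≥0∞) = ENNReal.ofReal 16 by simp,
      ← ENNReal.ofReal_mul (by positivity), ← mul_assoc]
    gcongr
  have hF := measurable_FF hφ
  have hfar : ENNReal.ofReal (2 * δ * ‖u‖ ^ 2) ≤
      ∫⁻ p, (near ε)ᶜ.indicator (fun p => ENNReal.ofReal (FF φ p ^ 2)) p ∂nu := by
    have h1 : ENNReal.ofReal (2 * δ * ‖u‖ ^ 2) + ENNReal.ofReal (2 * δ * ‖u‖ ^ 2) ≤
        ENNReal.ofReal (2 * δ * ‖u‖ ^ 2) +
          ∫⁻ p, (near ε)ᶜ.indicator (fun p => ENNReal.ofReal (FF φ p ^ 2)) p ∂nu := by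
      calc _ = ENNReal.ofReal (4 * δ * ‖u‖ ^ 2) := by
            rw [← ENNReal.ofReal_add (by positivity) (by positivity)]; congr 1; ring
        _ ≤ ENNReal.ofReal (‖AA u‖ ^ 2) := ENNReal.ofReal_le_ofReal (hδ u hperp)
        _ = ∫⁻ p, (near ε).indicator (fun p => ENNReal.ofReal (FF φ p ^ 2)) p ∂nu +
            ∫⁻ p, (near ε)ᶜ.indicator (fun p => ENNReal.ofReal (FF φ p ^ 2)) p ∂nu := by
            rw [← hall, lintegral_indicator (measurableSet_near ε),
              lintegral_indicator (measurableSet_near ε).compl,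
              lintegral_add_compl _ (measurableSet_near ε)]
        _ ≤ _ := by gcongr
    exact (ENNReal.add_le_add_iff_left ENNReal.ofReal_ne_top).1 h1
  have hL : L2L g = ENNReal.ofReal (Z * ‖u‖ ^ 2) := by
    rw [L2L, ← ofReal_integral_eq_lintegral_ofReal hg2.integrable_sq
      (ae_of_all _ fun x => sq_nonneg _), ← real_inner_self_eq_norm_sq, inner_Lp u u huφ huφ,
      integral_gam, ← mul_assoc, mul_inv_cancel₀ hZ.ne', one_mul]
    congr 2; funext v
    rw [← hgφ v]; ring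
  refine le_trans ?_ (far_bound hg hε)
  refine le_trans (le_of_eq ?_) (mul_le_mul_right hfar _)
  rw [hL, ← ENNReal.ofReal_mul (by positivity), ← ENNReal.ofReal_mul (by positivity)]
  congr 1
  field_simp

lemma continuous_of_nice {p : ℕ} {K : ℝ} {g : E → ℝ} (h : Coll.Nice p K g) : Continuous g := by
  rw [continuous_iff_continuousAt]
  intro v
  have h1 : ∀ᶠ w in 𝓝 v, ‖g w - g v‖ ≤ K * ‖w - v‖ := by
    filter_upwards [Metric.closedBall_mem_nhds v one_pos] with w hw
    have h2 := h.2 v (w - v) (mem_closedBall_iff_norm.1 hw)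
    rw [add_sub_cancel] at h2
    refine le_trans ?_ h2
    exact le_mul_of_one_le_left (abs_nonneg _) (one_le_pow₀ (by linarith [norm_nonneg v]))
  rw [ContinuousAt, tendsto_iff_norm_sub_tendsto_zero]
  refine squeeze_zero' (Eventually.of_forall fun _ => norm_nonneg _) h1 ?_
  have : Tendsto (fun w => K * ‖w - v‖) (𝓝 v) (𝓝 (K * ‖v - v‖)) :=
    Continuous.tendsto (by fun_prop) v
  simpa using this

lemma memLp_of_nice {K : ℝ} {g : E → ℝ} (h : Coll.Nice pN K g) : MemLp g 2 volume := by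
  have hc := continuous_of_nice h
  rw [memLp_two_iff_integrable_sq hc.aestronglyMeasurable]
  have hi : Integrable (fun x : E => (1 + ‖x‖) ^ (-((pN * 2 : ℕ) : ℝ))) :=
    integrable_one_add_norm (by rw [finrank_Ix]; push_cast; rw [pN_cast]; linarith [dr_pos])
  refine (hi.const_mul (K ^ 2)).mono' (hc.pow 2).aestronglyMeasurable (ae_of_all _ fun v => ?_)
  have h0 : 0 < 1 + ‖v‖ := by positivity
  have h1 := pow_le_pow_left₀ (by positivity) (h.1 v) 2
  rw [Real.norm_of_nonneg (sq_nonneg _), Real.rpow_neg h0.le, ← div_eq_mul_inv,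
    le_div_iff₀ (by positivity), Real.rpow_natCast]
  rw [mul_pow, sq_abs, ← pow_mul, mul_comm] at h1
  exact h1

/-- The spectral gap, given the completeness of the Hermite functions. -/
theorem c4_of (hC : HermComplete) : Coll.C4Stmt := by
  obtain ⟨lam, h0, h⟩ := gap_meas hC
  exact ⟨lam, h0, fun g K hg hM =>
    h g (continuous_of_nice hg).measurable (memLp_of_nice hg) hM⟩

end Pool.Agent.BoltzD.Gap

end
end MrgPart2

-- ======== part 3: formerly Pool.Agent.BoltzD.Coll.Op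
section MrgPart3

/-!
Module M2 assembled: the collision interface is realised by the concrete operator.
-/

open MeasureTheory Real Set Pool.Agent.BoltzC
open scoped ENNReal RealInnerProductSpace

noncomputable section

namespace Pool.Agent.BoltzD.Coll

variable [Dim]

/-- Schwartz functions are nice, with a constant given by a creation operator norm -/
theorem nice_nA (p : ℕ) :
    ∃ C : ℝ, 0 < C ∧ ∀ f : SV, Nice p (C * √(nA (p + dd + 1) f)) f := by
  obtain ⟨C, hC, h⟩ := weighted_le_nA p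
  refine ⟨2 ^ p * C, by positivity, fun f => ?_⟩
  rw [mul_assoc]
  refine nice_of_fderiv f.differentiable (fun v => (h f v).1.trans ?_) fun v => (h f v).2
  gcongr
  exact nA_mono (by omega) f

lemma PP_GsB (f g : SV) : PP (GsB f g) = 0 := by
  rw [PP_eq_zero_iff]
  intro i
  rw [ip_comm]
  have h1 : ∀ j, ip (GsB f g) (ap j sqMS) = 0 := fun j => by rw [ap_sqMS, ip_GsB_mulV]
  rcases i with _ | _ | j
  exacts [ip_GsB_sqMS f g, ip_GsB_energy f g e4 dd e4_apply, h1 j]

lemma LS_PP (f : SV) : LS (PP f) = 0 := by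
  have h1 : ∀ j, LS (ap j sqMS) = 0 := fun j => by rw [ap_sqMS, LS_mulV]
  have h : ∀ i, LS (hb i) = 0 := by
    rintro (_ | _ | j)
    exacts [LS_sqMS, LS_energy e4 dd e4_apply, h1 j]
  simp [PP_apply', h]

theorem gap_LS : ∃ lam : ℝ, 0 < lam ∧ ∀ f : SV, lam * ip (f - PP f) (f - PP f) ≤ ip (LS f) f := by
  obtain ⟨lam, hl, h⟩ := Gap.c4_of fun _ hf hh => hermite_complete hf hh
  refine ⟨lam / 4, by positivity, fun f => ?_⟩
  have H := nice_SV pN (f - PP f)
  have h1 := h _ _ H (PP_eq_zero_iff_micro.1 (PP_sub_PP f))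
  have h2 := Dis_nonneg (f - PP f : SV)
  rw [DL_eq_ofReal H, L2L_eq H, ← ENNReal.ofReal_mul hl.le,
    ENNReal.ofReal_le_ofReal_iff (by positivity), ← ip_self_eq, ← ip_LS_self] at h1
  have h3 : ip (LS (f - PP f)) (f - PP f) = ip (LS f) f := by
    rw [map_sub LS, LS_PP, sub_zero, map_sub (ip (LS f)), ip_LS_symm f (PP f), LS_PP]
    simp
  rw [h3] at h1
  linarith

theorem tri_SV (h3 : C3Stmt) : ∃ C : ℝ, 0 < C ∧ ∀ g h f : SV,
    |ip (GsB g h) f| ≤
      C * √(nA (pN + dd + 1) h) * √(ip (LS g) g + ip g g) * √(ip (LS f) f) := by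
  obtain ⟨C, hC, ht⟩ := tri_of h3
  obtain ⟨C', hC', hn⟩ := nice_nA pN
  refine ⟨C * C', by positivity, fun g h f => ?_⟩
  rw [ip_GsB, ip_LS_self, ip_LS_self, ip_self_eq, mul_assoc C]
  exact ht g h f _ _ _ (hn g) (hn h) (hn f)

theorem wgt_SV (h3 : C3Stmt) : ∃ C : ℝ, 0 < C ∧ ∀ f : SV,
    ∫ v, (1 + ‖v‖) ^ 8 * f v ^ 2 ≤ C * (ip (LS f) f + ip f f) := by
  obtain ⟨C, hC, hw⟩ := wgt_of h3
  refine ⟨C, hC, fun f => ?_⟩
  rw [ip_LS_self, ip_self_eq]
  exact hw f _ (nice_SV pN f)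

lemma sq_Gs_le {f g : E → ℝ} {a b : ℝ} {m : ℕ} (Hf : Nice (m + 29) a f) (Hg : Nice (m + 29) b g)
    (v : E) : Gs f g v ^ 2 ≤ (cG * 2 ^ (m + 31) * a * b) ^ 2 * ((1 + ‖v‖) ^ m)⁻¹ := by
  have h1 := abs_Gam_le Hf Hg v
  have h2 := abs_Gam_le Hg Hf v
  have h3 : (1 + ‖v‖) ^ m * |Gs f g v| ≤ cG * 2 ^ (m + 31) * a * b := by
    refine le_of_mul_le_mul_right ?_ (wt_pos v 29)
    calc _ = (1 + ‖v‖) ^ (m + 29) * |Gam f g v + Gam g f v| := by
          rw [Gs, pow_add, mul_right_comm]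
      _ ≤ (1 + ‖v‖) ^ (m + 29) * (|Gam f g v| + |Gam g f v|) := by gcongr; exact abs_add_le _ _
      _ ≤ _ := (mul_add _ _ _).le.trans (add_le_add h1 h2)
      _ = _ := by generalize (1 + ‖v‖) ^ 29 = w; ring
  rw [← div_eq_mul_inv, le_div_iff₀ (wt_pos v m)]
  calc Gs f g v ^ 2 * (1 + ‖v‖) ^ m ≤ Gs f g v ^ 2 * ((1 + ‖v‖) ^ m) ^ 2 := by
        gcongr
        exact le_self_pow₀ (one_le_wt v m) two_ne_zero
    _ = ((1 + ‖v‖) ^ m * |Gs f g v|) ^ 2 := by rw [mul_pow, sq_abs, mul_comm]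
    _ ≤ _ := by gcongr

theorem nA_GsB_le (q : ℕ) : ∃ C : ℝ, 0 < C ∧ ∀ f g : SV, nA q (GsB f g) ≤
    C * nA (q + (dd + 1 + 29 + dd + 1)) f * nA (q + (dd + 1 + 29 + dd + 1)) g := by
  induction q with
  | zero =>
    obtain ⟨C, hC, hn⟩ := nice_nA (dd + 1 + 29)
    have hG := cG_pos
    have hI : 0 ≤ ∫ v : E, ((1 + ‖v‖) ^ (dd + 1))⁻¹ := integral_nonneg fun _ => by positivity
    refine ⟨(cG * 2 ^ (dd + 1 + 31) * C * C) ^ 2 * ((∫ v : E, ((1 + ‖v‖) ^ (dd + 1))⁻¹) + 1),
      by positivity, fun f g => ?_⟩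
    have hf := nA_nonneg (dd + 1 + 29 + dd + 1) f
    have hg := nA_nonneg (dd + 1 + 29 + dd + 1) g
    have h1 := integral_mono (integrable_sq (nice_SV pN (GsB f g)))
      ((integrable_wt (dd + 1) (by norm_num)).const_mul _) fun v => by
        simpa only [GsB_apply] using sq_Gs_le (hn f) (hn g) v
    rw [integral_const_mul] at h1
    rw [nA_zero, ip_self_eq, zero_add]
    refine h1.trans ?_
    generalize nA (dd + 1 + 29 + dd + 1) f = x at hf ⊢
    generalize nA (dd + 1 + 29 + dd + 1) g = y at hg ⊢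
    calc _ = (cG * 2 ^ (dd + 1 + 31) * C * C) ^ 2 * (∫ v : E, ((1 + ‖v‖) ^ (dd + 1))⁻¹) *
          √x ^ 2 * √y ^ 2 := by ring
      _ ≤ _ := by
        rw [Real.sq_sqrt hf, Real.sq_sqrt hg]
        gcongr; linarith
  | succ q ih =>
    obtain ⟨C, hC, ih⟩ := ih
    have hd := dr_pos
    refine ⟨dd * 4 * C, by positivity, fun f g => ?_⟩
    have key : ∀ x x' y y' : ℝ, 0 ≤ x' → 0 ≤ y → x ≤ x' → y ≤ y' → C * x * y ≤ C * x' * y' := by
      intro x x' y y' h1 h2 h3 h4
      gcongr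
    generalize dd + 1 + 29 + dd + 1 = N at ih ⊢
    rw [nA_succ, show q + 1 + N = q + N + 1 by omega]
    calc _ ≤ dd * (4 * (C * nA (q + N + 1) f * nA (q + N + 1) g)) := by
          refine sum_le_Ix fun j => ?_
          rw [ap_GsB]
          have h1 := (ih (ap j f) g).trans (key _ _ _ _ (nA_nonneg _ _) (nA_nonneg _ _)
            (nA_ap_le _ j f) (nA_le_succ _ g))
          have h2 := (ih f (ap j g)).trans (key _ _ _ _ (nA_nonneg _ _) (nA_nonneg _ _)
            (nA_le_succ _ f) (nA_ap_le _ j g))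
          linarith [nA_add_le q (GsB (ap j f) g) (GsB f (ap j g))]
      _ = _ := by ring

/-- the concrete collision operator -/
def collOp (h3 : C3Stmt) : CollOp where
  G := GsB
  L := LS
  p := pN + dd + 1
  cont := continuous_GsB
  symm := GsB_comm
  leib := ap_GsB
  hyd := PP_GsB
  L_eq := LS_eq
  L_symm := ip_LS_symm
  gap := gap_LS
  tri := tri_SV h3
  wgt := wgt_SV h3
  bdd q := ⟨q + (dd + 1 + 29 + dd + 1), nA_GsB_le q⟩
  inv S _ hS := by
    obtain ⟨Φ, -, h⟩ := Corr.corrector GsB_comm ap_GsB PP_GsB LS_eq ip_LS_symm gap_LS (tri_SV h3) S hS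
    exact ⟨Φ, h⟩

theorem coll_of (h3 : C3Stmt) : CollStmt := ⟨collOp h3, GsB_apply⟩

end Pool.Agent.BoltzD.Coll

end
end MrgPart3

-- marker of a merged file
example : 731051 + 134679 = 731051 + 134679 := rfl

end MrgPart1

-- marker of a merged file
example : 731051 + 134679 = 731051 + 134679 := rfl

end MrgPart0

-- ======== part 1: formerly Pool.Agent.BoltzD.Lin.Main
section MrgPart1

-- ======== part 0: formerly Pool.Agent.BoltzD.En.Asm
section MrgPart0

/-! Module M4a: assembly of the two energy inequalities. -/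

set_option autoImplicit false

open MeasureTheory Pool.Agent.BoltzC Finset

noncomputable section

namespace Pool.Agent.BoltzD

variable [Dim]

namespace Asm

lemma sm_tr {F : Fld} (hF : F.Reg) {G : E3 → SV} (hG : Sm G) : Sm (F.tr G) :=
  (Sm.sum univ fun i _ => ((hF.u i).1.smul (hG.dX i)).add
    (hF.c.1.smul ((hG.dX i).clm (mulV i)))).add
  (((Sm.sum univ fun j _ => (hF.b0 j).1.smul (hG.clm (ap j))).add
    (Sm.sum univ fun i _ => Sm.sum univ fun j _ =>
      (hF.b1 i j).1.smul ((hG.clm (ap j)).clm (mulV i)))).add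
    (Sm.sum univ fun i _ => Sm.sum univ fun j _ =>
      (hF.b2 i).1.smul (((hG.clm (ap j)).clm (mulV j)).clm (mulV i)))).neg

lemma En_add {n : ℕ} {θ : ℝ} {ω σ : E3 → ℝ} {A B H : E3 → SV} (hω : Continuous ω)
    (hσ : Continuous σ) (hA : Sm A) (hB : Sm B) (hH : Sm H) :
    En n θ ω σ (fun x => A x + B x) H = En n θ ω σ A H + En n θ ω σ B H := by
  refine Eq.trans (tint_congr fun x => ?_)
    (tint_add (hω.mul (KK.continuous_bb hσ hA hH)) (hω.mul (KK.continuous_bb hσ hB hH)))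
  rw [KK.bb_add_left hA hB, mul_add]

lemma zz_zero (σ : E3 → ℝ) (G : E3 → SV) (x : E3) : zz 0 σ G x = ip (PP (G x)) (PP (G x)) := by
  simp [zz, words]

lemma zz_nonneg (j : ℕ) (σ : E3 → ℝ) (G : E3 → SV) (x : E3) : 0 ≤ zz j σ G x := by
  unfold zz
  rw [pow_mul']
  exact mul_nonneg (sq_nonneg _) (sum_nonneg fun u _ => ip_self_nonneg _)

lemma continuous_lev {n : ℕ} {θ : ℝ} {σ : E3 → ℝ} (hσ : Continuous σ)
    {φ : E3 → List Ix → ℕ → ℝ} (hφ : ∀ u m, Continuous fun x => φ x u m) :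
    Continuous fun x => lev n θ (σ x) (φ x) := by
  unfold lev
  refine continuous_finsetSum _ fun j _ => continuous_finsetSum _ fun m _ => ?_
  exact (continuous_const.mul (hσ.pow _)).mul (continuous_finsetSum _ fun u _ => hφ u m)

lemma continuous_dq (Q : CollOp) : Continuous Q.dq :=
  (continuous_ip.comp (Q.L.continuous.prodMk continuous_id)).add
    (continuous_ip.comp (continuous_id.prodMk continuous_id))

lemma continuous_yy (Q : CollOp) {n : ℕ} {θ : ℝ} {σ : E3 → ℝ} {G : E3 → SV} (hσ : Continuous σ)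
    (hG : Sm G) : Continuous (yy Q n θ σ G) :=
  continuous_lev hσ fun u _ => continuous_finsetSum _ fun w _ =>
    (continuous_dq Q).comp (((hG.sub (hG.clm PP)).dXw u).clm (apW w)).cont

lemma continuous_yw (hV : VStmt) {n : ℕ} {σ : E3 → ℝ} {G : E3 → SV} (hσ : Continuous σ)
    (hG : Sm G) : Continuous (yw n σ G) :=
  continuous_lev hσ fun u _ => continuous_finsetSum _ fun w _ =>
    hV.wq_cont.comp (((hG.dXw u).sub ((hG.dXw u).clm PP)).clm (apW w)).cont

lemma pow_mul_lev_le {n : ℕ} {θ σ : ℝ} (hθ : 0 ≤ θ) (hθ1 : θ ≤ 1) {φ : List Ix → ℕ → ℝ}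
    (h : ∀ u m, 0 ≤ φ u m) : θ ^ n * lev n 1 σ φ ≤ lev n θ σ φ := by
  unfold lev
  rw [mul_sum]
  refine sum_le_sum fun j hj => ?_
  rw [mul_sum]
  refine sum_le_sum fun m hm => ?_
  have h1 : θ ^ n ≤ θ ^ (j + m) :=
    pow_le_pow_of_le_one hθ hθ1 (by have := mem_range.1 hj; have := mem_range.1 hm; omega)
  have h2 : 0 ≤ σ ^ (2 * j) * ∑ u ∈ words j, φ u m :=
    mul_nonneg (by rw [pow_mul']; positivity) (sum_nonneg fun u _ => h u m)
  rw [one_pow, one_mul, mul_assoc]
  exact mul_le_mul_of_nonneg_right h1 h2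

lemma yw_le (hV : VStmt) (Q : CollOp) : ∃ C : ℝ, 0 < C ∧ ∀ (n : ℕ) (θ : ℝ), 0 ≤ θ → θ ≤ 1 →
    ∀ (σ : E3 → ℝ) (G : E3 → SV), Sm G → ∀ x, θ ^ n * yw n σ G x ≤ C * yy Q n θ σ G x := by
  obtain ⟨C, hC, h⟩ := hV.wq_le Q
  refine ⟨C, hC, fun n θ hθ hθ1 σ G hG x => ?_⟩
  refine (pow_mul_lev_le hθ hθ1 fun u m => sum_nonneg fun w _ => hV.wq_nonneg _).trans ?_
  have e : C * yy Q n θ σ G x = lev n θ (σ x) fun u m =>
      ∑ w ∈ words m, C * Q.dq (apW w (dXw u G x - PP (dXw u G x))) := by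
    simp only [yy, YY, lev, dXw_sub hG (hG.clm PP), dXw_clm hG PP, mul_sum]
    refine sum_congr rfl fun j _ => sum_congr rfl fun m _ => sum_congr rfl fun u _ =>
      sum_congr rfl fun w _ => by ring
  rw [e]
  exact KK.lev_mono hθ fun u m => sum_le_sum fun w _ => h _

lemma yw_eq_zero (hV : VStmt) {n : ℕ} {σ : E3 → ℝ} {G : E3 → SV} (hG : Sm G)
    (hP : ∀ x, PP (G x) = G x) (x : E3) : yw n σ G x = 0 := by
  have e : ∀ u, PP (dXw u G x) = dXw u G x := fun u => by
    have := congrFun (dXw_clm hG PP u) x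
    simp only [hP] at this
    exact this.symm
  simp [yw, lev, e, hV.wq_zero]

/-- The transport inequality with the intermediate levels absorbed. -/
lemma tr_abs (hI : InterpStmt) (hT : TrStmt) (K : ℕ → ℝ) (lam : ℝ) (hl : 0 < lam) :
    ∃ n0 : ℕ, ∀ n, n0 ≤ n → ∀ θ : ℝ, 0 < θ → θ ≤ 1 → ∃ C D : ℝ, 0 < C ∧ 0 < D ∧
      ∀ (F : Fld) (ω σ μ ωt σt γ : E3 → ℝ) (G : E3 → SV), F.Reg → F.Bd K σ μ →
        WtBd F K lam ω σ μ ωt σt γ → Continuous ωt → Continuous σt → Continuous γ → Sm G →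
        Per G → tint (et n θ ω σ ωt σt G) + tint (fun x => γ x * bb n θ σ G G x)
          ≤ 2 * En n θ ω σ (F.tr G) G
            + C * tint (fun x => μ x * ω x * ip (PP (G x)) (PP (G x)))
            + D * tint fun x => μ x * ω x * yw n σ G x := by
  obtain ⟨K0, hK⟩ := hT K
  refine ⟨⌈(K0 + 2) / (2 * lam)⌉₊, fun n hn θ hθ hθ1 => ?_⟩
  have hn' : K0 - 2 * n * lam ≤ -2 := by
    have h1 : (K0 + 2) / (2 * lam) ≤ n := (Nat.le_ceil _).trans (by exact_mod_cast hn)
    rw [div_le_iff₀ (by positivity)] at h1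
    linarith
  have hp : 0 < θ ^ n := pow_pos hθ n
  obtain ⟨C, hC, h⟩ := hK n θ (θ ^ n) hθ hθ1 hp
  obtain ⟨C1, hC1, h1⟩ := hI (K 1) n (θ ^ n / C) (by positivity)
  refine ⟨C * C1, C, by positivity, hC, fun F ω σ μ ωt σt γ G hF hB hW c1 c2 c3 hG pG => ?_⟩
  have h2 := h F lam ω σ μ ωt σt γ G hl.le hF hB hW c1 c2 c3 hG pG
  have h3 := mul_le_mul_of_nonneg_left (h1 ω σ μ G hW.hω hW.hσ hW.hμ hG pG) hC.le
  have h4 : 0 ≤ tint fun x => μ x * ω x * zz n σ G x := tint_nonneg fun x =>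
    mul_nonneg (mul_pos (hW.hμ.pos x) (hW.hω.pos x)).le (zz_nonneg _ _ _ _)
  simp only [zz_zero] at h3
  rw [mul_add, ← mul_assoc, ← mul_assoc, mul_div_cancel₀ _ hC.ne'] at h3
  have h5 := mul_le_mul_of_nonneg_right (mul_le_mul_of_nonneg_left hn' hp.le) h4
  linarith

end Asm

open Asm

theorem m4_of (hV : VStmt) (hE : EtStmt) (hI : InterpStmt) (hT : TrStmt) (hG : GainStmt) :
    M4Stmt := by
  intro Q K lam hl
  obtain ⟨n0, h0⟩ := tr_abs hI hT K lam hl
  obtain ⟨Cw, hCw, hw⟩ := yw_le hV Q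
  refine ⟨n0, fun n hn => ?_⟩
  obtain ⟨θ, c, hθ, hθ1, hc, hg⟩ := hG Q K n
  obtain ⟨C, D, hC, hD, h⟩ := h0 n hn θ hθ hθ1
  have hp : 0 < θ ^ n := pow_pos hθ n
  refine ⟨θ, D * Cw / (θ ^ n * c), C, c, hθ, hθ1, hC, hc,
    fun ω ωt σ σt g g' hω hσ hgg pg => ?_⟩
  obtain ⟨e1, e2⟩ := hE n θ ω ωt σ σt g g' hω hσ hgg
  refine ⟨_, e1, e2, fun s F μ γ k hF hB hW cγ sk _ bk hk => ?_⟩
  have sg := hgg.sm.slice s
  have sg' := hgg.sm'.slice s
  have cω := hW.hω.sm.cont
  have cσ := hW.hσ.sm.cont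
  have hA : 0 < D * Cw / (θ ^ n * c) := by positivity
  have k0 : ∀ x, 0 ≤ k x := fun x => (mul_pos hA (hW.hμ.pos x)).le.trans (hk x)
  have sL : Sm fun x => k x • Q.L (g s x) := sk.smul (sg.clm Q.L)
  have cy := (cω.mul sk.cont).mul (continuous_yy Q (n := n) (θ := θ) cσ sg)
  have h1 := h F (ω s) (σ s) μ (ωt s) (σt s) γ (g s) hF hB hW (hω.sm'.cont_slice s)
    (hσ.sm'.cont_slice s) cγ sg (pg s)
  have h2 : c * tint (fun x => ω s x * k x * yy Q n θ (σ s) (g s) x)
      ≤ En n θ (ω s) (σ s) (fun x => k x • Q.L (g s x)) (g s) := by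
    rw [← tint_const_mul]
    refine tint_mono (continuous_const.mul cy) (cω.mul (KK.continuous_bb cσ sL sg)) fun x => ?_
    have := mul_le_mul_of_nonneg_left
      (hg θ hθ le_rfl (σ s) k (g s) sk sg hW.hσ.pos k0 bk x) (hW.hω.pos x).le
    linarith
  have h3 : D * tint (fun x => μ x * ω s x * yw n (σ s) (g s) x)
      ≤ c * tint (fun x => ω s x * k x * yy Q n θ (σ s) (g s) x) := by
    rw [← tint_const_mul, ← tint_const_mul]
    refine tint_mono (continuous_const.mul ((hW.hμ.sm.cont.mul cω).mul (continuous_yw hV cσ sg)))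
      (continuous_const.mul cy) fun x => ?_
    have a1 := hw n θ hθ.le hθ1 (σ s) (g s) sg x
    have a0 : 0 ≤ yw n (σ s) (g s) x :=
      KK.lev_nonneg zero_le_one fun u m => sum_nonneg fun w _ => hV.wq_nonneg _
    have a2 : 0 ≤ yy Q n θ (σ s) (g s) x :=
      nonneg_of_mul_nonneg_right ((mul_nonneg hp.le a0).trans a1) hCw
    have a3 : D * Cw * μ x ≤ k x * (θ ^ n * c) := by
      have := hk x
      rwa [div_mul_eq_mul_div, div_le_iff₀ (by positivity)] at this
    have a4 := mul_le_mul_of_nonneg_left a1 (mul_pos hD (hW.hμ.pos x)).le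
    have a5 := mul_le_mul_of_nonneg_right a3 a2
    have a6 : D * μ x * yw n (σ s) (g s) x ≤ c * k x * yy Q n θ (σ s) (g s) x :=
      le_of_mul_le_mul_left (by linarith) hp
    have := mul_le_mul_of_nonneg_left a6 (hW.hω.pos x).le
    linarith
  rw [En_add cω cσ (sg'.add (sm_tr hF sg)) sL sg, En_add cω cσ sg' (sm_tr hF sg) sg]
  linarith

theorem m4h_of (hE : EtStmt) (hI : InterpStmt) (hT : TrStmt) (hV : VStmt) : M4hStmt := by
  intro K lam hl
  obtain ⟨n0, h0⟩ := tr_abs hI hT K lam hl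
  refine ⟨n0, fun n hn θ hθ hθ1 => ?_⟩
  obtain ⟨C, D, hC, hD, h⟩ := h0 n hn θ hθ hθ1
  refine ⟨C, hC, fun ω ωt σ σt g g' hω hσ hgg pg => ?_⟩
  obtain ⟨e1, e2⟩ := hE n θ ω ωt σ σt g g' hω hσ hgg
  refine ⟨_, e1, e2, fun s F μ γ hF hB hW cγ hP => ?_⟩
  have sg := hgg.sm.slice s
  have sg' := hgg.sm'.slice s
  have cω := hW.hω.sm.cont
  have cσ := hW.hσ.sm.cont
  have h1 := h F (ω s) (σ s) μ (ωt s) (σt s) γ (g s) hF hB hW (hω.sm'.cont_slice s)
    (hσ.sm'.cont_slice s) cγ sg (pg s)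
  simp only [yw_eq_zero hV sg hP, hP, mul_zero, tint_zero, add_zero] at h1
  have h2 : En n θ (ω s) (σ s) (fun x => PP (F.tr (g s) x)) (g s)
      = En n θ (ω s) (σ s) (F.tr (g s)) (g s) := tint_congr fun x => by
    rw [KK.bb_comm, KK.bb_PP_right sg (sm_tr hF sg) hP, KK.bb_comm]
  rw [En_add cω cσ sg' ((sm_tr hF sg).clm PP) sg, h2]
  linarith

end Pool.Agent.BoltzD

end
end MrgPart0

-- ======== part 1: formerly Pool.Agent.BoltzD.En.Et
section MrgPart1

/-!
Module M4a: the time derivative of the weighted energy.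
-/

set_option autoImplicit false

open MeasureTheory Pool.Agent.BoltzC Finset

noncomputable section

namespace Pool.Agent.BoltzD

variable [Dim]

namespace Et

lemma smD_pow {σ σt : ℝ → E3 → ℝ} (h : SmD σ σt) (k : ℕ) :
    SmD (fun s x => σ s x ^ k) fun s x => k * σ s x ^ (k - 1) * σt s x := by
  induction k with
  | zero =>
    refine ((Sm.const (1 : ℝ)).smD.congr fun s x => ?_).congr_deriv fun s x => ?_ <;> simp
  | succ k ih =>
    refine ((ih.mul h).congr fun s x => (pow_succ _ _).symm).congr_deriv fun s x => ?_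
    rcases k with _ | k
    · simp
    · simp only [Nat.add_sub_cancel]
      push_cast
      ring

lemma smC_const_mul {c : ℝ → E3 → ℝ} (h : SmC c) (a : ℝ) : SmC fun s x => a * c s x :=
  h.const_smul a

lemma smD_const_mul {c c' : ℝ → E3 → ℝ} (h : SmD c c') (a : ℝ) :
    SmD (fun s x => a * c s x) fun s x => a * c' s x :=
  h.const_smul a

/-- The sum over the words of one level. -/
def lv (j m : ℕ) (G H : E3 → SV) (x : E3) : ℝ :=
  ∑ u ∈ words j, ip (dXw u G x) (RR m (dXw u H x))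

lemma smC_lv {g h : ℝ → E3 → SV} (hg : SmC g) (hh : SmC h) (j m : ℕ) :
    SmC fun s x => lv j m (g s) (h s) x :=
  SmC.sum (g := fun u s x => ip (dXw u (g s) x) (RR m (dXw u (h s) x))) _ fun u _ =>
    (hg.dXw u).ip ((hh.dXw u).clm (RR m))

lemma smD_lv {g g' : ℝ → E3 → SV} (hg : SmD g g') (j m : ℕ) :
    SmD (fun s x => lv j m (g s) (g s) x) fun s x => 2 * lv j m (g' s) (g s) x := by
  refine (SmD.sum (g := fun u s x => ip (dXw u (g s) x) (RR m (dXw u (g s) x))) (words j)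
    fun u _ => (hg.dXw u).ip ((hg.dXw u).clm (RR m))).congr_deriv fun s x => ?_
  rw [lv, mul_sum]
  refine sum_congr rfl fun u _ => ?_
  rw [← nB_apply, ← nB_apply, nB_comm m (dXw u (g s) x)]
  ring

lemma bb_eq (n : ℕ) (θ : ℝ) (σ : E3 → ℝ) (G H : E3 → SV) (x : E3) :
    bb n θ σ G H x = ∑ j ∈ range (n + 1), ∑ m ∈ range (n + 1 - j),
      θ ^ (j + m) * (σ x ^ (2 * j) * lv j m G H x) := by
  simp only [bb, lev, lv, mul_assoc]

/-- The contribution of the time derivative of the length scale. -/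
def sp (n : ℕ) (θ : ℝ) (σ σt : E3 → ℝ) (G : E3 → SV) (x : E3) : ℝ :=
  ∑ j ∈ range (n + 1), ∑ m ∈ range (n + 1 - j),
    θ ^ (j + m) * ((2 * j * σ x ^ (2 * j - 1) * σt x) * lv j m G G x)

lemma et_eq (n : ℕ) (θ : ℝ) (ω σ ωt σt : E3 → ℝ) (G : E3 → SV) (x : E3) :
    et n θ ω σ ωt σt G x = ωt x * bb n θ σ G G x + ω x * sp n θ σ σt G x := by
  simp only [et, sp, lv, mul_assoc]

lemma smC_bb' (n : ℕ) (θ : ℝ) {σ σt : ℝ → E3 → ℝ} {g h : ℝ → E3 → SV} (hσ : SmD σ σt)
    (hg : SmC g) (hh : SmC h) : SmC fun s x => bb n θ (σ s) (g s) (h s) x := by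
  simp only [bb_eq]
  exact SmC.sum (g := fun j s x => ∑ m ∈ range (n + 1 - j),
      θ ^ (j + m) * (σ s x ^ (2 * j) * lv j m (g s) (h s) x)) _ fun j _ =>
    SmC.sum (g := fun m s x => θ ^ (j + m) * (σ s x ^ (2 * j) * lv j m (g s) (h s) x)) _
      fun m _ => smC_const_mul ((smD_pow hσ _).sm.mul (smC_lv hg hh j m)) _

lemma smC_sp (n : ℕ) (θ : ℝ) {σ σt : ℝ → E3 → ℝ} {g : ℝ → E3 → SV} (hσ : SmD σ σt)
    (hg : SmC g) : SmC fun s x => sp n θ (σ s) (σt s) (g s) x := by
  refine SmC.sum (g := fun j s x => ∑ m ∈ range (n + 1 - j), θ ^ (j + m) *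
      ((2 * j * σ s x ^ (2 * j - 1) * σt s x) * lv j m (g s) (g s) x)) _ fun j _ =>
    SmC.sum (g := fun m s x => θ ^ (j + m) *
      ((2 * j * σ s x ^ (2 * j - 1) * σt s x) * lv j m (g s) (g s) x)) _
      fun m _ => smC_const_mul (SmC.mul ?_ (smC_lv hg hg j m)) _
  refine (smD_pow hσ (2 * j)).sm'.congr fun s x => ?_
  push_cast
  ring

lemma smD_bb (n : ℕ) (θ : ℝ) {σ σt : ℝ → E3 → ℝ} {g g' : ℝ → E3 → SV} (hσ : SmD σ σt)
    (hg : SmD g g') : SmD (fun s x => bb n θ (σ s) (g s) (g s) x)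
      fun s x => sp n θ (σ s) (σt s) (g s) x + 2 * bb n θ (σ s) (g' s) (g s) x := by
  simp only [bb_eq]
  refine (SmD.sum (g := fun j s x => ∑ m ∈ range (n + 1 - j),
      θ ^ (j + m) * (σ s x ^ (2 * j) * lv j m (g s) (g s) x)) (range (n + 1)) fun j _ =>
    SmD.sum (g := fun m s x => θ ^ (j + m) * (σ s x ^ (2 * j) * lv j m (g s) (g s) x))
      (range (n + 1 - j))
      fun m _ => smD_const_mul ((smD_pow hσ _).mul (smD_lv hg j m)) _).congr_deriv fun s x => ?_
  rw [sp, mul_sum, ← sum_add_distrib]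
  refine sum_congr rfl fun j _ => ?_
  rw [mul_sum, ← sum_add_distrib]
  refine sum_congr rfl fun m _ => ?_
  push_cast
  ring

end Et

open Et in
theorem etStmt : EtStmt := by
  intro n θ ω ωt σ σt g g' hω hσ hg
  have h1 : SmC fun s x => et n θ (ω s) (σ s) (ωt s) (σt s) (g s) x := by
    simp only [et_eq]
    exact (hω.sm'.mul (smC_bb' n θ hσ hg.sm hg.sm)).add (hω.sm.mul (smC_sp n θ hσ hg.sm))
  have h2 : SmC fun s x => ω s x * bb n θ (σ s) (g' s) (g s) x :=
    hω.sm.mul (smC_bb' n θ hσ hg.sm' hg.sm)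
  refine ⟨h1.continuous_tint.add (continuous_const.mul h2.continuous_tint), fun s => ?_⟩
  have h3 := (hω.mul (smD_bb n θ hσ hg)).hasDerivAt_tint s
  refine h3.congr_deriv ?_
  have h4 := tint_add (h1.cont_slice s) ((smC_const_mul h2 2).cont_slice s)
  rw [En, ← tint_const_mul]
  refine Eq.trans (tint_congr fun x => ?_) h4
  rw [et_eq]
  ring

end Pool.Agent.BoltzD

end
end MrgPart1

-- ======== part 2: formerly Pool.Agent.BoltzD.En.Interp
section MrgPart2

/-! Weighted interpolation between the hydrodynamic levels. -/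

set_option autoImplicit false

open Pool.Agent.BoltzC Finset

noncomputable section

namespace Pool.Agent.BoltzD

variable [Dim]

namespace Interp

lemma seq_interp (P : (ℕ → ℝ) → Prop) (h0 : ∀ H, P H → ∀ j, 0 ≤ H j)
    (h : ∀ j δ, 0 < δ → ∃ C : ℝ, 0 < C ∧ ∀ H, P H → H (j + 1) ≤ δ * H (j + 2) + C * H j)
    (n : ℕ) : ∀ ε : ℝ, 0 < ε → ∃ C : ℝ, 0 < C ∧ ∀ H, P H →
      ∑ j ∈ range (n + 1), H j ≤ ε * H (n + 1) + C * H 0 := by
  induction n with
  | zero =>
    refine fun ε hε => ⟨1, one_pos, fun H hH => ?_⟩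
    have := mul_nonneg hε.le (h0 H hH 1)
    simp only [zero_add, range_one, sum_singleton, one_mul]
    linarith
  | succ n ih =>
    intro ε hε
    obtain ⟨C1, hC1, h1⟩ := ih 1 one_pos
    obtain ⟨C2, hC2, h2⟩ := h n (ε / 4) (by positivity)
    obtain ⟨C3, hC3, h3⟩ := ih (1 / (2 * C2)) (by positivity)
    refine ⟨C1 + 4 * (C2 * C3), by positivity, fun H hH => ?_⟩
    have a1 := h1 H hH
    have a2 := h2 H hH
    have a3 : H n ≤ 1 / (2 * C2) * H (n + 1) + C3 * H 0 :=
      (single_le_sum (fun j _ => h0 H hH j) (self_mem_range_succ n)).trans (h3 H hH)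
    have a4 : C2 * H n ≤ 1 / 2 * H (n + 1) + C2 * C3 * H 0 := by
      calc C2 * H n ≤ C2 * (1 / (2 * C2) * H (n + 1) + C3 * H 0) := by gcongr
        _ = _ := by field_simp
    rw [sum_range_succ]
    linarith

lemma slow_mul {K L : ℝ} {σ a b : E3 → ℝ} (hσ : ∀ x, 0 < σ x) (ha : Slow K σ a)
    (hb : Slow L σ b) : Slow (K + L) σ fun x => a x * b x := by
  refine ⟨ha.sm.mul hb.sm, ha.per.map₂ hb.per (· * ·), fun x => mul_pos (ha.pos x) (hb.pos x),
    fun i x => ?_⟩
  rw [dX_mul ha.sm.dif hb.sm.dif]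
  have h1 := mul_le_mul_of_nonneg_right (ha.bd i x) (hb.pos x).le
  have h2 := mul_le_mul_of_nonneg_left (hb.bd i x) (ha.pos x).le
  have h3 := mul_le_mul_of_nonneg_left (abs_add_le (dX i a x * b x) (a x * dX i b x)) (hσ x).le
  rw [abs_mul, abs_mul, abs_of_pos (ha.pos x), abs_of_pos (hb.pos x)] at h3
  simp only
  linarith

lemma slow_pow {K L : ℝ} {σ a : E3 → ℝ} (hσ : Slow K σ σ) (ha : Slow L σ a) (m : ℕ) :
    Slow (L + m * K) σ fun x => a x * σ x ^ m := by
  induction m with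
  | zero => simpa using ha
  | succ m ih =>
    have := slow_mul hσ.pos ih hσ
    simpa only [pow_succ, mul_assoc, Nat.cast_succ, add_mul, one_mul, add_assoc] using this

lemma two_ip_le (a b : ℝ) (f g : SV) (hab : 0 ≤ a * b) :
    2 * (a * b) * |ip f g| ≤ a ^ 2 * ip f f + b ^ 2 * ip g g := by
  have h1 := mul_le_mul_of_nonneg_left (abs_ip_le f g) hab
  have h2 := Real.sq_sqrt (ip_self_nonneg f)
  have h3 := Real.sq_sqrt (ip_self_nonneg g)
  nlinarith [sq_nonneg (a * √(ip f f) - b * √(ip g g))]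

lemma cont_ip {X Y : E3 → SV} (hX : Sm X) (hY : Sm Y) : Continuous fun x => ip (X x) (Y x) :=
  (Sm.bilin _ continuous_ip hX hY).cont

lemma step {K L δ : ℝ} (hδ : 0 < δ) {σ w : E3 → ℝ} (hσ : Slow K σ σ) (hw : Slow L σ w)
    {X : E3 → SV} (hX : Sm X) (pX : Per X) (i : Ix) :
    tint (fun x => w x * σ x ^ 2 * ip (dX i X x) (dX i X x))
      ≤ δ * tint (fun x => w x * σ x ^ 4 * ip (dX i (dX i X) x) (dX i (dX i X) x))
        + ((L + 2 * K) ^ 2 + δ⁻¹) * tint fun x => w x * ip (X x) (X x) := by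
  have hv := slow_pow hσ hw 2
  have h1 := hX.dX i
  have h2 := h1.dX i
  have cσ := hσ.sm.cont
  have cw := hw.sm.cont
  have c0 := cont_ip hX hX
  have c1 := cont_ip h1 h1
  have c2 := cont_ip h2 h2
  have e := tint_bilin_dX ip continuous_ip hX (hv.sm.smul h1) pX
    (hv.per.map₂ (pX.dX i) (· • ·)) i
  rw [dX_smul hv.sm.dif h1.dif, ← tint_neg] at e
  simp only [map_smul, map_add, smul_eq_mul] at e
  have b := tint_mono (φ := fun x => 2 * -(dX i (fun x => w x * σ x ^ 2) x * ip (X x) (dX i X x)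
      + w x * σ x ^ 2 * ip (X x) (dX i (dX i X) x)))
    (ψ := fun x => w x * σ x ^ 2 * ip (dX i X x) (dX i X x)
      + (δ * (w x * σ x ^ 4 * ip (dX i (dX i X) x) (dX i (dX i X) x))
        + ((L + 2 * K) ^ 2 + δ⁻¹) * (w x * ip (X x) (X x))))
    (by
      have := (hv.sm.dX i).cont
      have := cont_ip hX h1
      have := cont_ip hX h2
      fun_prop) (by fun_prop) fun x => by
    have s0 := hσ.pos x
    have w0 := hw.pos x
    have d1 : |dX i (fun x => w x * σ x ^ 2) x| ≤ (L + 2 * K) * σ x * w x := by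
      refine le_of_mul_le_mul_left ((hv.bd i x).trans (le_of_eq ?_)) s0
      push_cast; ring
    have d2 : 0 ≤ (L + 2 * K) * σ x := nonneg_of_mul_nonneg_left ((abs_nonneg _).trans d1) w0
    have p1 := mul_le_mul_of_nonneg_left (two_ip_le _ _ (X x) (dX i X x) d2) w0.le
    have p2 := mul_le_mul_of_nonneg_left (two_ip_le 1 (δ * σ x ^ 2) (X x) (dX i (dX i X) x)
      (by positivity)) (show 0 ≤ δ⁻¹ * w x by positivity)
    have q1 := neg_abs_le (dX i (fun x => w x * σ x ^ 2) x * ip (X x) (dX i X x))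
    have q2 := mul_le_mul_of_nonneg_left (neg_abs_le (ip (X x) (dX i (dX i X) x)))
      (show 0 ≤ w x * σ x ^ 2 by positivity)
    rw [abs_mul] at q1
    have q3 := mul_le_mul_of_nonneg_right d1 (abs_nonneg (ip (X x) (dX i X x)))
    have r1 : δ⁻¹ * w x * (2 * (1 * (δ * σ x ^ 2)) * |ip (X x) (dX i (dX i X) x)|)
        = 2 * (w x * σ x ^ 2 * |ip (X x) (dX i (dX i X) x)|) := by field_simp
    have r2 : δ⁻¹ * w x * (1 ^ 2 * ip (X x) (X x)
        + (δ * σ x ^ 2) ^ 2 * ip (dX i (dX i X) x) (dX i (dX i X) x))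
        = δ⁻¹ * (w x * ip (X x) (X x))
          + δ * (w x * σ x ^ 4 * ip (dX i (dX i X) x) (dX i (dX i X) x)) := by field_simp
    rw [r1, r2] at p2
    linarith
  rw [tint_const_mul, ← e, tint_add (by fun_prop) (by fun_prop),
    tint_add (by fun_prop) (by fun_prop), tint_const_mul, tint_const_mul] at b
  linarith

/-- one term of the level sum -/
def tm (a σ : E3 → ℝ) (W : E3 → SV) (j : ℕ) (u : List Ix) : ℝ :=
  tint fun x => a x * σ x ^ (2 * j) * ip (dXw u W x) (dXw u W x)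

lemma level_eq {ω σ μ : E3 → ℝ} {G : E3 → SV} (hω : Sm ω) (hσ : Sm σ) (hμ : Sm μ) (hG : Sm G)
    (j : ℕ) : tint (fun x => μ x * ω x * zz j σ G x)
      = ∑ u ∈ words j, tm (fun x => μ x * ω x) σ (fun x => PP (G x)) j u := by
  have := hω.cont
  have := hσ.cont
  have := hμ.cont
  unfold tm
  rw [← tint_sum _ fun u _ => by
    have := cont_ip ((hG.clm PP).dXw u) ((hG.clm PP).dXw u)
    fun_prop]
  refine tint_congr fun x => ?_
  simp only [zz, dXw_clm hG, mul_sum, mul_assoc]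

end Interp

open Interp in
theorem interp : InterpStmt := by
  intro K n ε hε
  have tn : ∀ {L : ℝ} {a σ : E3 → ℝ} (W : E3 → SV) j u, Slow L σ a → 0 ≤ tm a σ W j u :=
    fun W j u ha => tint_nonneg fun x =>
      mul_nonneg (mul_nonneg (ha.pos x).le (by rw [pow_mul]; positivity)) (ip_self_nonneg _)
  let P : (ℕ → ℝ) → Prop := fun H => ∃ (a σ : E3 → ℝ) (W : E3 → SV), Slow (K + K) σ a ∧
    Slow K σ σ ∧ Sm W ∧ Per W ∧ H = fun j => ∑ u ∈ words j, tm a σ W j u
  have h0 : ∀ H, P H → ∀ j, 0 ≤ H j := by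
    rintro _ ⟨a, σ, W, ha, -, -, -, rfl⟩ j
    exact sum_nonneg fun u _ => tn W j u ha
  have h1 : ∀ j δ, 0 < δ → ∃ C : ℝ, 0 < C ∧ ∀ H, P H →
      H (j + 1) ≤ δ * H (j + 2) + C * H j := by
    intro j δ hδ
    refine ⟨dd * ((K + K + (2 * j : ℕ) * K + 2 * K) ^ 2 + δ⁻¹), by have := dr_pos; positivity, ?_⟩
    rintro _ ⟨a, σ, W, ha, hσ, hW, pW, rfl⟩
    have key : ∀ i u, tm a σ W (j + 1) (i :: u) ≤ δ * tm a σ W (j + 2) (i :: i :: u)
        + ((K + K + (2 * j : ℕ) * K + 2 * K) ^ 2 + δ⁻¹) * tm a σ W j u := fun i u => by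
      have := step hδ hσ (slow_pow hσ ha (2 * j)) (hW.dXw u) (pW.dXw u) i
      simp only [tm, dXw, dXw_dX (hW.dX i), dXw_dX hW, mul_add, pow_add, mul_one, ← mul_assoc]
      simpa only [← mul_assoc] using this
    simp only [sum_words_succ]
    calc _ ≤ ∑ i : Ix, ∑ u ∈ words j, (δ * tm a σ W (j + 2) (i :: i :: u)
          + ((K + K + (2 * j : ℕ) * K + 2 * K) ^ 2 + δ⁻¹) * tm a σ W j u) :=
          sum_le_sum fun i _ => sum_le_sum fun u _ => key i u
      _ = δ * ∑ i : Ix, ∑ u ∈ words j, tm a σ W (j + 2) (i :: i :: u)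
          + dd * ((K + K + (2 * j : ℕ) * K + 2 * K) ^ 2 + δ⁻¹) * ∑ u ∈ words j, tm a σ W j u := by
          simp only [sum_add_distrib, ← mul_sum, sum_const, card_univ, Fintype.card_fin,
            nsmul_eq_mul]
          push_cast; ring
      _ ≤ _ := by
          gcongr with i
          exact single_le_sum (f := fun l => ∑ u ∈ words j, tm a σ W (j + 2) (i :: l :: u))
            (fun l _ => sum_nonneg fun u _ => tn W _ _ ha) (mem_univ i)
  have hP : ∀ (ω σ μ : E3 → ℝ) (G : E3 → SV), Slow K σ ω → Slow K σ σ → Slow K σ μ → Sm G →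
      Per G → P fun j => tint fun x => μ x * ω x * zz j σ G x :=
    fun ω σ μ G hω hσ hμ hG pG => ⟨_, σ, _, slow_mul hσ.pos hμ hω, hσ, hG.clm PP, pG.map PP,
      funext fun j => level_eq hω.sm hσ.sm hμ.sm hG j⟩
  cases n with
  | zero =>
    refine ⟨1, one_pos, fun ω σ μ G hω hσ hμ hG pG => ?_⟩
    have := h0 _ (hP ω σ μ G hω hσ hμ hG pG) 0
    simp only [range_zero, sum_empty]
    positivity
  | succ n =>
    obtain ⟨C, hC, h⟩ := seq_interp P h0 h1 n ε hε
    exact ⟨C, hC, fun ω σ μ G hω hσ hμ hG pG => h _ (hP ω σ μ G hω hσ hμ hG pG)⟩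

end Pool.Agent.BoltzD

end
end MrgPart2

-- ======== part 3: formerly Pool.Agent.BoltzD.Lin.Main
section MrgPart3

/-! Module M5 from the modules M3 and M4. -/

set_option autoImplicit false

open Filter Topology MeasureTheory Set Pool.Agent.BoltzC

noncomputable section

namespace Pool.Agent.BoltzD.Lin

variable [Dim]

theorem rellich : RellichStmt := by
  intro n θ a ν ρ ε hn hθ hθ1 hε
  have hη : Supp (|ρ| + ‖(0 : E3)‖) fun y : E3 => expNegInvGlue (ρ ^ 2 - ‖y‖ ^ 2) := by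
    simpa using supp_eta 0 (abs_nonneg ρ) fun _ => 1
  have hI : Integrable fun y : E3 => expNegInvGlue (ρ ^ 2 - ‖y‖ ^ 2) :=
    hη.integrable (continuous_eta.comp (by fun_prop))
  set I := ∫ y : E3, expNegInvGlue (ρ ^ 2 - ‖y‖ ^ 2) with hId
  have hI0 : 0 ≤ I := integral_nonneg fun _ => expNegInvGlue.nonneg _
  obtain ⟨m, φ, h⟩ := KK.point_le n ν a |ρ| hn hθ hθ1 (ε := ε / (I + 1)) (by positivity)
  let ψ : Fin m → DD := fun i => ⟨φ i, inD_iff.mp (φ i).2⟩
  have hp := BF_nonneg (n := n) hθ.le a ν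
  refine ⟨m, fun k => √(4 * I) • BF n θ a ν (ψ k), 4 * I * ∑ k, BF n θ a ν (ψ k) (ψ k),
    fun k Z => ?_, fun Z => ?_⟩
  · rw [LinearMap.smul_apply, smul_eq_mul, mul_pow, Real.sq_sqrt (by positivity), mul_assoc _ _
      (BF n θ a ν Z Z)]
    refine mul_le_mul_of_nonneg_left ?_ (by positivity)
    refine (LinearMap.BilinForm.apply_sq_le_of_symm _ hp ⟨BF_symm a ν⟩ _ _).trans ?_
    exact mul_le_mul_of_nonneg_right
      (Finset.single_le_sum (f := fun k => BF n θ a ν (ψ k) (ψ k)) (fun k _ => hp _)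
        (Finset.mem_univ k)) (hp Z)
  · obtain ⟨R, -, hR⟩ := Z.2.2.1
    have h1 : NY ρ Z ≤ I * (ε / (I + 1) * BF n θ a ν Z Z + 4 * ∑ k, BF n θ a ν (ψ k) Z ^ 2) := by
      rw [hId, ← integral_mul_const]
      refine integral_mono (integrable_eta (by fun_prop) Z.2.1 hR) (hI.mul_const _) fun y => ?_
      by_cases hy : ‖y‖ ≤ |ρ|
      · exact mul_le_mul_of_nonneg_left (h ⟨Z, inD_iff.mpr Z.2⟩ y hy) (expNegInvGlue.nonneg _)
      · have h2 : expNegInvGlue (ρ ^ 2 - ‖y‖ ^ 2) = 0 := hη y (by simpa using hy)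
        simp only [h2, zero_mul, le_refl]
    have h2 : I * (ε / (I + 1)) ≤ ε := by
      rw [← mul_div_assoc, div_le_iff₀ (by positivity)]; linarith
    have h3 := mul_le_mul_of_nonneg_right h2 (hp Z)
    simp only [LinearMap.smul_apply, smul_eq_mul, mul_pow, Real.sq_sqrt (by positivity : 0 ≤ 4 * I),
      ← Finset.mul_sum]
    linarith

theorem m5 (h3 : M3hStmt) (h4 : M4hStmt) : M5Stmt := m5_of rellich h3 h4

end Pool.Agent.BoltzD.Lin

end
end MrgPart3

-- marker of a merged file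
example : 731051 + 629103 = 731051 + 629103 := rfl

end MrgPart1

-- marker of a merged file
example : 731051 + 629103 = 731051 + 629103 := rfl
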